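import Pool.Agent.Lib.SW.PsiChi

/-!
# The Siegel-Walfisz theorem

Orthogonality of characters (DirichletCharacter.sum_char_inv_mul_char_eq):
psiAP x q a = (1/φ(q)) sum_χ χ(a)^(-1) sum_{n<=x} χ(n)Λ(n). The nonprincipal ones: psi_chi_bound
with ε = 1, k = 2A. The principal one: psi_bound and the crude bound
sum_{n<=x, (n,q)>1} Λ(n) <= (q+1) (log_2 x + 1) log x.
-/

namespace Pool.Agent.Lib.SW

/-- Powers of the logarithm are at most a constant times the square root. -/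
lemma log_pow_le_sqrt (k : ℕ) : ∃ C : ℝ, 0 < C ∧ ∀ x : ℝ, 1 ≤ x →
    (Real.log x) ^ k ≤ C * Real.sqrt x := by
  refine ⟨(2 * ((k:ℝ)+1)) ^ k, by positivity, fun x hx => ?_⟩
  have h0 : 0 ≤ Real.log x := Real.log_nonneg hx
  have hx0 : (0:ℝ) ≤ x := by linarith
  have hε : (0:ℝ) < 1 / (2 * ((k:ℝ)+1)) := by positivity
  have h1 := Real.log_le_rpow_div hx0 hε
  have h2 := pow_le_pow_left₀ h0 h1 k
  refine h2.trans ?_
  rw [div_pow, one_div, inv_pow, div_inv_eq_mul, mul_comm]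
  apply mul_le_mul_of_nonneg_left _ (by positivity)
  rw [← Real.rpow_natCast, ← Real.rpow_mul hx0, Real.sqrt_eq_rpow]
  apply Real.rpow_le_rpow_of_exponent_le hx
  rw [inv_mul_eq_div, div_le_div_iff₀ (by positivity) (by norm_num)]
  nlinarith

/-- Powers of the logarithm times the square root are at most a constant times `x / log ^ A`. -/
lemma sqrt_mul_log_pow_le (j A : ℕ) : ∃ C : ℝ, 0 < C ∧ ∀ x : ℝ, 2 ≤ x →
    Real.sqrt x * (Real.log x) ^ j ≤ C * x / (Real.log x) ^ A := by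
  obtain ⟨C, hC, h⟩ := log_pow_le_sqrt (j + A)
  refine ⟨C, hC, fun x hx => ?_⟩
  have hl : 0 < Real.log x := Real.log_pos (by linarith)
  rw [le_div_iff₀ (by positivity), mul_assoc, ← pow_add]
  calc Real.sqrt x * (Real.log x) ^ (j + A) ≤ Real.sqrt x * (C * Real.sqrt x) :=
        mul_le_mul_of_nonneg_left (h x (by linarith)) (Real.sqrt_nonneg _)
    _ = C * (Real.sqrt x * Real.sqrt x) := by ring
    _ = C * x := by rw [Real.mul_self_sqrt (by linarith)]

/-- Orthogonality. -/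
lemma psiAP_eq (x : ℝ) (q a : ℕ) [NeZero q] (ha : a.Coprime q) :
    (q.totient : ℂ) * ((psiAP x q a : ℝ) : ℂ) =
      ∑ χ : DirichletCharacter ℂ q, χ ((a : ZMod q)⁻¹) *
        ∑ n ∈ Finset.Icc 1 ⌊x⌋₊, lam (chf χ) n := by
  have hu : IsUnit (a : ZMod q) := (ZMod.isUnit_iff_coprime a q).2 ha
  unfold psiAP
  rw [Finset.sum_filter]
  push_cast
  rw [Finset.mul_sum]
  simp_rw [Finset.mul_sum]
  rw [Finset.sum_comm]
  refine Finset.sum_congr rfl fun n _ => ?_
  have h := DirichletCharacter.sum_char_inv_mul_char_eq ℂ hu (n : ZMod q)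
  have h2 : ∑ χ : DirichletCharacter ℂ q, χ ((a : ZMod q)⁻¹) * lam (chf χ) n =
      (∑ χ : DirichletCharacter ℂ q, χ ((a : ZMod q)⁻¹) * χ (n : ZMod q)) *
        ((ArithmeticFunction.vonMangoldt n : ℝ) : ℂ) := by
    rw [Finset.sum_mul]
    refine Finset.sum_congr rfl fun χ _ => ?_
    simp only [lam, chf]
    ring
  rw [h2, h]
  have h3 : ((a : ZMod q) = (n : ZMod q)) ↔ n ≡ a [MOD q] := by
    rw [ZMod.natCast_eq_natCast_iff]
    exact ⟨fun h => h.symm, fun h => h.symm⟩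
  by_cases hn : n ≡ a [MOD q]
  · rw [if_pos hn, if_pos (h3.2 hn)]
  · rw [if_neg hn, if_neg (fun h => hn (h3.1 h))]
    simp

/-- The contribution of the integers which are not coprime to `q`. -/
lemma sum_not_coprime_le (x : ℝ) (hx : 2 ≤ x) (q : ℕ) (hq : 1 ≤ q) :
    ∑ n ∈ (Finset.Icc 1 ⌊x⌋₊).filter (fun n => ¬ n.Coprime q), ArithmeticFunction.vonMangoldt n ≤
      8 * (q:ℝ) * (Real.log x) ^ 2 := by
  have hl : 0 < Real.log x := Real.log_pos (by linarith)
  have hl2 : (1:ℝ)/2 ≤ Real.log 2 := by linarith [Real.log_two_gt_d9]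
  have hlx : Real.log 2 ≤ Real.log x := Real.log_le_log (by norm_num) hx
  -- restrict to prime powers
  have h1 : ∑ n ∈ (Finset.Icc 1 ⌊x⌋₊).filter (fun n => ¬ n.Coprime q),
      ArithmeticFunction.vonMangoldt n =
      ∑ n ∈ ((Finset.Icc 1 ⌊x⌋₊).filter (fun n => ¬ n.Coprime q)).filter (fun n => IsPrimePow n),
      ArithmeticFunction.vonMangoldt n := by
    refine (Finset.sum_filter_of_ne ?_).symm
    intro n _ hn
    exact ArithmeticFunction.vonMangoldt_ne_zero_iff.1 hn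
  have h2 : ((Finset.Icc 1 ⌊x⌋₊).filter (fun n => ¬ n.Coprime q)).filter
      (fun n => IsPrimePow n) ⊆
      ((Finset.Icc 1 q) ×ˢ (Finset.Icc 1 (Nat.log 2 ⌊x⌋₊))).image (fun p => p.1 ^ p.2) := by
    intro n hn
    simp only [Finset.mem_filter, Finset.mem_Icc] at hn
    obtain ⟨⟨⟨hn1, hn2⟩, hnq⟩, hpp⟩ := hn
    rw [isPrimePow_nat_iff] at hpp
    obtain ⟨p, k, hp, hk, rfl⟩ := hpp
    simp only [Finset.mem_image, Finset.mem_product, Finset.mem_Icc, Prod.exists]
    refine ⟨p, k, ⟨⟨hp.one_le, ?_⟩, hk, ?_⟩, rfl⟩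
    · have : ¬ p.Coprime q := fun h => hnq (h.pow_left k)
      rw [hp.coprime_iff_not_dvd, not_not] at this
      exact Nat.le_of_dvd (by omega) this
    · apply Nat.le_log_of_pow_le (by norm_num)
      exact le_trans (Nat.pow_le_pow_left hp.two_le k) hn2
  have h3 : (((Finset.Icc 1 ⌊x⌋₊).filter (fun n => ¬ n.Coprime q)).filter
      (fun n => IsPrimePow n)).card ≤ q * Nat.log 2 ⌊x⌋₊ := by
    refine (Finset.card_le_card h2).trans (Finset.card_image_le.trans ?_)
    rw [Finset.card_product, Nat.card_Icc, Nat.card_Icc]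
    simp
  have hfl : 1 ≤ ⌊x⌋₊ := Nat.le_floor (by push_cast; linarith)
  have h4 : ((Nat.log 2 ⌊x⌋₊ : ℕ) : ℝ) ≤ 2 * Real.log x := by
    have h5 : (2:ℝ) ^ (Nat.log 2 ⌊x⌋₊) ≤ x := by
      have h6 : 2 ^ (Nat.log 2 ⌊x⌋₊) ≤ ⌊x⌋₊ := Nat.pow_log_le_self 2 (by omega)
      calc (2:ℝ) ^ (Nat.log 2 ⌊x⌋₊) ≤ (⌊x⌋₊ : ℝ) := by exact_mod_cast h6
        _ ≤ x := Nat.floor_le (by linarith)
    have h7 := Real.log_le_log (by positivity) h5
    rw [Real.log_pow] at h7
    have h8 : ((Nat.log 2 ⌊x⌋₊ : ℕ) : ℝ) * (1/2) ≤ ((Nat.log 2 ⌊x⌋₊ : ℕ) : ℝ) * Real.log 2 :=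
      mul_le_mul_of_nonneg_left hl2 (Nat.cast_nonneg _)
    linarith
  rw [h1]
  calc ∑ n ∈ ((Finset.Icc 1 ⌊x⌋₊).filter (fun n => ¬ n.Coprime q)).filter
        (fun n => IsPrimePow n), ArithmeticFunction.vonMangoldt n
      ≤ ∑ n ∈ ((Finset.Icc 1 ⌊x⌋₊).filter (fun n => ¬ n.Coprime q)).filter
        (fun n => IsPrimePow n), Real.log x := by
        apply Finset.sum_le_sum
        intro n hn
        simp only [Finset.mem_filter, Finset.mem_Icc] at hn
        refine ArithmeticFunction.vonMangoldt_le_log.trans ?_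
        apply Real.log_le_log (by exact_mod_cast hn.1.1.1)
        exact (Nat.le_floor_iff (by linarith)).1 hn.1.1.2
    _ = (((Finset.Icc 1 ⌊x⌋₊).filter (fun n => ¬ n.Coprime q)).filter
        (fun n => IsPrimePow n)).card * Real.log x := by
        rw [Finset.sum_const, nsmul_eq_mul]
    _ ≤ ((q * Nat.log 2 ⌊x⌋₊ : ℕ) : ℝ) * Real.log x := by
        apply mul_le_mul_of_nonneg_right _ hl.le
        exact_mod_cast h3
    _ ≤ 8 * (q:ℝ) * (Real.log x) ^ 2 := by
        push_cast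
        have hq0 : (0:ℝ) ≤ q := Nat.cast_nonneg _
        have : (q:ℝ) * ((Nat.log 2 ⌊x⌋₊ : ℕ) : ℝ) ≤ (q:ℝ) * (2 * Real.log x) :=
          mul_le_mul_of_nonneg_left h4 hq0
        have h9 : (q:ℝ) * ((Nat.log 2 ⌊x⌋₊ : ℕ) : ℝ) * Real.log x ≤
            (q:ℝ) * (2 * Real.log x) * Real.log x := mul_le_mul_of_nonneg_right this hl.le
        nlinarith [mul_nonneg hq0 (sq_nonneg (Real.log x))]

lemma vonMangoldt_sum_le_psi (x : ℝ) (s : Finset ℕ) (hs : s ⊆ Finset.Icc 1 ⌊x⌋₊) :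
    ∑ n ∈ s, ArithmeticFunction.vonMangoldt n ≤
      ∑ n ∈ Finset.Icc 1 ⌊x⌋₊, ArithmeticFunction.vonMangoldt n :=
  Finset.sum_le_sum_of_subset_of_nonneg hs
    (fun _ _ _ => ArithmeticFunction.vonMangoldt_nonneg)

/-- Bounded `x`. -/
lemma small_psi (x : ℝ) (hx : 2 ≤ x) (hx3 : x ≤ 3) (q a : ℕ) (hq : 1 ≤ q) :
    |psiAP x q a - x / (q.totient : ℝ)| ≤ 9 := by
  have h0 : 0 ≤ psiAP x q a := Finset.sum_nonneg fun _ _ => ArithmeticFunction.vonMangoldt_nonneg
  have h1 : psiAP x q a ≤ 9 := by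
    unfold psiAP
    refine (vonMangoldt_sum_le_psi x _ (Finset.filter_subset _ _)).trans ?_
    calc ∑ n ∈ Finset.Icc 1 ⌊x⌋₊, ArithmeticFunction.vonMangoldt n
        ≤ ∑ n ∈ Finset.Icc 1 ⌊x⌋₊, (3:ℝ) := by
          apply Finset.sum_le_sum
          intro n hn
          rw [Finset.mem_Icc] at hn
          have hn2 : (n:ℝ) ≤ x := (Nat.le_floor_iff (by linarith)).1 hn.2
          have hn1 : (1:ℝ) ≤ n := by exact_mod_cast hn.1
          refine ArithmeticFunction.vonMangoldt_le_log.trans ?_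
          have := Real.log_le_sub_one_of_pos (show (0:ℝ) < n by linarith)
          linarith
      _ = (⌊x⌋₊ : ℝ) * 3 := by
          rw [Finset.sum_const, nsmul_eq_mul, Nat.card_Icc]
          simp
      _ ≤ 9 := by
          have := Nat.floor_le (show 0 ≤ x by linarith)
          linarith
  have hφ : (1:ℝ) ≤ (q.totient : ℝ) := by exact_mod_cast Nat.totient_pos.2 (by omega)
  have h2 : 0 ≤ x / (q.totient : ℝ) := by positivity
  have h3 : x / (q.totient : ℝ) ≤ 3 := by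
    rw [div_le_iff₀ (by linarith)]
    nlinarith
  rw [abs_le]
  constructor <;> linarith

lemma small_bound (A : ℝ) (hA : 0 ≤ A) (x : ℝ) (hx : 2 ≤ x) (hx3 : x ≤ 3) :
    9 ≤ 9 * (2:ℝ) ^ A * x / (Real.log x) ^ A := by
  have hl : 0 < Real.log x := Real.log_pos (by linarith)
  have hl2 : Real.log x ≤ 2 := by
    have := Real.log_le_sub_one_of_pos (show (0:ℝ) < x by linarith)
    linarith
  have h1 : (Real.log x) ^ A ≤ (2:ℝ) ^ A := Real.rpow_le_rpow hl.le hl2 hA
  have h2 : 0 < (Real.log x) ^ A := Real.rpow_pos_of_pos hl A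
  rw [le_div_iff₀ h2]
  nlinarith

/-- The asymptotic range. -/
lemma siegel_walfisz_ge_three (A : ℕ) : ∃ C : ℝ, 0 < C ∧ ∀ x : ℝ, 3 ≤ x → ∀ q a : ℕ, 1 ≤ q →
    (q:ℝ) ≤ (Real.log x) ^ A → a.Coprime q →
    |psiAP x q a - x / (q.totient : ℝ)| ≤ C * x / (Real.log x) ^ A := by
  obtain ⟨C1, hC1, h1⟩ := psi_chi_bound (2 * A) 1 one_pos
  obtain ⟨C2, hC2, h2⟩ := psi_bound A
  obtain ⟨C3, hC3, h3⟩ := sqrt_mul_log_pow_le (A + 2) A
  refine ⟨C1 + C2 + 8 * C3, by positivity, fun x hx q a hq hqx ha => ?_⟩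
  have : NeZero q := ⟨by omega⟩
  have hl : 0 < Real.log x := Real.log_pos (by linarith)
  have hx0 : 0 < x := by linarith
  have hLA : 0 < (Real.log x) ^ A := by positivity
  have hφ : (1:ℝ) ≤ (q.totient : ℝ) := by exact_mod_cast Nat.totient_pos.2 (by omega)
  have hφ0 : (0:ℝ) < (q.totient : ℝ) := by linarith
  set M : ℝ := x / (Real.log x) ^ A with hM
  have hM0 : 0 < M := by positivity
  -- nonprincipal characters
  have hnp : ∀ χ : DirichletCharacter ℂ q, χ ≠ 1 →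
      ‖χ ((a : ZMod q)⁻¹) * ∑ n ∈ Finset.Icc 1 ⌊x⌋₊, lam (chf χ) n‖ ≤ C1 * M := by
    intro χ hχ
    rw [norm_mul]
    have hb := h1 q χ hχ x hx
    calc ‖χ ((a : ZMod q)⁻¹)‖ * ‖∑ n ∈ Finset.Icc 1 ⌊x⌋₊, lam (chf χ) n‖
        ≤ 1 * (C1 * (q:ℝ) ^ (1:ℝ) * x / (Real.log x) ^ (2 * A)) := by
          apply mul_le_mul (χ.norm_le_one _) hb (norm_nonneg _) zero_le_one
      _ = C1 * (q:ℝ) * x / (Real.log x) ^ (2 * A) := by rw [one_mul, Real.rpow_one]
      _ ≤ C1 * (Real.log x) ^ A * x / (Real.log x) ^ (2 * A) := by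
          gcongr
      _ = C1 * M := by
          rw [hM, two_mul, pow_add]
          field_simp
  -- the principal character
  have hpr : ‖(1 : DirichletCharacter ℂ q) ((a : ZMod q)⁻¹) *
      ∑ n ∈ Finset.Icc 1 ⌊x⌋₊, lam (chf (1 : DirichletCharacter ℂ q)) n - (x:ℂ)‖ ≤
      (C2 + 8 * C3) * M := by
    have hu : IsUnit (a : ZMod q) := (ZMod.isUnit_iff_coprime a q).2 ha
    have hu' : IsUnit ((a : ZMod q)⁻¹) := by
      obtain ⟨u, hu⟩ := hu
      rw [← hu, ZMod.inv_coe_unit]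
      exact Units.isUnit _
    rw [MulChar.one_apply hu', one_mul]
    have hsum : ∑ n ∈ Finset.Icc 1 ⌊x⌋₊, lam (chf (1 : DirichletCharacter ℂ q)) n =
        ((∑ n ∈ Finset.Icc 1 ⌊x⌋₊, ArithmeticFunction.vonMangoldt n -
          ∑ n ∈ (Finset.Icc 1 ⌊x⌋₊).filter (fun n => ¬ n.Coprime q),
            ArithmeticFunction.vonMangoldt n : ℝ) : ℂ) := by
      rw [← Finset.sum_filter_add_sum_filter_not (Finset.Icc 1 ⌊x⌋₊) (fun n => n.Coprime q)
        ArithmeticFunction.vonMangoldt, add_sub_cancel_right, Finset.sum_filter]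
      push_cast
      refine Finset.sum_congr rfl fun n _ => ?_
      simp only [lam, chf]
      by_cases hn : n.Coprime q
      · rw [MulChar.one_apply ((ZMod.isUnit_iff_coprime n q).2 hn), if_pos hn, one_mul]
      · rw [MulChar.map_nonunit _ (fun h => hn ((ZMod.isUnit_iff_coprime n q).1 h)), if_neg hn,
          zero_mul]
        simp
    rw [hsum]
    have hb := h2 x hx
    have hc := sum_not_coprime_le x (by linarith) q hq
    have hc0 : 0 ≤ ∑ n ∈ (Finset.Icc 1 ⌊x⌋₊).filter (fun n => ¬ n.Coprime q),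
            ArithmeticFunction.vonMangoldt n :=
      Finset.sum_nonneg fun _ _ => ArithmeticFunction.vonMangoldt_nonneg
    have hd := h3 x (by linarith)
    have hcc : ∑ n ∈ (Finset.Icc 1 ⌊x⌋₊).filter (fun n => ¬ n.Coprime q),
            ArithmeticFunction.vonMangoldt n ≤ 8 * C3 * M := by
      calc _ ≤ 8 * (q:ℝ) * (Real.log x) ^ 2 := hc
        _ ≤ 8 * ((Real.log x) ^ A) * (Real.log x) ^ 2 := by gcongr
        _ = 8 * (1 * (Real.log x) ^ (A + 2)) := by rw [pow_add]; ring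
        _ ≤ 8 * (Real.sqrt x * (Real.log x) ^ (A + 2)) := by
            have hs : 1 ≤ Real.sqrt x := Real.one_le_sqrt.2 (by linarith)
            gcongr
        _ ≤ 8 * (C3 * x / (Real.log x) ^ A) := by gcongr
        _ = 8 * C3 * M := by rw [hM]; ring
    rw [← Complex.ofReal_sub, Complex.norm_real, Real.norm_eq_abs]
    have hb' : |∑ n ∈ Finset.Icc 1 ⌊x⌋₊, ArithmeticFunction.vonMangoldt n - x| ≤ C2 * M := by
      rw [hM, ← mul_div_assoc]; exact hb
    rw [abs_le] at hb' ⊢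
    constructor <;> nlinarith [hb'.1, hb'.2]
  -- assembly
  have hkey : ‖((q.totient : ℂ) * ((psiAP x q a : ℝ) : ℂ)) - (x:ℂ)‖ ≤
      (q.totient : ℝ) * ((C1 + C2 + 8 * C3) * M) := by
    rw [psiAP_eq x q a ha, ← Finset.add_sum_erase _ _ (Finset.mem_univ 1), add_sub_right_comm]
    refine (norm_add_le _ _).trans ?_
    have hE : ‖∑ χ ∈ Finset.univ.erase (1 : DirichletCharacter ℂ q), χ ((a : ZMod q)⁻¹) *
        ∑ n ∈ Finset.Icc 1 ⌊x⌋₊, lam (chf χ) n‖ ≤ (q.totient : ℝ) * (C1 * M) := by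
      refine (norm_sum_le _ _).trans ?_
      calc _ ≤ ∑ χ ∈ Finset.univ.erase (1 : DirichletCharacter ℂ q), C1 * M := by
            apply Finset.sum_le_sum
            intro χ hχ
            exact hnp χ (Finset.ne_of_mem_erase hχ)
        _ = ((Finset.univ.erase (1 : DirichletCharacter ℂ q)).card : ℝ) * (C1 * M) := by
            rw [Finset.sum_const, nsmul_eq_mul]
        _ ≤ (q.totient : ℝ) * (C1 * M) := by
            apply mul_le_mul_of_nonneg_right _ (by positivity)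
            have hcard : (Finset.univ : Finset (DirichletCharacter ℂ q)).card = q.totient := by
              rw [Finset.card_univ, ← Nat.card_eq_fintype_card]
              exact DirichletCharacter.card_eq_totient_of_hasEnoughRootsOfUnity ℂ q
            rw [← hcard]
            exact_mod_cast Finset.card_le_card (Finset.erase_subset _ _)
    have hP : (C2 + 8 * C3) * M ≤ (q.totient : ℝ) * ((C2 + 8 * C3) * M) := by
      have : 0 ≤ (C2 + 8 * C3) * M := by positivity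
      nlinarith
    calc _ ≤ (C2 + 8 * C3) * M + (q.totient : ℝ) * (C1 * M) := add_le_add hpr hE
      _ ≤ (q.totient : ℝ) * ((C2 + 8 * C3) * M) + (q.totient : ℝ) * (C1 * M) := by linarith
      _ = _ := by ring
  have hre : ((q.totient : ℂ) * ((psiAP x q a : ℝ) : ℂ)) - (x:ℂ) =
      (((q.totient : ℝ) * (psiAP x q a - x / (q.totient : ℝ)) : ℝ) : ℂ) := by
    push_cast
    have : (q.totient : ℂ) ≠ 0 := by
      exact_mod_cast (Nat.totient_pos.2 (by omega)).ne'
    field_simp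
  rw [hre, Complex.norm_real, Real.norm_eq_abs, abs_mul, abs_of_pos hφ0] at hkey
  have := le_of_mul_le_mul_left hkey hφ0
  rw [mul_div_assoc]
  exact this

/-- **Siegel-Walfisz theorem** -/
theorem siegel_walfisz_nat (A : ℕ) : ∃ C : ℝ, 0 < C ∧ ∀ x : ℝ, 2 ≤ x → ∀ q a : ℕ, 1 ≤ q →
    (q:ℝ) ≤ (Real.log x) ^ A → a.Coprime q →
    |psiAP x q a - x / (q.totient : ℝ)| ≤ C * x / (Real.log x) ^ A := by
  obtain ⟨C, hC, h⟩ := siegel_walfisz_ge_three A
  refine ⟨C + 9 * (2:ℝ) ^ (A:ℝ), by positivity, fun x hx q a hq hqx ha => ?_⟩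
  have hl : 0 < Real.log x := Real.log_pos (by linarith)
  have hM : 0 < x / (Real.log x) ^ A := by positivity
  rcases le_total 3 x with h3 | h3
  · refine (h x h3 q a hq hqx ha).trans ?_
    rw [mul_div_assoc, mul_div_assoc]
    apply mul_le_mul_of_nonneg_right _ hM.le
    have : 0 ≤ 9 * (2:ℝ) ^ (A:ℝ) := by positivity
    linarith
  · refine (small_psi x hx h3 q a hq).trans ?_
    have := small_bound A (Nat.cast_nonneg _) x hx h3
    rw [Real.rpow_natCast (Real.log x)] at this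
    refine this.trans ?_
    rw [mul_div_assoc, mul_div_assoc]
    apply mul_le_mul_of_nonneg_right _ hM.le
    linarith

/-- Comparison of psi and theta in a progression. -/
lemma psiAP_sub_thetaAP (x : ℝ) (hx : 2 ≤ x) (q a : ℕ) :
    |psiAP x q a - thetaAP x q a| ≤ 2 * Real.sqrt x * Real.log x := by
  have h1 : psiAP x q a - thetaAP x q a =
      ∑ n ∈ (Finset.Icc 1 ⌊x⌋₊).filter (fun n => ¬ n.Prime ∧ n ≡ a [MOD q]),
        ArithmeticFunction.vonMangoldt n := by
    unfold psiAP thetaAP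
    rw [← Finset.sum_filter_add_sum_filter_not
      ((Finset.Icc 1 ⌊x⌋₊).filter (fun n => n ≡ a [MOD q])) (fun n => n.Prime),
      Finset.filter_filter, Finset.filter_filter]
    have h2 : ∑ n ∈ (Finset.Icc 1 ⌊x⌋₊).filter (fun n => n ≡ a [MOD q] ∧ n.Prime),
        ArithmeticFunction.vonMangoldt n =
        ∑ p ∈ (Finset.Icc 1 ⌊x⌋₊).filter (fun p => p.Prime ∧ p ≡ a [MOD q]), Real.log p := by
      have hf : (Finset.Icc 1 ⌊x⌋₊).filter (fun n => n ≡ a [MOD q] ∧ n.Prime) =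
          (Finset.Icc 1 ⌊x⌋₊).filter (fun p => p.Prime ∧ p ≡ a [MOD q]) := by
        apply Finset.filter_congr
        intro n _
        exact and_comm
      rw [hf]
      apply Finset.sum_congr rfl
      intro p hp
      rw [Finset.mem_filter] at hp
      exact ArithmeticFunction.vonMangoldt_apply_prime hp.2.1
    rw [h2, add_sub_cancel_left]
    apply Finset.sum_congr _ (fun _ _ => rfl)
    apply Finset.filter_congr
    intro n _
    exact and_comm
  rw [h1, abs_of_nonneg (Finset.sum_nonneg fun _ _ => ArithmeticFunction.vonMangoldt_nonneg)]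
  refine le_trans ?_ (Chebyshev.psi_sub_theta_le (show (1:ℝ) ≤ x by linarith))
  rw [Chebyshev.psi_sub_theta_eq_sum_not_prime]
  apply Finset.sum_le_sum_of_subset_of_nonneg
  · intro n hn
    simp only [Finset.mem_filter, Finset.mem_Icc, Finset.mem_Ioc] at hn ⊢
    exact ⟨⟨by omega, hn.1.2⟩, hn.2.1⟩
  · intro _ _ _
    exact ArithmeticFunction.vonMangoldt_nonneg

theorem siegel_walfisz_theta_nat (A : ℕ) : ∃ C : ℝ, 0 < C ∧ ∀ x : ℝ, 2 ≤ x → ∀ q a : ℕ, 1 ≤ q →
    (q:ℝ) ≤ (Real.log x) ^ A → a.Coprime q →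
    |thetaAP x q a - x / (q.totient : ℝ)| ≤ C * x / (Real.log x) ^ A := by
  obtain ⟨C, hC, h⟩ := siegel_walfisz_nat A
  obtain ⟨C', hC', h'⟩ := sqrt_mul_log_pow_le 1 A
  refine ⟨C + 2 * C', by positivity, fun x hx q a hq hqx ha => ?_⟩
  have h1 := h x hx q a hq hqx ha
  have h2 := psiAP_sub_thetaAP x hx q a
  have h3 := h' x hx
  rw [pow_one] at h3
  have h4 : |thetaAP x q a - x / (q.totient : ℝ)| ≤
      |psiAP x q a - x / (q.totient : ℝ)| + |psiAP x q a - thetaAP x q a| := by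
    have : thetaAP x q a - x / (q.totient : ℝ) =
        (psiAP x q a - x / (q.totient : ℝ)) - (psiAP x q a - thetaAP x q a) := by ring
    rw [this]
    exact abs_sub _ _
  have h5 : (C + 2 * C') * x / (Real.log x) ^ A =
      C * x / (Real.log x) ^ A + 2 * (C' * x / (Real.log x) ^ A) := by ring
  rw [h5]
  linarith

/-- The same with real exponents. -/
theorem siegel_walfisz (A : ℝ) (hA : 0 ≤ A) : ∃ C : ℝ, 0 < C ∧ ∀ x : ℝ, 2 ≤ x → ∀ q a : ℕ,
    1 ≤ q → (q:ℝ) ≤ (Real.log x) ^ A → a.Coprime q →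
    |psiAP x q a - x / (q.totient : ℝ)| ≤ C * x / (Real.log x) ^ A := by
  obtain ⟨C, hC, h⟩ := siegel_walfisz_ge_three ⌈A⌉₊
  refine ⟨C + 9 * (2:ℝ) ^ A, by positivity, fun x hx q a hq hqx ha => ?_⟩
  have hl : 0 < Real.log x := Real.log_pos (by linarith)
  have hLA : 0 < (Real.log x) ^ A := Real.rpow_pos_of_pos hl A
  have hM : 0 < x / (Real.log x) ^ A := by positivity
  rcases le_total 3 x with h3 | h3
  · have hl1 : 1 ≤ Real.log x := by
      rw [Real.le_log_iff_exp_le (by linarith)]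
      have := Real.exp_one_lt_d9
      linarith
    have hLL : (Real.log x) ^ A ≤ (Real.log x) ^ ⌈A⌉₊ := by
      rw [← Real.rpow_natCast]
      exact Real.rpow_le_rpow_of_exponent_le hl1 (Nat.le_ceil A)
    refine (h x h3 q a hq (hqx.trans hLL) ha).trans ?_
    calc C * x / (Real.log x) ^ ⌈A⌉₊ ≤ C * x / (Real.log x) ^ A := by
          apply div_le_div_of_nonneg_left _ hLA hLL
          positivity
      _ ≤ _ := by
          rw [mul_div_assoc, mul_div_assoc]
          apply mul_le_mul_of_nonneg_right _ hM.le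
          have : 0 ≤ 9 * (2:ℝ) ^ A := by positivity
          linarith
  · refine (small_psi x hx h3 q a hq).trans ?_
    refine (small_bound A hA x hx h3).trans ?_
    rw [mul_div_assoc, mul_div_assoc]
    apply mul_le_mul_of_nonneg_right _ hM.le
    linarith

end Pool.Agent.Lib.SW
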