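import Mathlib

/-!
# Riesz means from bounds on the Dirichlet series to the right of Re s = 1

PROOF SKETCH. f(u) = (1-u)_+ has Mellin transform 1/(s(s+1)) for Re s > 0, integrable on vertical
lines, so mellin_inversion gives for y > 0: (1 - 1/y)_+ = (1/2π) int y^(σ+iτ)/((σ+iτ)(σ+iτ+1)) dτ
(σ > 0, u = 1/y). With y = x/n, multiply by a(n) and sum over n >= 1 (σ > 1, absolute convergence:
hasSum_integral_of_summable_integral_norm): sum_{n<=x} a(n)(1-n/x) =
(1/2π) int LSeries a (σ+iτ) x^(σ+iτ)/((σ+iτ)(σ+iτ+1)) dτ. Take σ = 1 + 1/log x <= 2, x^σ = e x, and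
(|τ|+3)^(1/2) / (|σ+iτ| |σ+1+iτ|) <= C (1+|τ|)^(-3/2) is integrable.
-/

open Complex MeasureTheory Set Filter Topology

namespace Pool.Agent.Lib.SW

/-- The function `(1-u)_+` for positive `u`. -/
private noncomputable def ff : ℝ → ℂ := fun u =>
  indicator (Ioc 0 1) (fun _ => (1:ℂ)) u - indicator (Ioc 0 1) (fun t : ℝ => (t : ℂ) ^ (1:ℂ)) u

private lemma ff_mellin {s : ℂ} (hs : 0 < s.re) : HasMellin ff s (1 / s - 1 / (s + 1)) := by
  have h1 := hasMellin_one_Ioc hs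
  have h2 := hasMellin_cpow_Ioc 1 (s := s) (by simp; linarith)
  have h3 := hasMellin_sub h1.1 h2.1
  rw [h1.2, h2.2] at h3
  exact h3

private lemma ff_apply {u : ℝ} (hu : 0 < u) : ff u = ((max (1-u) 0 : ℝ) : ℂ) := by
  unfold ff
  by_cases h : u ≤ 1
  · have hm : u ∈ Ioc (0:ℝ) 1 := ⟨hu, h⟩
    rw [indicator_of_mem hm, indicator_of_mem hm, cpow_one, max_eq_left (by linarith)]
    push_cast
    ring
  · have hm : u ∉ Ioc (0:ℝ) 1 := fun h' => h h'.2
    rw [indicator_of_notMem hm, indicator_of_notMem hm, max_eq_right (by linarith)]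
    simp

private lemma ff_cont {u : ℝ} (hu : 0 < u) : ContinuousAt ff u := by
  have h1 : ff =ᶠ[𝓝 u] fun u => ((max (1-u) 0 : ℝ) : ℂ) := by
    filter_upwards [lt_mem_nhds hu] with v hv
    exact ff_apply hv
  refine ContinuousAt.congr ?_ h1.symm
  fun_prop

/-- The integrable majorant. -/
private noncomputable def gg (y : ℝ) : ℝ := (|y| + 3) ^ (1/2 : ℝ) / (1 + y ^ 2)

private lemma gg_integrable : Integrable gg := by
  have h := integrable_rpow_neg_one_add_norm_sq (E := ℝ) (μ := volume) (r := 3/2) (by norm_num)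
  refine (h.const_mul 3).mono' ?_ (Eventually.of_forall fun y => ?_)
  · unfold gg
    exact (Measurable.aestronglyMeasurable (by fun_prop))
  · unfold gg
    have hy : (0:ℝ) ≤ y ^ 2 := sq_nonneg y
    have hp : (0:ℝ) < 1 + y ^ 2 := by linarith
    have ha : (0:ℝ) ≤ |y| := abs_nonneg y
    rw [Real.norm_of_nonneg (by positivity)]
    have h1 : (|y| + 3) ^ (1/2 : ℝ) ≤ 3 * (1 + y ^ 2) ^ (1/4 : ℝ) := by
      have h2 : |y| + 3 ≤ 9 * (1 + y ^ 2) ^ (1/2 : ℝ) := by
        rw [← Real.sqrt_eq_rpow]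
        have h3 : |y| ≤ √(1 + y ^ 2) := by
          rw [← Real.sqrt_sq_eq_abs]
          exact Real.sqrt_le_sqrt (by linarith)
        have h4 : 1 ≤ √(1 + y ^ 2) := by
          rw [Real.one_le_sqrt]
          linarith
        linarith
      calc (|y| + 3) ^ (1/2 : ℝ) ≤ (9 * (1 + y ^ 2) ^ (1/2 : ℝ)) ^ (1/2 : ℝ) :=
            Real.rpow_le_rpow (by positivity) h2 (by norm_num)
        _ = 3 * (1 + y ^ 2) ^ (1/4 : ℝ) := by
            rw [Real.mul_rpow (by norm_num) (by positivity), ← Real.rpow_mul hp.le]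
            have : (9:ℝ) ^ (1/2 : ℝ) = 3 := by
              rw [← Real.sqrt_eq_rpow, show (9:ℝ) = 3 ^ 2 by norm_num, Real.sqrt_sq (by norm_num)]
            rw [this]
            norm_num
    rw [div_le_iff₀ hp]
    refine h1.trans (le_of_eq ?_)
    rw [Real.norm_eq_abs, sq_abs]
    nth_rewrite 3 [← Real.rpow_one (1 + y ^ 2)]
    rw [mul_assoc, ← Real.rpow_add hp]
    norm_num

private lemma vert {σ : ℝ} (hσ : 1 ≤ σ) (y : ℝ) :
    ‖(1 / ((σ:ℂ) + y * I) - 1 / ((σ:ℂ) + y * I + 1))‖ ≤ 1 / (1 + y ^ 2) := by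
  set s : ℂ := (σ:ℂ) + y * I with hs
  have hre : s.re = σ := by simp [hs]
  have him : s.im = y := by simp [hs]
  have h0 : s ≠ 0 := by
    intro h; rw [h] at hre; simp at hre; linarith
  have h1 : s + 1 ≠ 0 := by
    intro h
    have : (s + 1).re = 0 := by rw [h]; simp
    simp [hre] at this; linarith
  have e : (1 / s - 1 / (s + 1)) = 1 / (s * (s + 1)) := by field_simp; ring
  rw [e, norm_div, norm_one]
  apply one_div_le_one_div_of_le (by positivity)
  rw [norm_mul]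
  have h2 : √(1 + y ^ 2) ≤ ‖s‖ := by
    rw [Complex.norm_eq_sqrt_sq_add_sq, hre, him]
    exact Real.sqrt_le_sqrt (by nlinarith)
  have h3 : √(1 + y ^ 2) ≤ ‖s + 1‖ := by
    rw [Complex.norm_eq_sqrt_sq_add_sq, add_re, add_im, hre, him, one_re, one_im]
    exact Real.sqrt_le_sqrt (by nlinarith)
  calc 1 + y ^ 2 = √(1 + y ^ 2) * √(1 + y ^ 2) := (Real.mul_self_sqrt (by positivity)).symm
    _ ≤ ‖s‖ * ‖s + 1‖ := mul_le_mul h2 h3 (Real.sqrt_nonneg _) (norm_nonneg _)

private lemma vert_cont {σ : ℝ} (hσ : 1 ≤ σ) :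
    Continuous fun y : ℝ => (1 / ((σ:ℂ) + y * I) - 1 / ((σ:ℂ) + y * I + 1)) := by
  have h0 : ∀ y : ℝ, (σ:ℂ) + y * I ≠ 0 := by
    intro y h
    have : ((σ:ℂ) + y * I).re = 0 := by rw [h]; simp
    simp at this; linarith
  have h1 : ∀ y : ℝ, (σ:ℂ) + y * I + 1 ≠ 0 := by
    intro y h
    have : ((σ:ℂ) + y * I + 1).re = 0 := by rw [h]; simp
    simp at this; linarith
  refine Continuous.sub (Continuous.div continuous_const (by fun_prop) h0)
    (Continuous.div continuous_const (by fun_prop) h1)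

private lemma one_int : Integrable fun y : ℝ => 1 / (1 + y ^ 2) := by
  refine gg_integrable.mono' (by
    exact (Measurable.aestronglyMeasurable (by fun_prop))) (Eventually.of_forall fun y => ?_)
  have hp : (0:ℝ) < 1 + y ^ 2 := by positivity
  rw [Real.norm_of_nonneg (by positivity)]
  unfold gg
  apply div_le_div_of_nonneg_right _ hp.le
  apply Real.one_le_rpow _ (by norm_num)
  have := abs_nonneg y
  linarith

private lemma vert_int {σ : ℝ} (hσ : 1 ≤ σ) :
    Integrable fun y : ℝ => (1 / ((σ:ℂ) + y * I) - 1 / ((σ:ℂ) + y * I + 1)) :=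
  one_int.mono' (vert_cont hσ).aestronglyMeasurable (Eventually.of_forall fun y => vert hσ y)

private lemma inversion {σ : ℝ} (hσ : 1 ≤ σ) {u : ℝ} (hu : 0 < u) :
    ((max (1-u) 0 : ℝ) : ℂ) = (1 / (2 * Real.pi) : ℝ) • ∫ y : ℝ, (u:ℂ) ^ (-((σ:ℂ) + y * I)) •
      (1 / ((σ:ℂ) + y * I) - 1 / ((σ:ℂ) + y * I + 1)) := by
  have hm : ∀ y : ℝ, mellin ff ((σ:ℂ) + y * I) =
      (1 / ((σ:ℂ) + y * I) - 1 / ((σ:ℂ) + y * I + 1)) := by
    intro y
    exact (ff_mellin (by simp; linarith)).2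
  have hv : VerticalIntegrable (mellin ff) σ := by
    unfold VerticalIntegrable
    simp_rw [hm]
    exact vert_int hσ
  have hc : MellinConvergent ff σ := (ff_mellin (by simp; linarith)).1
  have h := mellinInv_mellin_eq σ ff hu hc hv (ff_cont hu)
  rw [ff_apply hu] at h
  rw [← h, mellinInv]
  simp_rw [hm]

theorem riesz_bound : ∃ C : ℝ, 0 < C ∧ ∀ (a : ℕ → ℂ) (H : ℝ), 0 ≤ H →
    LSeries.abscissaOfAbsConv a ≤ 1 →
    (∀ s : ℂ, 1 < s.re → s.re ≤ 2 → ‖LSeries a s‖ ≤ H * (|s.im| + 3) ^ (1/2 : ℝ)) →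
    ∀ x : ℝ, 3 ≤ x → ‖∑ n ∈ Finset.Icc 1 ⌊x⌋₊, a n * (1 - (n:ℂ) / (x:ℂ))‖ ≤ C * H * x := by
  refine ⟨Real.exp 1 * (1 / (2 * Real.pi)) * (∫ y, gg y) + 1, ?_, ?_⟩
  · have h0 : 0 ≤ ∫ y, gg y := integral_nonneg fun y => by
      unfold gg
      have := abs_nonneg y
      positivity
    have := Real.pi_pos
    positivity
  intro a H hH ha hb x hx
  have hx0 : 0 < x := by linarith
  have hlog : 1 ≤ Real.log x := by
    have h1 : Real.exp 1 ≤ x := by
      have := Real.exp_one_lt_d9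
      linarith
    have := Real.log_le_log (Real.exp_pos 1) h1
    rwa [Real.log_exp] at this
  set σ : ℝ := 1 + 1 / Real.log x with hσdef
  have hσ1 : 1 < σ := by
    have : 0 < 1 / Real.log x := by positivity
    linarith
  have hσ2 : σ ≤ 2 := by
    have : 1 / Real.log x ≤ 1 := by
      rw [div_le_one (by linarith)]; exact hlog
    linarith
  have hxσ : x ^ σ = Real.exp 1 * x := by
    rw [Real.rpow_def_of_pos hx0, hσdef, mul_add, mul_one, mul_one_div_cancel (by linarith),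
      Real.exp_add, Real.exp_log hx0, mul_comm]
  have hre : ∀ y : ℝ, ((σ:ℂ) + y * I).re = σ := fun y => by simp
  have him : ∀ y : ℝ, ((σ:ℂ) + y * I).im = y := fun y => by simp
  have hs0 : ∀ y : ℝ, (σ:ℂ) + y * I ≠ 0 := by
    intro y h
    have := hre y
    rw [h] at this
    simp at this
    linarith
  have hsum : LSeriesSummable a (σ:ℂ) := by
    apply LSeriesSummable_of_abscissaOfAbsConv_lt_re
    refine lt_of_le_of_lt ha ?_
    simp only [ofReal_re]
    exact_mod_cast hσ1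
  let V : ℝ → ℂ := fun y => (1 / ((σ:ℂ) + y * I) - 1 / ((σ:ℂ) + y * I + 1))
  let F : ℕ → ℝ → ℂ := fun n y =>
    LSeries.term a ((σ:ℂ) + y * I) n * ((x:ℂ) ^ ((σ:ℂ) + y * I) * V y)
  have hxn : ∀ y : ℝ, ‖(x:ℂ) ^ ((σ:ℂ) + y * I)‖ = x ^ σ := by
    intro y
    rw [norm_cpow_eq_rpow_re_of_pos hx0, hre]
  have htn : ∀ n (y : ℝ), ‖LSeries.term a ((σ:ℂ) + y * I) n‖ = ‖LSeries.term a (σ:ℂ) n‖ := by
    intro n y
    rw [LSeries.norm_term_eq, LSeries.norm_term_eq, hre, ofReal_re]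
  have hVc : Continuous V := vert_cont hσ1.le
  have htc : ∀ n, Continuous fun y : ℝ => LSeries.term a ((σ:ℂ) + y * I) n := by
    intro n
    rcases eq_or_ne n 0 with rfl | hn
    · simp only [LSeries.term_zero]; exact continuous_const
    · simp only [LSeries.term_of_ne_zero hn]
      have hn' : (n:ℂ) ≠ 0 := by exact_mod_cast hn
      refine Continuous.div continuous_const ?_ ?_
      · refine Continuous.const_cpow (by fun_prop) (Or.inl hn')
      · intro y
        exact (cpow_ne_zero_iff_of_exponent_ne_zero (hs0 y)).2 hn'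
  have hxc : Continuous fun y : ℝ => (x:ℂ) ^ ((σ:ℂ) + y * I) := by
    refine Continuous.const_cpow (by fun_prop) (Or.inl ?_)
    exact_mod_cast hx0.ne'
  have hFc : ∀ n, Continuous (F n) := fun n => (htc n).mul (hxc.mul hVc)
  have hFn : ∀ n y, ‖F n y‖ ≤ ‖LSeries.term a (σ:ℂ) n‖ * x ^ σ * (1 / (1 + y ^ 2)) := by
    intro n y
    show ‖_ * (_ * V y)‖ ≤ _
    rw [norm_mul, norm_mul, htn, hxn, mul_assoc]
    exact mul_le_mul_of_nonneg_left (mul_le_mul_of_nonneg_left (vert hσ1.le y) (by positivity))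
      (norm_nonneg _)
  have hFi : ∀ n, Integrable (F n) := fun n =>
    (one_int.const_mul (‖LSeries.term a (σ:ℂ) n‖ * x ^ σ)).mono' (hFc n).aestronglyMeasurable
      (Eventually.of_forall fun y => hFn n y)
  have hFs : Summable fun n => ∫ y, ‖F n y‖ := by
    refine Summable.of_nonneg_of_le (fun n => integral_nonneg fun y => norm_nonneg _)
      (fun n => ?_) (hsum.norm.mul_right (x ^ σ * ∫ y : ℝ, 1 / (1 + y ^ 2)))
    calc ∫ y, ‖F n y‖ ≤ ∫ y : ℝ, ‖LSeries.term a (σ:ℂ) n‖ * x ^ σ * (1 / (1 + y ^ 2)) :=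
          integral_mono (hFi n).norm (one_int.const_mul _) (fun y => hFn n y)
      _ = _ := by rw [integral_const_mul, mul_assoc]
  have hHS := hasSum_integral_of_summable_integral_norm hFi hFs
  -- the sum of the integrals
  have hint : ∀ n, (1 / (2 * Real.pi) : ℝ) • ∫ y, F n y =
      if n = 0 then 0 else a n * ((max (1 - (n:ℝ)/x) 0 : ℝ) : ℂ) := by
    intro n
    rcases eq_or_ne n 0 with rfl | hn
    · have : ∀ y, F 0 y = 0 := by
        intro y
        show LSeries.term a _ 0 * _ = 0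
        rw [LSeries.term_zero, zero_mul]
      simp [this]
    · rw [if_neg hn]
      have hn0 : (0:ℝ) < n := by exact_mod_cast Nat.pos_of_ne_zero hn
      rw [inversion hσ1.le (div_pos hn0 hx0)]
      rw [mul_smul_comm, ← integral_const_mul]
      congr 1
      apply integral_congr_ae
      refine Eventually.of_forall fun y => ?_
      show LSeries.term a ((σ:ℂ) + y * I) n * ((x:ℂ) ^ ((σ:ℂ) + y * I) * V y) =
        a n * ((((n:ℝ)/x : ℝ) : ℂ) ^ (-((σ:ℂ) + y * I)) • V y)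
      rw [LSeries.term_of_ne_zero hn, smul_eq_mul]
      have e1 : (((n:ℝ)/x : ℝ) : ℂ) ^ (-((σ:ℂ) + y * I)) =
          (x:ℂ) ^ ((σ:ℂ) + y * I) / (n:ℂ) ^ ((σ:ℂ) + y * I) := by
        have e2 : (((n:ℝ)/x : ℝ) : ℂ) = (((n:ℝ) : ℝ) : ℂ) * ((x⁻¹ : ℝ) : ℂ) := by
          push_cast
          rw [div_eq_mul_inv]
        have e3 : ((x⁻¹ : ℝ) : ℂ) ^ ((σ:ℂ) + y * I) = ((x:ℂ) ^ ((σ:ℂ) + y * I))⁻¹ := by
          push_cast
          rw [inv_cpow]
          rw [Complex.arg_ofReal_of_nonneg hx0.le]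
          exact Real.pi_pos.ne
        rw [cpow_neg, e2, mul_cpow_ofReal_nonneg hn0.le (inv_nonneg.2 hx0.le), e3]
        push_cast
        rw [mul_inv, inv_inv, div_eq_mul_inv, mul_comm]
      rw [e1]
      ring
  have hsumfin : HasSum (fun n : ℕ => if n = 0 then (0:ℂ) else
      a n * ((max (1 - (n:ℝ)/x) 0 : ℝ) : ℂ)) (∑ n ∈ Finset.Icc 1 ⌊x⌋₊, a n * (1 - (n:ℂ) / (x:ℂ))) := by
    have e : ∑ n ∈ Finset.Icc 1 ⌊x⌋₊, a n * (1 - (n:ℂ) / (x:ℂ)) =
        ∑ n ∈ Finset.Icc 1 ⌊x⌋₊, (if n = 0 then (0:ℂ) else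
          a n * ((max (1 - (n:ℝ)/x) 0 : ℝ) : ℂ)) := by
      refine Finset.sum_congr rfl fun n hn => ?_
      rw [Finset.mem_Icc] at hn
      have h1 : n ≠ 0 := by omega
      rw [if_neg h1]
      have h2 : (n:ℝ) ≤ x := (Nat.le_floor_iff hx0.le).1 hn.2
      have h3 : (n:ℝ)/x ≤ 1 := by rw [div_le_one hx0]; exact h2
      rw [max_eq_left (by linarith)]
      push_cast
      rfl
    rw [e]
    apply hasSum_sum_of_ne_finset_zero
    intro n hn
    rw [Finset.mem_Icc] at hn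
    rcases eq_or_ne n 0 with rfl | h1
    · simp
    · rw [if_neg h1]
      have h2 : ⌊x⌋₊ < n := by
        by_contra h
        exact hn ⟨by omega, by omega⟩
      have h3 : x < n := (Nat.floor_lt hx0.le).1 h2
      have h4 : 1 ≤ (n:ℝ)/x := by rw [le_div_iff₀ hx0]; linarith
      rw [max_eq_right (by linarith)]
      simp
  have hHS2 := hHS.const_smul (1 / (2 * Real.pi) : ℝ)
  simp_rw [hint] at hHS2
  have heq := hsumfin.unique hHS2
  rw [heq]
  have htsum : ∀ y : ℝ, ∑' n, F n y = LSeries a ((σ:ℂ) + y * I) *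
      ((x:ℂ) ^ ((σ:ℂ) + y * I) * V y) := by
    intro y
    show ∑' n, LSeries.term a ((σ:ℂ) + y * I) n * _ = _
    rw [tsum_mul_right]
    rfl
  have hbound : ∀ y : ℝ, ‖∑' n, F n y‖ ≤ H * x ^ σ * gg y := by
    intro y
    rw [htsum, norm_mul, norm_mul, hxn]
    have h1 := hb ((σ:ℂ) + y * I) (by rw [hre]; exact hσ1) (by rw [hre]; exact hσ2)
    rw [him] at h1
    have h2 := vert hσ1.le y
    have hy := abs_nonneg y
    calc ‖LSeries a ((σ:ℂ) + y * I)‖ * (x ^ σ * ‖V y‖)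
        ≤ (H * (|y| + 3) ^ (1/2 : ℝ)) * (x ^ σ * (1 / (1 + y ^ 2))) := by
          apply mul_le_mul h1 _ (by positivity) (by positivity)
          exact mul_le_mul_of_nonneg_left h2 (by positivity)
      _ = H * x ^ σ * gg y := by unfold gg; ring
  have hpi := Real.pi_pos
  have hgg0 : 0 ≤ ∫ y, gg y := integral_nonneg fun y => by
    unfold gg
    have := abs_nonneg y
    positivity
  calc ‖(1 / (2 * Real.pi) : ℝ) • ∫ y, ∑' n, F n y‖
      ≤ (1 / (2 * Real.pi)) * ∫ y, H * x ^ σ * gg y := by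
        rw [norm_smul, Real.norm_of_nonneg (by positivity)]
        apply mul_le_mul_of_nonneg_left _ (by positivity)
        exact norm_integral_le_of_norm_le (gg_integrable.const_mul _)
          (Eventually.of_forall hbound)
    _ = Real.exp 1 * (1 / (2 * Real.pi)) * (∫ y, gg y) * H * x := by
        rw [integral_const_mul, hxσ]; ring
    _ ≤ (Real.exp 1 * (1 / (2 * Real.pi)) * (∫ y, gg y) + 1) * H * x := by
        have : 0 ≤ H * x := by positivity
        nlinarith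

end Pool.Agent.Lib.SW
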