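import Pool.Agent.Lib.SW.Defs

/-!
# From Riesz means with logarithmic weights to sharp sums

With a(n) = b(n) log(n)^j, j = 2k+1, A(N) = sum_{n<=N} a(n), S(N) = sum_{n<=N} a(n)(N-n):
S(N+1) = S(N) + A(N), |S(N)| <= H N^2, hence h A(N) = S(N+h) - S(N) + O(h^2 M), and the choice
h = N/(log N)^(k+1) gives |A(N)| <= C H N (log N)^(k+1). Then summation by parts.
-/

open Complex

namespace Pool.Agent.Lib.SW

namespace Unsmooth

lemma logpow_le (m : ℕ) {x : ℝ} (hx : 1 ≤ x) :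
    (Real.log x) ^ m ≤ 2 ^ m * (m.factorial : ℝ) * Real.sqrt x := by
  have hs : 1 ≤ Real.sqrt x := by
    rw [Real.one_le_sqrt]; exact hx
  have h0 : 0 ≤ Real.log (Real.sqrt x) := Real.log_nonneg hs
  have h1 := Real.pow_div_factorial_le_exp (Real.log (Real.sqrt x)) h0 m
  rw [Real.exp_log (by linarith)] at h1
  have h2 : Real.log x = 2 * Real.log (Real.sqrt x) := by
    rw [Real.log_sqrt (by linarith)]; ring
  rw [div_le_iff₀ (by positivity)] at h1
  rw [h2, mul_pow]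
  have : (0:ℝ) < 2 ^ m := by positivity
  nlinarith

lemma logpow_le' (m : ℕ) {x : ℝ} (hx : 1 ≤ x) :
    (Real.log x) ^ m ≤ 2 ^ m * (m.factorial : ℝ) * x := by
  refine (logpow_le m hx).trans ?_
  apply mul_le_mul_of_nonneg_left _ (by positivity)
  rw [Real.sqrt_le_left (by linarith)]
  nlinarith

lemma one_le_log {N : ℕ} (hN : 3 ≤ N) : 1 ≤ Real.log N := by
  have h3 : (3:ℝ) ≤ N := by exact_mod_cast hN
  rw [Real.le_log_iff_exp_le (by linarith)]
  have := Real.exp_one_lt_d9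
  linarith

/-- partial sums -/
noncomputable def PA (a : ℕ → ℂ) (N : ℕ) : ℂ := ∑ n ∈ Finset.Icc 1 N, a n

/-- sums of partial sums -/
noncomputable def PS (a : ℕ → ℂ) (N : ℕ) : ℂ := ∑ n ∈ Finset.Icc 1 N, a n * ((N:ℂ) - (n:ℂ))

lemma PA_succ (a : ℕ → ℂ) (N : ℕ) : PA a (N+1) = PA a N + a (N+1) := by
  unfold PA
  rw [Finset.sum_Icc_succ_top (by omega)]

lemma PS_succ (a : ℕ → ℂ) (N : ℕ) : PS a (N+1) = PS a N + PA a N := by
  unfold PS PA
  rw [Finset.sum_Icc_succ_top (by omega), ← Finset.sum_add_distrib]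
  simp only [sub_self, mul_zero, add_zero]
  apply Finset.sum_congr rfl
  intro n _
  push_cast
  ring

lemma PA_diff (a : ℕ → ℂ) (N h0 : ℕ) (M : ℝ) (hM : ∀ n, N < n → n ≤ N + h0 → ‖a n‖ ≤ M)
    (h : ℕ) (hh : h ≤ h0) : ‖PA a (N+h) - PA a N‖ ≤ h * M := by
  induction h with
  | zero => simp
  | succ h ih =>
    have e : PA a (N+(h+1)) - PA a N = (PA a (N+h) - PA a N) + a (N+h+1) := by
      rw [← add_assoc, PA_succ]; ring
    rw [e]
    refine (norm_add_le _ _).trans ?_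
    have h1 := ih (by omega)
    have h2 := hM (N+h+1) (by omega) (by omega)
    push_cast
    linarith

lemma PS_diff (a : ℕ → ℂ) (N h0 : ℕ) (M : ℝ) (hM0 : 0 ≤ M)
    (hM : ∀ n, N < n → n ≤ N + h0 → ‖a n‖ ≤ M)
    (h : ℕ) (hh : h ≤ h0) : ‖PS a (N+h) - PS a N - h * PA a N‖ ≤ (h:ℝ)^2 * M := by
  induction h with
  | zero => simp
  | succ h ih =>
    have e : PS a (N+(h+1)) - PS a N - ((h+1:ℕ):ℂ) * PA a N =
        (PS a (N+h) - PS a N - h * PA a N) + (PA a (N+h) - PA a N) := by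
      rw [← add_assoc, PS_succ]; push_cast; ring
    rw [e]
    refine (norm_add_le _ _).trans ?_
    have h1 := ih (by omega)
    have h2 := PA_diff a N h0 M hM h (by omega)
    push_cast
    have h3 : (0:ℝ) ≤ h := Nat.cast_nonneg _
    nlinarith

lemma PS_bound (a : ℕ → ℂ) (H : ℝ)
    (hR : ∀ x : ℝ, 3 ≤ x → ‖∑ n ∈ Finset.Icc 1 ⌊x⌋₊, a n * (1 - (n:ℂ) / (x:ℂ))‖ ≤ H * x)
    (N : ℕ) (hN : 3 ≤ N) : ‖PS a N‖ ≤ H * (N:ℝ)^2 := by
  have h3 : (3:ℝ) ≤ N := by exact_mod_cast hN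
  have h := hR N h3
  rw [Nat.floor_natCast] at h
  have hNc : (N:ℂ) ≠ 0 := by
    have : N ≠ 0 := by omega
    exact_mod_cast this
  have e : PS a N = (N:ℂ) * ∑ n ∈ Finset.Icc 1 N, a n * (1 - (n:ℂ) / ((N:ℝ):ℂ)) := by
    unfold PS
    rw [Finset.mul_sum]
    apply Finset.sum_congr rfl
    intro n _
    push_cast
    field_simp
  rw [e, norm_mul, Complex.norm_natCast]
  calc (N:ℝ) * _ ≤ (N:ℝ) * (H * N) := mul_le_mul_of_nonneg_left h (Nat.cast_nonneg _)
    _ = H * (N:ℝ)^2 := by ring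

lemma lg_norm_le (b : ℕ → ℂ) (j : ℕ) (hb : ∀ n, ‖b n‖ ≤ 1 + Real.log n) {n : ℕ} {y : ℝ}
    (hn : 1 ≤ n) (hy : (n:ℝ) ≤ y) :
    ‖lg b j n‖ ≤ (1 + Real.log y) * (Real.log y)^j := by
  have h1 : (1:ℝ) ≤ n := by exact_mod_cast hn
  have h2 : Real.log n ≤ Real.log y := Real.log_le_log (by linarith) hy
  have h3 : 0 ≤ Real.log n := Real.log_nonneg h1
  unfold lg
  rw [norm_mul, norm_pow, Complex.norm_real, Real.norm_of_nonneg h3]
  apply mul_le_mul
  · linarith [hb n]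
  · exact pow_le_pow_left₀ h3 h2 j
  · positivity
  · linarith

lemma PA_bound (k : ℕ) : ∃ C : ℝ, 1 ≤ C ∧ ∀ (b : ℕ → ℂ) (H : ℝ), 1 ≤ H →
    (∀ n, ‖b n‖ ≤ 1 + Real.log n) →
    (∀ x : ℝ, 3 ≤ x → ‖∑ n ∈ Finset.Icc 1 ⌊x⌋₊, lg b (2*k+1) n * (1 - (n:ℂ) / (x:ℂ))‖ ≤ H * x) →
    ∀ N : ℕ, 3 ≤ N → ‖PA (lg b (2*k+1)) N‖ ≤ C * H * (N * (Real.log N)^(k+1)) := by
  set c : ℝ := 2 ^ (k+1) * ((k+1).factorial : ℝ) with hc
  have hc0 : 0 < c := by positivity
  refine ⟨5 + 3 * (1 + c) * 2 ^ (2*k+1), ?_, ?_⟩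
  · have : 0 ≤ 3 * (1 + c) * 2 ^ (2*k+1) := by positivity
    linarith
  intro b H hH hb hR N hN
  set a := lg b (2*k+1) with ha
  set L := Real.log N with hL
  have hL1 : 1 ≤ L := one_le_log hN
  have hN3 : (3:ℝ) ≤ N := by exact_mod_cast hN
  have hN0 : (0:ℝ) < N := by linarith
  have hP : 0 < L ^ (k+1) := by positivity
  have hP1 : 1 ≤ L ^ (k+1) := one_le_pow₀ hL1
  set h := ⌈(N:ℝ) / L ^ (k+1)⌉₊ with hh
  have hhge : (N:ℝ) / L ^ (k+1) ≤ h := Nat.le_ceil _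
  have hhle : (h:ℝ) ≤ (N:ℝ) / L ^ (k+1) + 1 := (Nat.ceil_lt_add_one (by positivity)).le
  have hhN : h ≤ N := by
    apply Nat.ceil_le.mpr
    exact div_le_self hN0.le hP1
  have hhNr : (h:ℝ) ≤ N := by exact_mod_cast hhN
  have hhpos : (0:ℝ) < h := lt_of_lt_of_le (by positivity) hhge
  have hLc : L ^ (k+1) ≤ c * N := logpow_le' (k+1) (by linarith)
  have hhle2 : (h:ℝ) ≤ (1 + c) * ((N:ℝ) / L ^ (k+1)) := by
    have : 1 ≤ c * ((N:ℝ) / L ^ (k+1)) := by
      rw [← mul_div_assoc, le_div_iff₀ hP]; linarith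
    linarith
  -- the bound for the terms
  set M : ℝ := 3 * 2 ^ (2*k+1) * L ^ (2*k+2) with hM
  have hM0 : 0 ≤ M := by positivity
  have hterm : ∀ n, N < n → n ≤ N + h → ‖a n‖ ≤ M := by
    intro n hn1 hn2
    have hn3 : (n:ℝ) ≤ 2 * N := by
      have : (n:ℝ) ≤ N + h := by exact_mod_cast hn2
      linarith
    refine (lg_norm_le b (2*k+1) hb (by omega) hn3).trans ?_
    have hlog2 : Real.log (2 * N) = Real.log 2 + L := by
      rw [Real.log_mul (by norm_num) (by linarith)]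
    have hl2 : Real.log 2 ≤ 1 := by
      have := Real.log_two_lt_d9; linarith
    have hl2' : 0 ≤ Real.log 2 := Real.log_nonneg (by norm_num)
    rw [hlog2, hM]
    have e1 : 1 + (Real.log 2 + L) ≤ 3 * L := by linarith
    have e2 : (Real.log 2 + L) ^ (2*k+1) ≤ (2 * L) ^ (2*k+1) :=
      pow_le_pow_left₀ (by linarith) (by linarith) _
    calc (1 + (Real.log 2 + L)) * (Real.log 2 + L) ^ (2*k+1)
        ≤ (3 * L) * (2 * L) ^ (2*k+1) := by
          apply mul_le_mul e1 e2 _ (by linarith)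
          exact pow_nonneg (by linarith) _
      _ = 3 * 2 ^ (2*k+1) * L ^ (2*k+2) := by rw [mul_pow]; ring
  have hD := PS_diff a N h M hM0 hterm h le_rfl
  have hS1 := PS_bound a H hR N hN
  have hS2 := PS_bound a H hR (N+h) (by omega)
  have hkey : (h:ℝ) * ‖PA a N‖ ≤ 5 * H * (N:ℝ)^2 + (h:ℝ)^2 * M := by
    have e : (h:ℂ) * PA a N = PS a (N+h) - PS a N - (PS a (N+h) - PS a N - h * PA a N) := by ring
    have e2 : (h:ℝ) * ‖PA a N‖ = ‖(h:ℂ) * PA a N‖ := by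
      rw [norm_mul, Complex.norm_natCast]
    rw [e2, e]
    refine (norm_sub_le _ _).trans ?_
    have h4 : ‖PS a (N+h) - PS a N‖ ≤ H * ((N+h:ℕ):ℝ)^2 + H * (N:ℝ)^2 :=
      (norm_sub_le _ _).trans (add_le_add hS2 hS1)
    have h5 : ((N+h:ℕ):ℝ)^2 ≤ 4 * (N:ℝ)^2 := by
      push_cast
      nlinarith
    have h6 : H * ((N+h:ℕ):ℝ)^2 ≤ H * (4 * (N:ℝ)^2) := mul_le_mul_of_nonneg_left h5 (by linarith)
    linarith
  have hfin : ‖PA a N‖ ≤ 5 * H * (N:ℝ)^2 / h + h * M := by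
    rw [← mul_le_mul_iff_of_pos_left hhpos]
    refine hkey.trans (le_of_eq ?_)
    field_simp
  refine hfin.trans ?_
  have t1 : 5 * H * (N:ℝ)^2 / h ≤ 5 * H * (N * L ^ (k+1)) := by
    rw [div_le_iff₀ hhpos]
    have h7 : (N:ℝ) ≤ L ^ (k+1) * h := by
      rw [div_le_iff₀ hP] at hhge; linarith
    have h8 : (N:ℝ) * N ≤ N * (L ^ (k+1) * h) := mul_le_mul_of_nonneg_left h7 hN0.le
    have h9 : 5 * H * (N * N) ≤ 5 * H * (N * (L ^ (k+1) * h)) :=
      mul_le_mul_of_nonneg_left h8 (by linarith)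
    calc 5 * H * (N:ℝ)^2 = 5 * H * (N * N) := by ring
      _ ≤ 5 * H * (N * (L ^ (k+1) * h)) := h9
      _ = 5 * H * (N * L ^ (k+1)) * h := by ring
  have t2 : (h:ℝ) * M ≤ 3 * (1 + c) * 2 ^ (2*k+1) * (N * L ^ (k+1)) := by
    calc (h:ℝ) * M ≤ ((1 + c) * ((N:ℝ) / L ^ (k+1))) * M := mul_le_mul_of_nonneg_right hhle2 hM0
      _ = 3 * (1 + c) * 2 ^ (2*k+1) * (N * L ^ (k+1)) := by
        rw [hM]
        field_simp
        ring
  have t3 : 3 * (1 + c) * 2 ^ (2*k+1) * (N * L ^ (k+1)) ≤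
      3 * (1 + c) * 2 ^ (2*k+1) * H * (N * L ^ (k+1)) := by
    apply mul_le_mul_of_nonneg_right _ (by positivity)
    exact le_mul_of_one_le_right (by positivity) hH
  calc 5 * H * (N:ℝ)^2 / h + h * M
      ≤ 5 * H * (N * L ^ (k+1)) + 3 * (1 + c) * 2 ^ (2*k+1) * H * (N * L ^ (k+1)) := by linarith
    _ = (5 + 3 * (1 + c) * 2 ^ (2*k+1)) * H * (N * L ^ (k+1)) := by ring

lemma w_diff (j : ℕ) {n : ℕ} (hn : 3 ≤ n) :
    ((Real.log n)^j)⁻¹ - ((Real.log (n+1:ℕ))^j)⁻¹ ≤ j / (n * (Real.log n)^(j+1)) := by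
  have hn3 : (3:ℝ) ≤ n := by exact_mod_cast hn
  set u := Real.log n with hu
  set v := Real.log (n+1:ℕ) with hv
  have hu1 : 1 ≤ u := one_le_log hn
  have huv : u ≤ v := Real.log_le_log (by linarith) (by push_cast; linarith)
  have hvu : v - u ≤ 1 / n := by
    rw [hv, hu, ← Real.log_div (by positivity) (by positivity)]
    have h1 : (((n+1:ℕ):ℝ) / n) = 1 + 1/n := by
      push_cast; field_simp
    rw [h1]
    have := Real.log_le_sub_one_of_pos (show (0:ℝ) < 1 + 1/n by positivity)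
    linarith
  have hu0 : 0 < u := by linarith
  have hv0 : 0 < v := by linarith
  have hB := one_add_mul_le_pow (a := u / v - 1) (by
    have : 0 ≤ u / v := by positivity
    linarith) j
  have e1 : (v^j)⁻¹ = (u^j)⁻¹ * (u / v)^j := by
    rw [div_pow]; field_simp
  rw [e1]
  have hB' : 1 - (u/v)^j ≤ j * ((v - u)/v) := by
    have e2 : 1 + (u / v - 1) = u / v := by ring
    rw [e2] at hB
    have e3 : (v - u)/v = 1 - u/v := by field_simp
    rw [e3]
    linarith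
  have huj : 0 < (u^j)⁻¹ := by positivity
  calc (u^j)⁻¹ - (u^j)⁻¹ * (u / v)^j = (u^j)⁻¹ * (1 - (u/v)^j) := by ring
    _ ≤ (u^j)⁻¹ * (j * ((v - u)/v)) := mul_le_mul_of_nonneg_left hB' huj.le
    _ ≤ (u^j)⁻¹ * (j * ((1/n)/u)) := by
        apply mul_le_mul_of_nonneg_left _ huj.le
        apply mul_le_mul_of_nonneg_left _ (Nat.cast_nonneg _)
        apply div_le_div₀ (by positivity) hvu hu0 huv
    _ = j / (n * u^(j+1)) := by
        rw [pow_succ]; field_simp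

lemma sum_inv_log (k N : ℕ) (hN : 3 ≤ N) :
    ∑ n ∈ Finset.Ico 3 N, ((Real.log n)^(k+1))⁻¹ ≤
      (2 ^ (k+1) * ((k+1).factorial : ℝ) + 2 ^ (k+1)) * (N / (Real.log N)^(k+1)) := by
  have hN3 : (3:ℝ) ≤ N := by exact_mod_cast hN
  have hN0 : (0:ℝ) < N := by linarith
  set L := Real.log N with hL
  have hL1 : 1 ≤ L := one_le_log hN
  have hP : 0 < L ^ (k+1) := by positivity
  have hpt : ∀ n ∈ Finset.Ico 3 N, ((Real.log n)^(k+1))⁻¹ ≤
      (if n * n ≤ N then (1:ℝ) else 0) + 2 ^ (k+1) / L ^ (k+1) := by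
    intro n hn
    have hn3 : 3 ≤ n := (Finset.mem_Ico.mp hn).1
    have hn1 := one_le_log hn3
    have hn3r : (3:ℝ) ≤ n := by exact_mod_cast hn3
    split_ifs with hc
    · have : ((Real.log n)^(k+1))⁻¹ ≤ 1 := inv_le_one_of_one_le₀ (one_le_pow₀ hn1)
      have h2 : 0 ≤ 2 ^ (k+1) / L ^ (k+1) := by positivity
      linarith
    · have hc' : (N:ℝ) ≤ n * n := by
        have : N ≤ n * n := by omega
        exact_mod_cast this
      have hlog : L ≤ 2 * Real.log n := by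
        have := Real.log_le_log hN0 hc'
        rw [Real.log_mul (by linarith) (by linarith)] at this
        linarith
      have h3 : L ^ (k+1) ≤ 2 ^ (k+1) * (Real.log n) ^ (k+1) := by
        rw [← mul_pow]
        exact pow_le_pow_left₀ (by linarith) hlog _
      rw [zero_add, inv_eq_one_div, div_le_div_iff₀ (by positivity) hP]
      linarith
  refine (Finset.sum_le_sum hpt).trans ?_
  rw [Finset.sum_add_distrib, Finset.sum_const, nsmul_eq_mul]
  have h1 : ∑ n ∈ Finset.Ico 3 N, (if n * n ≤ N then (1:ℝ) else 0) ≤ Real.sqrt N := by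
    rw [← Finset.sum_filter, Finset.sum_const, nsmul_eq_mul, mul_one]
    have hsub : (Finset.Ico 3 N).filter (fun n => n * n ≤ N) ⊆ Finset.Icc 1 (Nat.sqrt N) := by
      intro n hn
      rw [Finset.mem_filter, Finset.mem_Ico] at hn
      rw [Finset.mem_Icc]
      refine ⟨by omega, Nat.le_sqrt.mpr hn.2⟩
    have hcard := Finset.card_le_card hsub
    rw [Nat.card_Icc] at hcard
    have h2 : (((Finset.Ico 3 N).filter (fun n => n * n ≤ N)).card : ℝ) ≤ (Nat.sqrt N : ℝ) := by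
      exact_mod_cast (by omega : ((Finset.Ico 3 N).filter (fun n => n * n ≤ N)).card ≤ Nat.sqrt N)
    exact h2.trans Real.nat_sqrt_le_real_sqrt
  have h2 : ((Finset.Ico 3 N).card : ℝ) ≤ N := by
    rw [Nat.card_Ico]
    have : N - 3 ≤ N := Nat.sub_le _ _
    exact_mod_cast this
  have h3 := logpow_le (k+1) (show (1:ℝ) ≤ N by linarith)
  have h4 : Real.sqrt N ≤ 2 ^ (k+1) * ((k+1).factorial : ℝ) * (N / L^(k+1)) := by
    rw [← mul_div_assoc, le_div_iff₀ hP]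
    calc Real.sqrt N * L ^ (k+1) ≤ Real.sqrt N * (2 ^ (k+1) * ((k+1).factorial : ℝ) *
          Real.sqrt N) := mul_le_mul_of_nonneg_left h3 (Real.sqrt_nonneg _)
      _ = 2 ^ (k+1) * ((k+1).factorial : ℝ) * (Real.sqrt N * Real.sqrt N) := by ring
      _ = 2 ^ (k+1) * ((k+1).factorial : ℝ) * N := by rw [Real.mul_self_sqrt hN0.le]
  have h5 : ((Finset.Ico 3 N).card : ℝ) * (2 ^ (k+1) / L ^ (k+1)) ≤
      2 ^ (k+1) * (N / L^(k+1)) := by
    calc ((Finset.Ico 3 N).card : ℝ) * (2 ^ (k+1) / L ^ (k+1))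
        ≤ N * (2 ^ (k+1) / L ^ (k+1)) := mul_le_mul_of_nonneg_right h2 (by positivity)
      _ = 2 ^ (k+1) * (N / L^(k+1)) := by ring
  calc _ ≤ Real.sqrt N + 2 ^ (k+1) * (N / L^(k+1)) := add_le_add h1 h5
    _ ≤ 2 ^ (k+1) * ((k+1).factorial : ℝ) * (N / L^(k+1)) + 2 ^ (k+1) * (N / L^(k+1)) := by
        linarith
    _ = _ := by ring

end Unsmooth

open Unsmooth

theorem unsmooth_nat (k : ℕ) : ∃ C : ℝ, 0 < C ∧ ∀ (b : ℕ → ℂ) (H : ℝ), 1 ≤ H →
    (∀ n, ‖b n‖ ≤ 1 + Real.log n) →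
    (∀ x : ℝ, 3 ≤ x → ‖∑ n ∈ Finset.Icc 1 ⌊x⌋₊, lg b (2*k+1) n * (1 - (n:ℂ) / (x:ℂ))‖ ≤ H * x) →
    ∀ N : ℕ, 3 ≤ N → ‖PA b N‖ ≤ C * H * (N / (Real.log N) ^ k) := by
  obtain ⟨C1, hC1, hA⟩ := PA_bound k
  set j := 2*k+1 with hj
  set c2 : ℝ := 2 ^ (k+1) * ((k+1).factorial : ℝ) + 2 ^ (k+1) with hc2
  set c3 : ℝ := 2 ^ k * (k.factorial : ℝ) with hc3
  have hc20 : 0 < c2 := by positivity
  have hc30 : 0 < c3 := by positivity
  refine ⟨(9 + 3 * 2 ^ (k+1) * C1) * c3 + C1 * j * c2 + C1, by positivity, ?_⟩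
  intro b H hH hb hR
  have hA' := hA b H hH hb hR
  set a := lg b j with ha
  -- the auxiliary quantity
  set w : ℕ → ℝ := fun n => ((Real.log n)^j)⁻¹ with hw
  set D : ℕ → ℂ := fun n => PA b n - PA a n * (w n : ℂ) with hD
  have hstep : ∀ n, 3 ≤ n → D (n+1) = D n + PA a n * ((w n - w (n+1) : ℝ) : ℂ) := by
    intro n hn
    have hl : 1 ≤ Real.log (n+1:ℕ) := one_le_log (by omega)
    have hne : ((Real.log (n+1:ℕ) : ℝ) : ℂ) ^ j ≠ 0 := by
      apply pow_ne_zero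
      rw [Complex.ofReal_ne_zero]
      linarith
    have hb1 : a (n+1) * (w (n+1) : ℂ) = b (n+1) := by
      simp only [ha, lg, hw]
      rw [Complex.ofReal_inv, Complex.ofReal_pow, mul_assoc, mul_inv_cancel₀ hne, mul_one]
    simp only [hD]
    rw [PA_succ, PA_succ, Complex.ofReal_sub, ← hb1]
    ring
  have hwnonneg : ∀ n, 3 ≤ n → 0 ≤ w n - w (n+1) := by
    intro n hn
    have h1 := one_le_log hn
    have hn3 : (3:ℝ) ≤ n := by exact_mod_cast hn
    have h2 : Real.log n ≤ Real.log (n+1:ℕ) :=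
      Real.log_le_log (by linarith) (by push_cast; linarith)
    simp only [hw]
    rw [sub_nonneg]
    apply inv_anti₀ (by positivity)
    exact pow_le_pow_left₀ (by linarith) h2 _
  have hbd : ∀ n, 3 ≤ n → ‖PA a n * ((w n - w (n+1) : ℝ) : ℂ)‖ ≤
      C1 * H * j * ((Real.log n)^(k+1))⁻¹ := by
    intro n hn
    have h1 := one_le_log hn
    have hn3 : (3:ℝ) ≤ n := by exact_mod_cast hn
    rw [norm_mul, Complex.norm_real, Real.norm_of_nonneg (hwnonneg n hn)]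
    calc ‖PA a n‖ * (w n - w (n+1))
        ≤ (C1 * H * (n * (Real.log n)^(k+1))) * (j / (n * (Real.log n)^(j+1))) := by
          apply mul_le_mul (hA' n hn) (w_diff j hn) (hwnonneg n hn)
          positivity
      _ = C1 * H * j * ((Real.log n)^(k+1))⁻¹ := by
          rw [hj]
          have hlne : Real.log n ≠ 0 := by linarith
          field_simp
          ring
  have hDN : ∀ N, 3 ≤ N → ‖D N‖ ≤ ‖D 3‖ + C1 * H * j *
      ∑ n ∈ Finset.Ico 3 N, ((Real.log n)^(k+1))⁻¹ := by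
    intro N hN
    induction N, hN using Nat.le_induction with
    | base => simp
    | succ n hn ih =>
      rw [hstep n hn, Finset.sum_Ico_succ_top hn, mul_add]
      refine (norm_add_le _ _).trans ?_
      have := hbd n hn
      linarith
  have hD3 : ‖D 3‖ ≤ 9 + 3 * 2 ^ (k+1) * C1 * H := by
    have hl3 : Real.log 3 ≤ 2 := by
      have := Real.log_le_sub_one_of_pos (show (0:ℝ) < 3 by norm_num)
      linarith
    have hl31 : 1 ≤ Real.log (3:ℕ) := one_le_log le_rfl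
    have hb3 : ‖PA b 3‖ ≤ 9 := by
      unfold PA
      refine (norm_sum_le _ _).trans ?_
      have : ∀ n ∈ Finset.Icc 1 3, ‖b n‖ ≤ 3 := by
        intro n hn
        rw [Finset.mem_Icc] at hn
        have h1 : (1:ℝ) ≤ n := by exact_mod_cast hn.1
        have h2 : (n:ℝ) ≤ 3 := by exact_mod_cast hn.2
        have h3 : Real.log n ≤ Real.log 3 := Real.log_le_log (by linarith) h2
        linarith [hb n]
      refine (Finset.sum_le_sum this).trans ?_
      simp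
      norm_num
    have hw3 : ‖((w 3 : ℝ) : ℂ)‖ ≤ 1 := by
      rw [Complex.norm_real, Real.norm_of_nonneg (by simp only [hw]; positivity)]
      simp only [hw]
      exact inv_le_one_of_one_le₀ (one_le_pow₀ hl31)
    have ha3 : ‖PA a 3‖ ≤ 3 * 2 ^ (k+1) * C1 * H := by
      refine (hA' 3 le_rfl).trans ?_
      have : (Real.log (3:ℕ))^(k+1) ≤ 2 ^ (k+1) := by
        apply pow_le_pow_left₀ (by linarith)
        exact_mod_cast hl3
      have h0 : 0 ≤ C1 * H := by positivity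
      have h4 : C1 * H * (((3:ℕ):ℝ) * (Real.log (3:ℕ))^(k+1)) ≤
          C1 * H * (((3:ℕ):ℝ) * 2 ^ (k+1)) := by
        apply mul_le_mul_of_nonneg_left _ h0
        apply mul_le_mul_of_nonneg_left this (by positivity)
      refine h4.trans (le_of_eq ?_)
      push_cast; ring
    simp only [hD]
    refine (norm_sub_le _ _).trans ?_
    rw [norm_mul]
    have : ‖PA a 3‖ * ‖((w 3 : ℝ) : ℂ)‖ ≤ ‖PA a 3‖ := mul_le_of_le_one_right (norm_nonneg _) hw3
    linarith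
  intro N hN
  have hN3 : (3:ℝ) ≤ N := by exact_mod_cast hN
  have hN0 : (0:ℝ) < N := by linarith
  set L := Real.log N with hL
  have hL1 : 1 ≤ L := one_le_log hN
  have e1 : PA b N = D N + PA a N * (w N : ℂ) := by simp only [hD]; ring
  have hlast : ‖PA a N * (w N : ℂ)‖ ≤ C1 * H * (N / L^k) := by
    rw [norm_mul, Complex.norm_real, Real.norm_of_nonneg (by simp only [hw]; positivity)]
    calc ‖PA a N‖ * w N ≤ (C1 * H * (N * L^(k+1))) * w N := by
          apply mul_le_mul_of_nonneg_right (hA' N hN)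
          simp only [hw]; positivity
      _ = C1 * H * (N / L^k) := by
          simp only [hw, ← hL]
          rw [hj]
          have hlne : L ≠ 0 := by linarith
          field_simp
          ring
  have hsum := sum_inv_log k N hN
  have hLk : (N:ℝ) / L^(k+1) ≤ N / L^k := by
    apply div_le_div_of_nonneg_left hN0.le (by positivity)
    exact pow_le_pow_right₀ hL1 (by omega)
  have h1 : 1 ≤ c3 * (N / L^k) := by
    rw [← mul_div_assoc, le_div_iff₀ (by positivity), one_mul]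
    exact logpow_le' k (by linarith)
  rw [e1]
  refine (norm_add_le _ _).trans ?_
  have hT : 0 ≤ N / L^k := by positivity
  have hsum' : C1 * H * j * ∑ n ∈ Finset.Ico 3 N, ((Real.log n)^(k+1))⁻¹ ≤
      C1 * H * j * (c2 * (N / L^k)) := by
    apply mul_le_mul_of_nonneg_left _ (by positivity)
    refine hsum.trans ?_
    exact mul_le_mul_of_nonneg_left hLk hc20.le
  have hconst : 9 + 3 * 2 ^ (k+1) * C1 * H ≤ (9 + 3 * 2 ^ (k+1) * C1) * H * (c3 * (N / L^k)) := by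
    have h0 : 9 + 3 * 2 ^ (k+1) * C1 * H ≤ (9 + 3 * 2 ^ (k+1) * C1) * H := by nlinarith
    refine h0.trans ?_
    apply le_mul_of_one_le_right (by positivity) h1
  have := hDN N hN
  calc ‖D N‖ + ‖PA a N * (w N : ℂ)‖
      ≤ ((9 + 3 * 2 ^ (k+1) * C1) * H * (c3 * (N / L^k)) + C1 * H * j * (c2 * (N / L^k))) +
        C1 * H * (N / L^k) := by linarith
    _ = ((9 + 3 * 2 ^ (k+1) * C1) * c3 + C1 * j * c2 + C1) * H * (N / L^k) := by ring

theorem unsmooth (k : ℕ) : ∃ C : ℝ, 0 < C ∧ ∀ (b : ℕ → ℂ) (H : ℝ), 1 ≤ H →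
    (∀ n, ‖b n‖ ≤ 1 + Real.log n) →
    (∀ x : ℝ, 3 ≤ x → ‖∑ n ∈ Finset.Icc 1 ⌊x⌋₊, lg b (2*k+1) n * (1 - (n:ℂ) / (x:ℂ))‖ ≤ H * x) →
    ∀ x : ℝ, 3 ≤ x → ‖∑ n ∈ Finset.Icc 1 ⌊x⌋₊, b n‖ ≤ C * H * x / (Real.log x) ^ k := by
  obtain ⟨C, hC, hU⟩ := unsmooth_nat k
  refine ⟨C * 2 ^ k, by positivity, ?_⟩
  intro b H hH hb hR x hx
  have hN : 3 ≤ ⌊x⌋₊ := Nat.le_floor (by exact_mod_cast hx)
  have h := hU b H hH hb hR ⌊x⌋₊ hN
  set N := ⌊x⌋₊ with hNdef
  have hN3 : (3:ℝ) ≤ N := by exact_mod_cast hN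
  have hNx : (N:ℝ) ≤ x := Nat.floor_le (by linarith)
  have hxN : x < N + 1 := Nat.lt_floor_add_one x
  have hL1 : 1 ≤ Real.log N := one_le_log hN
  have hLx : Real.log x ≤ 2 * Real.log N := by
    have h1 : x ≤ N * N := by nlinarith
    have h2 := Real.log_le_log (by linarith) h1
    rw [Real.log_mul (by linarith) (by linarith)] at h2
    linarith
  have hLx0 : 1 ≤ Real.log x := hL1.trans (Real.log_le_log (by linarith) hNx)
  have h3 : (Real.log x)^k ≤ 2 ^ k * (Real.log N)^k := by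
    rw [← mul_pow]; exact pow_le_pow_left₀ (by linarith) hLx _
  refine h.trans ?_
  have h4 : (N:ℝ) / (Real.log N)^k ≤ 2 ^ k * x / (Real.log x)^k := by
    rw [div_le_div_iff₀ (by positivity) (by positivity)]
    calc (N:ℝ) * (Real.log x)^k ≤ x * (2 ^ k * (Real.log N)^k) :=
          mul_le_mul hNx h3 (by positivity) (by linarith)
      _ = 2 ^ k * x * (Real.log N)^k := by ring
  calc C * H * ((N:ℝ) / (Real.log N)^k) ≤ C * H * (2 ^ k * x / (Real.log x)^k) :=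
        mul_le_mul_of_nonneg_left h4 (by positivity)
    _ = C * 2 ^ k * H * x / (Real.log x)^k := by ring

end Pool.Agent.Lib.SW
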