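import Pool.Agent.Lib.SW.Defs

/-!
# The 3-4-1 lower bound with explicit dependence

PROOF SKETCH. Mathlib: DirichletCharacter.norm_LSeries_product_ge_one. With
|L(χ_0, σ)| <= zeta(σ) <= σ/(σ-1) <= 2/(σ-1) it gives |L(χ,σ+it)| >= c ((σ-1)^3/K)^(1/4) for
1 < σ <= 2. Put eta = c1/(B^4 K), c1 small. For σ >= 1+eta this is >= c' /(B^3 K). For
σ < 1+eta use |L(χ,σ+it)| >= |L(χ,1+eta+it)| - (1+eta-σ) B (mean value inequality with
Lm_hasDerivAt, the derivative of Lm (chf χ) 0 is - Lm (chf χ) 1) and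
c (eta^3/K)^(1/4) - eta B = (c c1^(3/4) - c1)/(B^3 K).
(To avoid fourth roots: u = |L|, u^4 K 8/(σ-1)^3 >= 1.)
-/

open Complex

namespace Pool.Agent.Lib.SW

lemma l341_zeta_le {x : ℝ} (hx : 0 < x) (hx1 : x ≤ 1) :
    ∑' n : ℕ, 1 / (n + 1 : ℝ) ^ (1 + x) ≤ 2 / x := by
  have h := ZetaAsymptotics.zeta_limit_aux1 (s := 1 + x) (by linarith)
  have h2 : 0 ≤ ZetaAsymptotics.termTSum (1 + x) :=
    tsum_nonneg fun n => ZetaAsymptotics.term_nonneg _ _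
  have h3 : 1 + x - 1 = x := by ring
  rw [h3] at h
  have h4 : (2 : ℝ) / x = 1 / x + 1 / x := by ring
  have h5 : (1 : ℝ) ≤ 1 / x := by rw [le_div_iff₀ hx]; linarith
  have h6 : 0 ≤ (1 + x) * ZetaAsymptotics.termTSum (1 + x) := mul_nonneg (by linarith) h2
  linarith

lemma l341_triv {q : ℕ} (χ : DirichletCharacter ℂ q) {x : ℝ} (hx : 0 < x) (hx1 : x ≤ 1) :
    ‖LSeries (chf χ) (1 + x)‖ ≤ 2 / x := by
  refine le_trans ?_ (l341_zeta_le hx hx1)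
  have hs : 1 < ((1 : ℂ) + x).re := by simp [hx]
  have hsum : LSeriesSummable (chf χ) (1 + x) := by
    have := lg_summable (abscissa_chf χ) 0 hs
    rwa [lg_zero] at this
  have h1 : Summable fun n : ℕ => 1 / (n + 1 : ℝ) ^ (1 + x) := by
    have := (Real.summable_one_div_nat_rpow (p := 1 + x)).mpr (by linarith)
    have h2 := (summable_nat_add_iff 1).mpr this
    simpa using h2
  have h0 : ‖LSeries.term (chf χ) (1 + x) 0‖ = 0 := by simp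
  unfold LSeries
  refine (norm_tsum_le_tsum_norm hsum.norm).trans ?_
  rw [hsum.norm.tsum_eq_zero_add, h0, zero_add]
  refine ((summable_nat_add_iff 1).mpr hsum.norm).tsum_le_tsum (fun n => ?_) h1
  rw [LSeries.term_of_ne_zero (Nat.succ_ne_zero n), norm_div]
  have h3 : ‖((n + 1 : ℕ) : ℂ) ^ ((1 : ℂ) + x)‖ = (n + 1 : ℝ) ^ (1 + x) := by
    rw [Complex.norm_natCast_cpow_of_pos (Nat.succ_pos n)]
    simp
  rw [h3]
  gcongr
  exact norm_chf_le χ _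

lemma l341_fourth {q : ℕ} [NeZero q] (χ : DirichletCharacter ℂ q) {t K x : ℝ} (hK : 1 ≤ K)
    (hx : 0 < x) (hx1 : x ≤ 1)
    (h2 : ‖Lm (chf (χ ^ 2)) 0 ((1 + x : ℝ) + (2 * t : ℝ) * I)‖ ≤ K) :
    x ^ 3 / (8 * K) ≤ ‖Lm (chf χ) 0 ((1 + x : ℝ) + t * I)‖ ^ 4 := by
  have h := DirichletCharacter.norm_LSeries_product_ge_one χ hx t
  have e1 : (1 : ℂ) + x + I * t = ((1 + x : ℝ) : ℂ) + t * I := by push_cast; ring
  have e2 : (1 : ℂ) + x + 2 * I * t = ((1 + x : ℝ) : ℂ) + (2 * t : ℝ) * I := by push_cast; ring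
  rw [e1, e2] at h
  have ht := l341_triv (1 : DirichletCharacter ℂ q) hx hx1
  rw [norm_mul, norm_mul, norm_pow, norm_pow] at h
  rw [Lm_zero] at h2 ⊢
  change ‖LSeries (chf (1 : DirichletCharacter ℂ q)) (1 + x)‖ ^ 3 *
    ‖LSeries (chf χ) (((1 + x : ℝ) : ℂ) + t * I)‖ ^ 4 *
    ‖LSeries (chf (χ ^ 2)) (((1 + x : ℝ) : ℂ) + (2 * t : ℝ) * I)‖ ≥ 1 at h
  set A := ‖LSeries (chf (1 : DirichletCharacter ℂ q)) (1 + x)‖ with hA
  set U := ‖LSeries (chf χ) (((1 + x : ℝ) : ℂ) + t * I)‖ with hU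
  set V := ‖LSeries (chf (χ ^ 2)) (((1 + x : ℝ) : ℂ) + (2 * t : ℝ) * I)‖ with hV
  have hA0 : 0 ≤ A := norm_nonneg _
  have hU0 : 0 ≤ U := norm_nonneg _
  have hV0 : 0 ≤ V := norm_nonneg _
  have hA3 : A ^ 3 ≤ (2 / x) ^ 3 := by gcongr
  have h5 : A ^ 3 * U ^ 4 * V ≤ (2 / x) ^ 3 * U ^ 4 * K := by gcongr
  have h6 : 1 ≤ (2 / x) ^ 3 * U ^ 4 * K := le_trans h h5
  rw [div_le_iff₀ (by positivity)]
  have h7 : (2 / x) ^ 3 * U ^ 4 * K * x ^ 3 = U ^ 4 * (8 * K) := by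
    field_simp
    ring
  calc x ^ 3 = 1 * x ^ 3 := (one_mul _).symm
    _ ≤ (2 / x) ^ 3 * U ^ 4 * K * x ^ 3 := by gcongr
    _ = _ := h7

lemma l341_big {q : ℕ} [NeZero q] (χ : DirichletCharacter ℂ q) {t B K x : ℝ} (hB : 1 ≤ B)
    (hK : 1 ≤ K) (hx : 1 / 128 / (B ^ 4 * K) ≤ x) (hx1 : x ≤ 1)
    (h2 : ‖Lm (chf (χ ^ 2)) 0 ((1 + x : ℝ) + (2 * t : ℝ) * I)‖ ≤ K) :
    1 / 64 / (B ^ 3 * K) ≤ ‖Lm (chf χ) 0 ((1 + x : ℝ) + t * I)‖ := by
  have hη : 0 < 1 / 128 / (B ^ 4 * K) := by positivity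
  have hx0 : 0 < x := lt_of_lt_of_le hη hx
  have h := l341_fourth χ hK hx0 hx1 h2
  refine le_of_pow_le_pow_left₀ (n := 4) (by norm_num) (norm_nonneg _) (le_trans ?_ h)
  calc (1 / 64 / (B ^ 3 * K)) ^ 4 = (1 / 128 / (B ^ 4 * K)) ^ 3 / (8 * K) := by
        field_simp
        norm_num
    _ ≤ x ^ 3 / (8 * K) := by gcongr

theorem lower_341 : ∃ c : ℝ, 0 < c ∧ ∀ (q : ℕ) [NeZero q] (χ : DirichletCharacter ℂ q)
    (t B K : ℝ), 1 ≤ B → 1 ≤ K →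
    (∀ σ : ℝ, 1 < σ → σ ≤ 2 → ‖Lm (chf χ) 1 (σ + t * I)‖ ≤ B) →
    (∀ σ : ℝ, 1 < σ → σ ≤ 2 → ‖Lm (chf (χ ^ 2)) 0 (σ + (2 * t : ℝ) * I)‖ ≤ K) →
    ∀ σ : ℝ, 1 < σ → σ ≤ 2 → c / (B ^ 3 * K) ≤ ‖Lm (chf χ) 0 (σ + t * I)‖ := by
  refine ⟨1 / 128, by norm_num, ?_⟩
  intro q _ χ t B K hB hK hb hk σ hσ1 hσ2
  set η : ℝ := 1 / 128 / (B ^ 4 * K) with hη
  have hη0 : 0 < η := by positivity
  have hBK : 1 ≤ B ^ 4 * K := one_le_mul_of_one_le_of_one_le (one_le_pow₀ hB) hK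
  have hη1 : η ≤ 1 := by
    rw [hη, div_le_one (by positivity)]
    linarith
  have hBK3 : 0 < B ^ 3 * K := by positivity
  by_cases hcase : 1 + η ≤ σ
  · have h := l341_big χ (t := t) (x := σ - 1) hB hK (by linarith) (by linarith)
      (by rw [add_sub_cancel]; exact hk σ hσ1 hσ2)
    rw [add_sub_cancel] at h
    refine le_trans ?_ h
    gcongr
    norm_num
  · push Not at hcase
    have h := l341_big χ (t := t) (x := η) hB hK le_rfl hη1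
      (hk (1 + η) (by linarith) (by linarith))
    have hd : ∀ y ∈ Set.Icc σ (1 + η), HasDerivWithinAt
        (fun y : ℝ => Lm (chf χ) 0 (y + t * I)) (-(Lm (chf χ) 1 (y + t * I)))
        (Set.Icc σ (1 + η)) y := by
      intro y hy
      have hy1 : 1 < ((y : ℂ) + t * I).re := by
        simp
        linarith [hy.1]
      have h1 := Lm_hasDerivAt (abscissa_chf χ) 0 hy1
      exact ((h1.comp_add_const (y : ℂ) (t * I)).comp_ofReal).hasDerivWithinAt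
    have hmv := norm_image_sub_le_of_norm_deriv_le_segment' (C := B) hd
      (fun y hy => by
        rw [norm_neg]
        exact hb y (by linarith [hy.1]) (by linarith [hy.2]))
      (1 + η) ⟨hcase.le, le_rfl⟩
    have h3 : ‖Lm (chf χ) 0 ((1 + η : ℝ) + t * I)‖ - ‖Lm (chf χ) 0 (σ + t * I)‖ ≤
        B * (1 + η - σ) := (norm_sub_norm_le _ _).trans hmv
    have h4 : B * (1 + η - σ) ≤ B * η := by
      apply mul_le_mul_of_nonneg_left _ (by linarith)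
      linarith
    have h5 : B * η = 1 / 128 / (B ^ 3 * K) := by
      rw [hη]
      field_simp
    have h6 : 1 / 64 / (B ^ 3 * K) = 1 / 128 / (B ^ 3 * K) + 1 / 128 / (B ^ 3 * K) := by
      field_simp
      norm_num
    linarith

end Pool.Agent.Lib.SW
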