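import Pool.Agent.Lib.SW.Defs

/-!
# Upper bounds for the derivatives of the zeta function in 1 < Re s <= 2

With `g u = (log u)^m u^(-s)` and its explicit antiderivative `G` the sum over `N <= n < M` of
`g n` is `G M - G N` minus the sum of `G (n+1) - G n - g n`, and these differences are bounded by
the mean value inequality.
-/

open Complex Filter Topology

namespace Pool.Agent.Lib.SW

namespace ZU

/-- The function `(log u)^m u^(-s)`. -/
noncomputable def g (s : ℂ) (m : ℕ) (u : ℝ) : ℂ := ((Real.log u : ℝ) : ℂ) ^ m * (u : ℂ) ^ (-s)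

/-- An antiderivative of `g`. -/
noncomputable def G (s : ℂ) : ℕ → ℝ → ℂ
  | 0 => fun u => -((u : ℂ) ^ (1 - s)) / (s - 1)
  | (m+1) => fun u => -((u : ℂ) ^ (1 - s)) * ((Real.log u : ℝ) : ℂ) ^ (m+1) / (s - 1)
      + (m + 1) / (s - 1) * G s m u

lemma hasDerivAt_cpow {u : ℝ} (hu : 0 < u) (a : ℂ) :
    HasDerivAt (fun x : ℝ => (x : ℂ) ^ a) (a * (u : ℂ) ^ (a - 1)) u := by
  rcases eq_or_ne a 0 with rfl | ha
  · simpa using hasDerivAt_const u (1:ℂ)
  · exact hasDerivAt_ofReal_cpow_const hu.ne' ha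

lemma hasDerivAt_log {u : ℝ} (hu : 0 < u) :
    HasDerivAt (fun x : ℝ => ((Real.log x : ℝ) : ℂ)) ((u : ℂ)⁻¹) u := by
  have := (Real.hasDerivAt_log hu.ne').ofReal_comp
  simpa using this

lemma cpow_one_sub {u : ℝ} (hu : 0 < u) (s : ℂ) :
    (u : ℂ) ^ (1 - s) * (u : ℂ)⁻¹ = (u : ℂ) ^ (-s) := by
  have hu' : (u : ℂ) ≠ 0 := by exact_mod_cast hu.ne'
  rw [show (1 - s) = 1 + (-s) by ring, Complex.cpow_add _ _ hu', Complex.cpow_one]
  field_simp

lemma hasDerivAt_G {s : ℂ} (hs : s ≠ 1) (m : ℕ) {u : ℝ} (hu : 0 < u) :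
    HasDerivAt (G s m) (g s m u) u := by
  have hs' : s - 1 ≠ 0 := sub_ne_zero.mpr hs
  have h1 := hasDerivAt_cpow hu (1 - s)
  have e1 : (1 - s) - 1 = -s := by ring
  rw [e1] at h1
  induction m with
  | zero =>
    have h2 := (h1.neg).div_const (s - 1)
    refine h2.congr_deriv ?_
    simp only [g, pow_zero, one_mul]
    field_simp
    ring
  | succ m ih =>
    have h2 := ((h1.neg).mul ((hasDerivAt_log hu).pow (m+1))).div_const (s-1)
    have h3 := h2.add (ih.const_mul (((m:ℂ) + 1)/(s-1)))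
    refine h3.congr_deriv ?_
    simp only [g, Nat.add_sub_cancel, Pi.neg_apply, Pi.pow_apply]
    have e2 := cpow_one_sub hu s
    rw [← e2]
    push_cast
    field_simp
    ring

lemma norm_cpow {u : ℝ} (hu : 0 < u) (a : ℂ) : ‖(u : ℂ) ^ a‖ = u ^ a.re :=
  Complex.norm_cpow_eq_rpow_re_of_pos hu a

lemma G_bound (m : ℕ) : ∃ C : ℝ, 0 < C ∧ ∀ s : ℂ, 1 < s.re → ∀ u : ℝ, 1 ≤ u →
    ‖G s m u‖ ≤ C * u ^ (1 - s.re) * (Real.log u + 1/‖s - 1‖) ^ (m+1) := by
  induction m with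
  | zero =>
    refine ⟨1, one_pos, fun s hs u hu => ?_⟩
    have hu0 : 0 < u := by linarith
    have hl : 0 ≤ Real.log u := Real.log_nonneg hu
    have hp : 0 ≤ u ^ (1 - s.re) := Real.rpow_nonneg hu0.le _
    have hn : 0 ≤ 1/‖s-1‖ := by positivity
    simp only [G, norm_div, norm_neg, norm_cpow hu0, Complex.sub_re, Complex.one_re, zero_add,
      pow_one, one_mul]
    calc u ^ (1 - s.re) / ‖s - 1‖ = u ^ (1 - s.re) * (1/‖s-1‖) := by ring
      _ ≤ _ := by
        apply mul_le_mul_of_nonneg_left _ hp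
        linarith
  | succ m ih =>
    obtain ⟨C, hC, h⟩ := ih
    refine ⟨1 + (m+1) * C, by positivity, fun s hs u hu => ?_⟩
    have hu0 : 0 < u := by linarith
    have hl : 0 ≤ Real.log u := Real.log_nonneg hu
    have hp : 0 ≤ u ^ (1 - s.re) := Real.rpow_nonneg hu0.le _
    have hn : 0 ≤ 1/‖s-1‖ := by positivity
    have hb := h s hs u hu
    set X := Real.log u + 1/‖s - 1‖ with hX
    have hX0 : 0 ≤ X := by positivity
    have h1 : ‖-((u : ℂ) ^ (1 - s)) * ((Real.log u : ℝ) : ℂ) ^ (m+1) / (s - 1)‖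
        ≤ u ^ (1 - s.re) * X ^ (m+1+1) := by
      rw [norm_div, norm_mul, norm_neg, norm_cpow hu0, norm_pow, Complex.norm_real,
        Real.norm_of_nonneg hl, Complex.sub_re, Complex.one_re]
      calc u ^ (1 - s.re) * Real.log u ^ (m+1) / ‖s - 1‖
          = u ^ (1 - s.re) * (Real.log u ^ (m+1) * (1/ ‖s - 1‖)) := by ring
        _ ≤ u ^ (1 - s.re) * (X ^ (m+1) * X) := by
          apply mul_le_mul_of_nonneg_left _ hp
          apply mul_le_mul _ _ hn (by positivity)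
          · exact pow_le_pow_left₀ hl (by linarith) _
          · linarith
        _ = _ := by ring
    have h2 : ‖((m:ℂ) + 1) / (s - 1) * G s m u‖ ≤ (m+1) * C * (u ^ (1 - s.re) * X ^ (m+1+1)) := by
      have e : ‖((m:ℂ) + 1)‖ = m + 1 := by
        have : ((m:ℂ) + 1) = ((m + 1 : ℕ) : ℂ) := by push_cast; ring
        rw [this, Complex.norm_natCast]; push_cast; ring
      rw [norm_mul, norm_div, e]
      calc ((m:ℝ) + 1) / ‖s - 1‖ * ‖G s m u‖
          = ((m:ℝ) + 1) * ((1/‖s-1‖) * ‖G s m u‖) := by ring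
        _ ≤ ((m:ℝ) + 1) * (X * (C * u ^ (1 - s.re) * X ^ (m+1))) := by
          apply mul_le_mul_of_nonneg_left _ (by positivity)
          apply mul_le_mul _ hb (norm_nonneg _) hX0
          linarith
        _ = _ := by ring
    calc ‖G s (m+1) u‖ ≤ _ := norm_add_le _ _
      _ ≤ u ^ (1 - s.re) * X ^ (m+1+1) + (m+1) * C * (u ^ (1 - s.re) * X ^ (m+1+1)) :=
        add_le_add h1 h2
      _ = _ := by ring

lemma rpow_log_tendsto {r : ℝ} (hr : 0 < r) (k : ℕ) :
    Tendsto (fun u : ℝ => u ^ (-r) * Real.log u ^ k) atTop (𝓝 0) := by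
  have h := (isLittleO_log_rpow_rpow_atTop (k:ℝ) hr).tendsto_div_nhds_zero
  refine h.congr' ?_
  filter_upwards [eventually_gt_atTop (0:ℝ)] with u hu
  rw [Real.rpow_neg hu.le, Real.rpow_natCast]
  field_simp

lemma G_tendsto {s : ℂ} (hs : 1 < s.re) (m : ℕ) : Tendsto (G s m) atTop (𝓝 0) := by
  have hr : 0 < s.re - 1 := by linarith
  have key : ∀ k : ℕ, Tendsto (fun u : ℝ => ((u : ℂ) ^ (1 - s)) * ((Real.log u : ℝ) : ℂ) ^ k)
      atTop (𝓝 0) := by
    intro k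
    rw [tendsto_zero_iff_norm_tendsto_zero]
    refine (rpow_log_tendsto hr k).congr' ?_
    filter_upwards [eventually_ge_atTop (1:ℝ)] with u hu
    have hu0 : 0 < u := by linarith
    rw [norm_mul, norm_cpow hu0, norm_pow, Complex.norm_real,
      Real.norm_of_nonneg (Real.log_nonneg hu), Complex.sub_re, Complex.one_re]
    congr 2
    ring
  induction m with
  | zero =>
    have h := (key 0).div_const (s-1) |>.neg
    simp only [zero_div, neg_zero] at h
    refine h.congr fun u => ?_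
    simp only [G, pow_zero, mul_one]
    ring
  | succ m ih =>
    have h := ((key (m+1)).div_const (s-1)).neg.add (ih.const_mul (((m:ℂ) + 1)/(s-1)))
    simp only [zero_div, neg_zero, mul_zero, add_zero] at h
    refine h.congr fun u => ?_
    simp only [G]
    ring

lemma log_ge_one {u : ℝ} (hu : 3 ≤ u) : 1 ≤ Real.log u := by
  have h := Real.exp_one_lt_d9
  have h2 := Real.log_le_log (Real.exp_pos 1) (show Real.exp 1 ≤ u by linarith)
  rwa [Real.log_exp] at h2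

/-- the derivative of `g` -/
lemma hasDerivAt_g (s : ℂ) (m : ℕ) {u : ℝ} (hu : 0 < u) :
    HasDerivAt (g s m) ((m : ℂ) * ((Real.log u : ℝ) : ℂ) ^ (m-1) * (u:ℂ)⁻¹ * (u : ℂ) ^ (-s)
      + ((Real.log u : ℝ) : ℂ) ^ m * ((-s) * (u:ℂ) ^ (-s - 1))) u := by
  exact ((hasDerivAt_log hu).pow m).mul (hasDerivAt_cpow hu (-s))

lemma g_deriv_bound {s : ℂ} (hs : 1 < s.re) (m : ℕ) {n : ℝ} (hn : 3 ≤ n) {u : ℝ}
    (h1 : n ≤ u) (h2 : u ≤ n + 1) :
    ‖(m : ℂ) * ((Real.log u : ℝ) : ℂ) ^ (m-1) * (u:ℂ)⁻¹ * (u : ℂ) ^ (-s)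
      + ((Real.log u : ℝ) : ℂ) ^ m * ((-s) * (u:ℂ) ^ (-s - 1))‖
    ≤ (m + ‖s‖) * (Real.log (n+1) ^ m / n ^ 2) := by
  have hu0 : 0 < u := by linarith
  have hn0 : 0 < n := by linarith
  have hl1 : 1 ≤ Real.log u := log_ge_one (by linarith)
  have hl0 : 0 ≤ Real.log u := by linarith
  have hl2 : Real.log u ≤ Real.log (n+1) := Real.log_le_log hu0 h2
  have hpow : ∀ r : ℝ, 1 < r → u ^ (-(r+1)) ≤ 1 / n^2 := by
    intro r hr
    have e1 : u ^ (-(r+1)) ≤ u ^ (-(2:ℝ)) := Real.rpow_le_rpow_of_exponent_le (by linarith) (by linarith)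
    have e2 : u ^ (-(2:ℝ)) = 1 / u^2 := by
      rw [Real.rpow_neg hu0.le]; norm_num
    rw [e2] at e1
    refine e1.trans ?_
    apply one_div_le_one_div_of_le (by positivity)
    exact pow_le_pow_left₀ hn0.le h1 2
  have hA : ‖(u:ℂ)⁻¹ * (u : ℂ) ^ (-s)‖ ≤ 1/n^2 := by
    have : (u:ℂ)⁻¹ * (u : ℂ) ^ (-s) = (u:ℂ)^(-s-1) := by
      have hu' : (u : ℂ) ≠ 0 := by exact_mod_cast hu0.ne'
      rw [Complex.cpow_sub _ _ hu', Complex.cpow_one]
      field_simp
    rw [this, norm_cpow hu0]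
    have e : (-s-1).re = -(s.re + 1) := by simp; ring
    rw [e]
    exact hpow _ hs
  have hB : ‖(u:ℂ) ^ (-s-1)‖ ≤ 1/n^2 := by
    rw [norm_cpow hu0]
    have e : (-s-1).re = -(s.re + 1) := by simp; ring
    rw [e]
    exact hpow _ hs
  have hL1 : ‖((Real.log u : ℝ) : ℂ) ^ (m-1)‖ ≤ Real.log (n+1) ^ m := by
    rw [norm_pow, Complex.norm_real, Real.norm_of_nonneg hl0]
    calc Real.log u ^ (m-1) ≤ Real.log u ^ m := pow_le_pow_right₀ hl1 (Nat.sub_le _ _)
      _ ≤ _ := pow_le_pow_left₀ hl0 hl2 _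
  have hL2 : ‖((Real.log u : ℝ) : ℂ) ^ m‖ ≤ Real.log (n+1) ^ m := by
    rw [norm_pow, Complex.norm_real, Real.norm_of_nonneg hl0]
    exact pow_le_pow_left₀ hl0 hl2 _
  have hLn : 0 ≤ Real.log (n+1) ^ m := (norm_nonneg _).trans hL2
  have hin : (0:ℝ) ≤ 1/n^2 := by positivity
  refine (norm_add_le _ _).trans ?_
  have k1 : ‖(m : ℂ) * ((Real.log u : ℝ) : ℂ) ^ (m-1) * (u:ℂ)⁻¹ * (u : ℂ) ^ (-s)‖
      ≤ m * (Real.log (n+1) ^ m * (1/n^2)) := by
    rw [mul_assoc, mul_assoc, norm_mul, norm_mul, Complex.norm_natCast]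
    apply mul_le_mul_of_nonneg_left _ (Nat.cast_nonneg _)
    exact mul_le_mul hL1 hA (norm_nonneg _) hLn
  have k2 : ‖((Real.log u : ℝ) : ℂ) ^ m * ((-s) * (u:ℂ) ^ (-s - 1))‖
      ≤ ‖s‖ * (Real.log (n+1) ^ m * (1/n^2)) := by
    rw [norm_mul, norm_mul, norm_neg]
    calc ‖((Real.log u : ℝ) : ℂ) ^ m‖ * (‖s‖ * ‖(u:ℂ) ^ (-s - 1)‖)
        = ‖s‖ * (‖((Real.log u : ℝ) : ℂ) ^ m‖ * ‖(u:ℂ) ^ (-s - 1)‖) := by ring
      _ ≤ _ := by
        apply mul_le_mul_of_nonneg_left _ (norm_nonneg _)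
        exact mul_le_mul hL2 hB (norm_nonneg _) hLn
  calc _ ≤ m * (Real.log (n+1) ^ m * (1/n^2)) + ‖s‖ * (Real.log (n+1) ^ m * (1/n^2)) :=
        add_le_add k1 k2
    _ = _ := by ring

lemma step_bound {s : ℂ} (hs : 1 < s.re) (m : ℕ) {n : ℝ} (hn : 3 ≤ n) :
    ‖G s m (n+1) - G s m n - g s m n‖ ≤ (m + ‖s‖) * (Real.log (n+1) ^ m / n ^ 2) := by
  set B := (m + ‖s‖) * (Real.log (n+1) ^ m / n ^ 2) with hB
  have hB0 : 0 ≤ B := by
    have : 0 ≤ Real.log (n+1) := Real.log_nonneg (by linarith)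
    positivity
  have hs1 : s ≠ 1 := by
    rintro rfl
    simp at hs
  have hg : ∀ u ∈ Set.Icc n (n+1), ‖g s m u - g s m n‖ ≤ B := by
    intro u hu
    have := Convex.norm_image_sub_le_of_norm_hasDerivWithin_le (f := g s m)
      (f' := fun u => (m : ℂ) * ((Real.log u : ℝ) : ℂ) ^ (m-1) * (u:ℂ)⁻¹ * (u : ℂ) ^ (-s)
      + ((Real.log u : ℝ) : ℂ) ^ m * ((-s) * (u:ℂ) ^ (-s - 1))) (C := B) (s := Set.Icc n (n+1))
      (x := n) (y := u)
      (fun x hx => (hasDerivAt_g s m (by linarith [hx.1])).hasDerivWithinAt)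
      (fun x hx => g_deriv_bound hs m hn hx.1 hx.2) (convex_Icc _ _)
      ⟨le_refl _, by linarith⟩ hu
    refine this.trans ?_
    have : ‖u - n‖ ≤ 1 := by
      rw [Real.norm_eq_abs, abs_le]; constructor <;> linarith [hu.1, hu.2]
    nlinarith
  have := Convex.norm_image_sub_le_of_norm_hasDerivWithin_le
      (f := fun u : ℝ => G s m u - (u:ℂ) * g s m n)
      (f' := fun u => g s m u - g s m n) (C := B) (s := Set.Icc n (n+1))
      (x := n) (y := n+1)
      (fun x hx => by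
        have h1 := hasDerivAt_G hs1 m (u := x) (by linarith [hx.1])
        have h2 : HasDerivAt (fun u : ℝ => (u:ℂ) * g s m n) (1 * g s m n) x :=
          (Complex.ofRealCLM.hasDerivAt (x := x)).mul_const _
        have h3 := h1.sub h2
        rw [one_mul] at h3
        exact h3.hasDerivWithinAt)
      (fun x hx => hg x hx) (convex_Icc _ _)
      ⟨le_refl _, by linarith⟩ ⟨by linarith, le_refl _⟩
  have e : ‖n + 1 - n‖ = 1 := by simp
  rw [e, mul_one] at this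
  refine le_trans (le_of_eq ?_) this
  congr 1
  push_cast
  ring

lemma one_add_log_pow_le (m : ℕ) : ∃ K : ℝ, 0 < K ∧ ∀ x : ℝ, 1 ≤ x →
    (1 + Real.log x) ^ m ≤ K * Real.sqrt x := by
  refine ⟨(1 + 2*((m:ℝ)+1)) ^ (m+1), by positivity, fun x hx => ?_⟩
  have hx0 : 0 < x := by linarith
  have hl : 0 ≤ Real.log x := Real.log_nonneg hx
  set ε : ℝ := 1 / (2 * ((m:ℝ) + 1)) with hε
  have hε0 : 0 < ε := by positivity
  have h1 : Real.log x ≤ x ^ ε / ε := Real.log_le_rpow_div hx0.le hε0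
  have h2 : (1:ℝ) ≤ x ^ ε := Real.one_le_rpow hx hε0.le
  have h3 : 1 + Real.log x ≤ (1 + 2*((m:ℝ)+1)) * x ^ ε := by
    have e : x ^ ε / ε = 2*((m:ℝ)+1) * x ^ ε := by
      rw [hε]; field_simp
    rw [e] at h1
    linarith
  calc (1 + Real.log x) ^ m ≤ (1 + Real.log x) ^ (m+1) :=
        pow_le_pow_right₀ (by linarith) (Nat.le_succ _)
    _ ≤ ((1 + 2*((m:ℝ)+1)) * x ^ ε) ^ (m+1) := pow_le_pow_left₀ (by linarith) h3 _
    _ = (1 + 2*((m:ℝ)+1)) ^ (m+1) * Real.sqrt x := by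
      rw [mul_pow, Real.sqrt_eq_rpow, ← Real.rpow_mul_natCast hx0.le]
      congr 2
      rw [hε]
      push_cast
      field_simp

lemma sqrt_step {n : ℝ} (hn : 1 ≤ n) :
    Real.sqrt (n+1) / n^2 ≤ 8 * (1/Real.sqrt n - 1/Real.sqrt (n+1)) := by
  have hn0 : 0 < n := by linarith
  have a0 : 0 < Real.sqrt n := Real.sqrt_pos.mpr hn0
  have b0 : 0 < Real.sqrt (n+1) := Real.sqrt_pos.mpr (by linarith)
  have ha : Real.sqrt n ^ 2 = n := Real.sq_sqrt hn0.le
  have hb : Real.sqrt (n+1) ^ 2 = n + 1 := Real.sq_sqrt (by linarith)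
  set a := Real.sqrt n
  set b := Real.sqrt (n+1)
  have hab : a ≤ b := by
    apply Real.sqrt_le_sqrt
    linarith
  have e : 1/a - 1/b = 1/(a*b*(a+b)) := by
    rw [div_sub_div _ _ a0.ne' b0.ne', div_eq_div_iff (by positivity) (by positivity)]
    have : (b - a) * (b + a) = 1 := by nlinarith
    linear_combination (a*b) * this
  rw [e, show 8 * (1/(a*b*(a+b))) = 8 / (a*b*(a+b)) by ring, div_le_div_iff₀ (by positivity) (by positivity)]
  have h1 : b * (a * b * (a+b)) = (n+1) * (a * (a+b)) := by rw [← hb]; ring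
  rw [h1]
  have h2 : a * (a + b) ≤ 2 * (n+1) := by nlinarith
  have h3 : (n+1) * (a*(a+b)) ≤ (n+1) * (2 * (n+1)) := mul_le_mul_of_nonneg_left h2 (by linarith)
  nlinarith

lemma tail_sum (m : ℕ) : ∃ C : ℝ, 0 < C ∧ ∀ N : ℕ, 3 ≤ N → ∀ k : ℕ,
    ∑ i ∈ Finset.range k, Real.log (((N + i : ℕ) : ℝ) + 1) ^ m / ((N + i : ℕ) : ℝ) ^ 2
      ≤ C * (Real.log N ^ m / N) := by
  obtain ⟨K, hK, h⟩ := one_add_log_pow_le m
  refine ⟨8 * K, by positivity, fun N hN k => ?_⟩
  have hN3 : (3:ℝ) ≤ N := by exact_mod_cast hN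
  have hN0 : (0:ℝ) < N := by linarith
  have hlN : 1 ≤ Real.log N := log_ge_one hN3
  have hs0 : 0 < Real.sqrt N := Real.sqrt_pos.mpr hN0
  have hterm : ∀ i : ℕ, Real.log (((N + i : ℕ) : ℝ) + 1) ^ m / ((N + i : ℕ) : ℝ) ^ 2
      ≤ (K * Real.log N ^ m / Real.sqrt N) *
        (8 * (1/Real.sqrt ((N + i : ℕ) : ℝ) - 1/Real.sqrt ((N + (i+1) : ℕ) : ℝ))) := by
    intro i
    set n : ℝ := ((N + i : ℕ) : ℝ) with hn
    have hn1 : ((N + (i+1) : ℕ) : ℝ) = n + 1 := by rw [hn]; push_cast; ring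
    rw [hn1]
    have hnN : (N:ℝ) ≤ n := by rw [hn]; push_cast; linarith [Nat.cast_nonneg (α := ℝ) i]
    have hn0 : 0 < n := by linarith
    have hx1 : 1 ≤ (n+1)/N := by rw [le_div_iff₀ hN0]; linarith
    have hlog : Real.log (n+1) ≤ Real.log N * (1 + Real.log ((n+1)/N)) := by
      have e : Real.log (n+1) = Real.log N + Real.log ((n+1)/N) := by
        rw [Real.log_div (by positivity) hN0.ne']; ring
      have : 0 ≤ Real.log ((n+1)/N) := Real.log_nonneg hx1
      rw [e]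
      nlinarith
    have hl0 : 0 ≤ Real.log (n+1) := Real.log_nonneg (by linarith)
    have h1 : Real.log (n+1) ^ m ≤ Real.log N ^ m * (K * Real.sqrt ((n+1)/N)) := by
      calc Real.log (n+1) ^ m ≤ (Real.log N * (1 + Real.log ((n+1)/N))) ^ m :=
            pow_le_pow_left₀ hl0 hlog _
        _ = Real.log N ^ m * (1 + Real.log ((n+1)/N)) ^ m := by rw [mul_pow]
        _ ≤ _ := mul_le_mul_of_nonneg_left (h _ hx1) (by positivity)
    have h2 : Real.sqrt ((n+1)/N) = Real.sqrt (n+1) / Real.sqrt N := by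
      rw [Real.sqrt_div (by linarith)]
    calc Real.log (n+1) ^ m / n ^ 2
        ≤ (Real.log N ^ m * (K * Real.sqrt ((n+1)/N))) / n^2 := by
          apply div_le_div_of_nonneg_right h1 (by positivity)
      _ = (K * Real.log N ^ m / Real.sqrt N) * (Real.sqrt (n+1) / n^2) := by
          rw [h2]; field_simp
      _ ≤ _ := by
          apply mul_le_mul_of_nonneg_left (sqrt_step (by linarith))
          positivity
  calc _ ≤ ∑ i ∈ Finset.range k, (K * Real.log N ^ m / Real.sqrt N) *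
        (8 * (1/Real.sqrt ((N + i : ℕ) : ℝ) - 1/Real.sqrt ((N + (i+1) : ℕ) : ℝ))) :=
        Finset.sum_le_sum fun i _ => hterm i
    _ = (K * Real.log N ^ m / Real.sqrt N) * (8 * (1/Real.sqrt ((N + 0 : ℕ) : ℝ)
          - 1/Real.sqrt ((N + k : ℕ) : ℝ))) := by
        rw [← Finset.mul_sum, ← Finset.mul_sum,
          Finset.sum_range_sub' (fun i : ℕ => 1/Real.sqrt ((N + i : ℕ) : ℝ)) k]
    _ ≤ (K * Real.log N ^ m / Real.sqrt N) * (8 * (1/Real.sqrt N)) := by
        apply mul_le_mul_of_nonneg_left _ (by positivity)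
        have : 0 ≤ 1/Real.sqrt ((N + k : ℕ) : ℝ) := by positivity
        rw [Nat.add_zero]
        linarith
    _ = 8 * K * (Real.log N ^ m / (Real.sqrt N * Real.sqrt N)) := by
        field_simp
    _ = _ := by rw [Real.mul_self_sqrt hN0.le]

lemma term_eq (m : ℕ) (s : ℂ) {n : ℕ} (hn : n ≠ 0) :
    LSeries.term (lg (fun _ => 1) m) s n = g s m n := by
  rw [LSeries.term_of_ne_zero hn, lg, g]
  simp only [one_mul]
  rw [Complex.cpow_neg]
  norm_cast

lemma head_sum {s : ℂ} (hs : 1 < s.re) (m : ℕ) {N : ℕ} (hN : 3 ≤ N) :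
    ‖∑ n ∈ Finset.range N, LSeries.term (lg (fun _ => 1) m) s n‖
      ≤ Real.log N ^ m * (1 + Real.log N) := by
  have hN3 : (3:ℝ) ≤ N := by exact_mod_cast hN
  have hN0 : (0:ℝ) < N := by linarith
  have hl : 0 ≤ Real.log N := Real.log_nonneg (by linarith)
  obtain ⟨M, rfl⟩ : ∃ M, N = M + 1 := ⟨N - 1, by omega⟩
  rw [Finset.sum_range_succ']
  rw [LSeries.term_zero, add_zero]
  refine (norm_sum_le _ _).trans ?_
  have h1 : ∀ i ∈ Finset.range M, ‖LSeries.term (lg (fun _ => 1) m) s (i+1)‖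
      ≤ Real.log ((M+1 : ℕ) : ℝ) ^ m * (1/((i:ℝ)+1)) := by
    intro i hi
    have hi' : i < M := Finset.mem_range.mp hi
    have hpos : (0:ℝ) < (i:ℝ) + 1 := by positivity
    have hc : (((i+1 : ℕ)) : ℝ) = (i:ℝ) + 1 := by push_cast; ring
    rw [term_eq m s (by omega), g, norm_mul, norm_cpow (by rw [hc]; exact hpos), norm_pow,
      Complex.norm_real, hc, Real.norm_of_nonneg (Real.log_nonneg (by linarith [Nat.cast_nonneg (α := ℝ) i]))]
    apply mul_le_mul
    · apply pow_le_pow_left₀ (Real.log_nonneg (by linarith [Nat.cast_nonneg (α := ℝ) i]))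
      apply Real.log_le_log hpos
      have : ((i:ℝ)) + 1 ≤ ((M + 1 : ℕ) : ℝ) := by
        push_cast
        have : (i:ℝ) ≤ M := by exact_mod_cast hi'.le
        linarith
      exact this
    · have h1i : (1:ℝ) ≤ (i:ℝ) + 1 := by linarith [Nat.cast_nonneg (α := ℝ) i]
      calc ((i:ℝ)+1) ^ (-s).re ≤ ((i:ℝ)+1) ^ (-1:ℝ) := by
            apply Real.rpow_le_rpow_of_exponent_le h1i
            simp only [Complex.neg_re]
            linarith
        _ = _ := by rw [Real.rpow_neg hpos.le, Real.rpow_one, one_div]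
    · exact Real.rpow_nonneg hpos.le _
    · positivity
  refine (Finset.sum_le_sum h1).trans ?_
  rw [← Finset.mul_sum]
  apply mul_le_mul_of_nonneg_left _ (by positivity)
  have h2 := harmonic_le_one_add_log M
  have h3 : ((harmonic M : ℚ) : ℝ) = ∑ i ∈ Finset.range M, 1/((i:ℝ)+1) := by
    rw [harmonic]
    push_cast
    apply Finset.sum_congr rfl
    intro i _
    rw [one_div]
  rw [← h3]
  refine h2.trans ?_
  have : Real.log M ≤ Real.log ((M+1 : ℕ) : ℝ) := by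
    rcases Nat.eq_zero_or_pos M with h0 | h0
    · subst h0; simp
    · apply Real.log_le_log (by exact_mod_cast h0)
      push_cast; linarith
  linarith

lemma tail_bound {s : ℂ} (hs : 1 < s.re) (m : ℕ) {N : ℕ} (hN : 3 ≤ N) {C : ℝ}
    (hC : ∀ k : ℕ, ∑ i ∈ Finset.range k,
      Real.log (((N + i : ℕ) : ℝ) + 1) ^ m / ((N + i : ℕ) : ℝ) ^ 2 ≤ C) (k : ℕ) :
    ‖∑ i ∈ Finset.range k, LSeries.term (lg (fun _ => 1) m) s (N + i)‖
      ≤ ‖G s m ((N + k : ℕ) : ℝ)‖ + ‖G s m N‖ + (m + ‖s‖) * C := by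
  have hN3 : (3:ℝ) ≤ N := by exact_mod_cast hN
  have e1 : ∑ i ∈ Finset.range k, LSeries.term (lg (fun _ => 1) m) s (N + i)
      = (G s m ((N + k : ℕ) : ℝ) - G s m ((N + 0 : ℕ) : ℝ)) - ∑ i ∈ Finset.range k,
        (G s m ((N + (i+1) : ℕ) : ℝ) - G s m ((N + i : ℕ) : ℝ) - g s m ((N + i : ℕ) : ℝ)) := by
    rw [← Finset.sum_range_sub (fun i : ℕ => G s m ((N + i : ℕ) : ℝ)) k, ← Finset.sum_sub_distrib]
    apply Finset.sum_congr rfl
    intro i _
    rw [term_eq m s (by omega)]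
    ring
  rw [e1]
  have h2 : ‖∑ i ∈ Finset.range k,
        (G s m ((N + (i+1) : ℕ) : ℝ) - G s m ((N + i : ℕ) : ℝ) - g s m ((N + i : ℕ) : ℝ))‖
      ≤ (m + ‖s‖) * C := by
    refine (norm_sum_le _ _).trans ?_
    calc _ ≤ ∑ i ∈ Finset.range k, (m + ‖s‖) *
          (Real.log (((N + i : ℕ) : ℝ) + 1) ^ m / ((N + i : ℕ) : ℝ) ^ 2) := by
          apply Finset.sum_le_sum
          intro i _
          have hc : ((N + (i+1) : ℕ) : ℝ) = ((N + i : ℕ) : ℝ) + 1 := by push_cast; ring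
          rw [hc]
          apply step_bound hs m
          push_cast
          linarith [Nat.cast_nonneg (α := ℝ) i]
      _ = (m + ‖s‖) * ∑ i ∈ Finset.range k,
          (Real.log (((N + i : ℕ) : ℝ) + 1) ^ m / ((N + i : ℕ) : ℝ) ^ 2) := by
          rw [Finset.mul_sum]
      _ ≤ _ := by
          apply mul_le_mul_of_nonneg_left (hC k)
          positivity
  calc _ ≤ ‖G s m ((N + k : ℕ) : ℝ) - G s m ((N + 0 : ℕ) : ℝ)‖ + _ := norm_sub_le _ _
    _ ≤ (‖G s m ((N + k : ℕ) : ℝ)‖ + ‖G s m ((N + 0 : ℕ) : ℝ)‖) + (m + ‖s‖) * C :=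
      add_le_add (norm_sub_le _ _) h2
    _ = _ := by simp

end ZU

open ZU

theorem Lm_one_bound (m : ℕ) : ∃ C : ℝ, 0 < C ∧ ∀ s : ℂ, 1 < s.re → s.re ≤ 2 →
    ‖Lm (fun _ => 1) m s‖ ≤ C * (ell 1 s + 1/‖s - 1‖) ^ (m+1) := by
  obtain ⟨C1, hC1, hG⟩ := G_bound m
  obtain ⟨C2, hC2, hT⟩ := tail_sum m
  refine ⟨2^m * 3 + C1 * 2^(m+1) + (m+1) * C2 * 2^m, by positivity, fun s hs hs2 => ?_⟩
  set t := |s.im| with ht
  have ht0 : 0 ≤ t := abs_nonneg _
  set N : ℕ := ⌈t + 3⌉₊ with hN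
  have hN1 : t + 3 ≤ N := Nat.le_ceil _
  have hN2 : (N:ℝ) < t + 3 + 1 := Nat.ceil_lt_add_one (by linarith)
  have hN3 : 3 ≤ N := by
    have : (3:ℝ) ≤ N := by linarith
    exact_mod_cast this
  have hN3' : (3:ℝ) ≤ N := by exact_mod_cast hN3
  have hl1 : 1 ≤ ell 1 s := ell_ge le_rfl s
  have hlN1 : 1 ≤ Real.log N := log_ge_one hN3'
  have hlN : Real.log N ≤ 2 * ell 1 s := by
    have h1 : Real.log N ≤ Real.log (2 * (t + 3)) := Real.log_le_log (by linarith) (by linarith)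
    have h2 : Real.log (2 * (t + 3)) = Real.log 2 + ell 1 s := by
      rw [Real.log_mul (by norm_num) (by linarith), ell, one_mul]
    have h3 : Real.log 2 ≤ 1 := by
      have := Real.log_two_lt_d9
      linarith
    linarith
  have hss : ‖s‖ ≤ N := by
    calc ‖s‖ ≤ |s.re| + |s.im| := Complex.norm_le_abs_re_add_abs_im s
      _ ≤ 2 + t := by
        rw [abs_of_pos (by linarith)]
        linarith
      _ ≤ N := by linarith
  have hinv : 0 ≤ 1/‖s-1‖ := by positivity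
  set X := ell 1 s + 1/‖s - 1‖ with hX
  have hX1 : 1 ≤ X := by linarith
  have hX0 : 0 ≤ X := by linarith
  have hNX : Real.log N ≤ 2 * X := by linarith
  have hf : LSeries.abscissaOfAbsConv (fun _ : ℕ => (1:ℂ)) ≤ 1 := abscissa_le_one (by simp)
  have hsum : HasSum (LSeries.term (lg (fun _ => 1) m) s) (Lm (fun _ => 1) m s) :=
    (lg_summable hf m hs).hasSum
  have htend := hsum.tendsto_sum_nat
  have htend2 : Tendsto (fun k : ℕ => ∑ n ∈ Finset.range (N + k),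
      LSeries.term (lg (fun _ => 1) m) s n) atTop (𝓝 (Lm (fun _ => 1) m s)) := by
    refine htend.comp ?_
    exact tendsto_atTop_mono (fun k => Nat.le_add_left k N) tendsto_id
  have hGN : ‖G s m N‖ ≤ C1 * 2^(m+1) * X^(m+1) := by
    have h1 := hG s hs N (by linarith)
    have h2 : (N:ℝ) ^ (1 - s.re) ≤ 1 :=
      Real.rpow_le_one_of_one_le_of_nonpos (by linarith) (by linarith)
    have h3 : (Real.log N + 1/‖s-1‖) ≤ 2 * X := by linarith
    calc ‖G s m N‖ ≤ C1 * (N:ℝ) ^ (1 - s.re) * (Real.log N + 1/‖s - 1‖) ^ (m+1) := h1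
      _ ≤ C1 * 1 * (2 * X) ^ (m+1) := by
        apply mul_le_mul
        · exact mul_le_mul_of_nonneg_left h2 hC1.le
        · exact pow_le_pow_left₀ (by linarith) h3 _
        · positivity
        · linarith
      _ = _ := by rw [mul_pow]; ring
  have hlNm : Real.log N ^ m ≤ 2^m * X^m := by
    rw [← mul_pow]
    exact pow_le_pow_left₀ (by linarith) hNX _
  have hXm : X^m ≤ X^(m+1) := pow_le_pow_right₀ hX1 (Nat.le_succ _)
  have hXm0 : 0 ≤ X^m := by positivity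
  have hhead : ‖∑ n ∈ Finset.range N, LSeries.term (lg (fun _ => 1) m) s n‖
      ≤ 2^m * 3 * X^(m+1) := by
    refine (head_sum hs m hN3).trans ?_
    calc Real.log N ^ m * (1 + Real.log N) ≤ (2^m * X^m) * (3 * X) := by
          apply mul_le_mul hlNm (by linarith) (by linarith) (by positivity)
      _ = _ := by ring
  have htail : (m + ‖s‖) * (C2 * (Real.log N ^ m / N)) ≤ (m+1) * C2 * 2^m * X^(m+1) := by
    have hNpos : (0:ℝ) < N := by linarith
    have h1 : ((m:ℝ) + ‖s‖) ≤ (m+1) * N := by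
      have : (m:ℝ) ≤ m * N := by
        have : (0:ℝ) ≤ m := Nat.cast_nonneg _
        nlinarith
      linarith
    calc ((m:ℝ) + ‖s‖) * (C2 * (Real.log N ^ m / N))
        ≤ ((m+1) * N) * (C2 * (Real.log N ^ m / N)) := by
          apply mul_le_mul_of_nonneg_right h1 (by positivity)
      _ = (m+1) * C2 * Real.log N ^ m := by field_simp
      _ ≤ (m+1) * C2 * (2^m * X^(m+1)) := by
          apply mul_le_mul_of_nonneg_left _ (by positivity)
          refine hlNm.trans ?_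
          exact mul_le_mul_of_nonneg_left hXm (by positivity)
      _ = _ := by ring
  have hGtend : Tendsto (fun k : ℕ => ‖G s m ((N + k : ℕ) : ℝ)‖) atTop (𝓝 0) := by
    have h1 : Tendsto (fun k : ℕ => ((N + k : ℕ) : ℝ)) atTop atTop := by
      apply tendsto_natCast_atTop_atTop.comp
      exact tendsto_atTop_mono (fun k => Nat.le_add_left k N) tendsto_id
    have := ((G_tendsto hs m).comp h1).norm
    simpa using this
  have hlim : Tendsto (fun k : ℕ => 2^m * 3 * X^(m+1) + (‖G s m ((N + k : ℕ) : ℝ)‖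
      + C1 * 2^(m+1) * X^(m+1) + (m+1) * C2 * 2^m * X^(m+1))) atTop
      (𝓝 (2^m * 3 * X^(m+1) + (0
      + C1 * 2^(m+1) * X^(m+1) + (m+1) * C2 * 2^m * X^(m+1)))) := by
    apply Tendsto.const_add
    apply Tendsto.add_const
    exact hGtend.add_const _
  have hle : ∀ k : ℕ, ‖∑ n ∈ Finset.range (N + k), LSeries.term (lg (fun _ => 1) m) s n‖
      ≤ 2^m * 3 * X^(m+1) + (‖G s m ((N + k : ℕ) : ℝ)‖
      + C1 * 2^(m+1) * X^(m+1) + (m+1) * C2 * 2^m * X^(m+1)) := by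
    intro k
    rw [Finset.sum_range_add]
    refine (norm_add_le _ _).trans ?_
    apply add_le_add hhead
    refine (tail_bound hs m hN3 (hT N hN3) k).trans ?_
    linarith
  have := le_of_tendsto_of_tendsto htend2.norm hlim (Eventually.of_forall hle)
  calc _ ≤ _ := this
    _ = _ := by ring

end Pool.Agent.Lib.SW
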