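import Pool.Agent.Lib.SW.Recursion
import Pool.Agent.Lib.SW.ZetaUpper
import Pool.Agent.Lib.SW.Lower341

/-!
# The derivatives of ζ'/ζ + ζ are small in 1 < Re s <= 2

PROOF SKETCH. |t| >= 1: Lm_one_bound j gives |ζ_j(s)| <= C (ell+1)^(j+1); lower_341 with χ = 1 mod 1
(chf χ = fun _ => 1, note χ^2 = χ) gives |ζ(s)| >= c (ell+1)^(-7); F_bound_of with
D = C (|t|+3)^(ε/(2m+2)) bounds Lm (lam 1) m; Lm 1 m is bounded too.
|t| <= 1: let Z(s) = (s-1)ζ(s) extended by 1 at s = 1 (entire, Mathlib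
DirichletCharacter.LFunctionTrivChar₁ 1). On Re s >= 1 it does not vanish
(riemannZeta_ne_zero_of_one_le_re). For Re s > 1
Lm (lam 1) 0 s - Lm 1 0 s = - ζ'/ζ - ζ = - Z'/Z - dslope Z 1 =: h(s), and h is analytic on the open
set Z <> 0. So its m-th derivative is continuous there, hence bounded on the compact set
1 <= Re s <= 2, |Im s| <= 1; and for Re s > 1 the m-th derivative of the left side is
(-1)^m (Lm (lam 1) m - Lm 1 m) (Lm_hasDerivAt, induction; abscissa_lam, abscissa_le_one).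
-/

open Complex DirichletCharacter

namespace Pool.Agent.Lib.SW

private noncomputable def ZZ : ℂ → ℂ := LFunctionTrivChar₁ 1

private noncomputable def hh : ℂ → ℂ := fun s => - deriv ZZ s / ZZ s - dslope ZZ 1 s

private lemma ZZ_one : ZZ 1 = 1 := by simp [ZZ, LFunctionTrivChar₁]

private lemma ZZ_of_ne {s : ℂ} (hs : s ≠ 1) : ZZ s = (s - 1) * riemannZeta s := by
  simp [ZZ, LFunctionTrivChar₁, Function.update_of_ne hs, LFunctionTrivChar, LFunction_modOne_eq]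

private lemma ZZ_diff : Differentiable ℂ ZZ := differentiable_LFunctionTrivChar₁ 1

private lemma ZZ_ne {s : ℂ} (hs : 1 ≤ s.re) : ZZ s ≠ 0 := by
  by_cases h : s = 1
  · rw [h, ZZ_one]; exact one_ne_zero
  · rw [ZZ_of_ne h]
    exact mul_ne_zero (sub_ne_zero.2 h) (riemannZeta_ne_zero_of_one_le_re hs)

private lemma hh_an : AnalyticOnNhd ℂ hh {s | ZZ s ≠ 0} := by
  intro s hs
  have h1 : AnalyticAt ℂ ZZ s := ZZ_diff.analyticAt s
  have h2 : Differentiable ℂ (dslope ZZ 1) := by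
    rw [← differentiableOn_univ, Complex.differentiableOn_dslope Filter.univ_mem,
      differentiableOn_univ]
    exact ZZ_diff
  exact (h1.deriv.neg.div h1 hs).sub (h2.analyticAt s)

private lemma hh_eq {s : ℂ} (hs : 1 < s.re) :
    hh s = Lm (lam (fun _ => 1)) 0 s - Lm (fun _ => 1) 0 s := by
  have h1 : s ≠ 1 := by
    intro h; rw [h] at hs; simp at hs
  have h2 : riemannZeta s ≠ 0 := riemannZeta_ne_zero_of_one_le_re hs.le
  have h3 : s - 1 ≠ 0 := sub_ne_zero.2 h1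
  have e1 : Lm (lam (fun _ => 1)) 0 s = - deriv riemannZeta s / riemannZeta s := by
    rw [Lm_zero, ← ArithmeticFunction.LSeries_vonMangoldt_eq_deriv_riemannZeta_div hs]
    congr 1
    funext n
    simp [lam]
  have e2 : Lm (fun _ => 1) 0 s = riemannZeta s := by
    rw [Lm_zero]
    exact LSeries_one_eq_riemannZeta hs
  have e3 : deriv ZZ s = (s - 1) * deriv riemannZeta s + riemannZeta s := by
    have h := deriv_LFunctionTrivChar₁_apply_of_ne_one 1 h1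
    have h4 : LFunctionTrivChar 1 = riemannZeta := LFunction_modOne_eq
    rw [h4] at h
    exact h
  have e4 : dslope ZZ 1 s = ((s - 1) * riemannZeta s - 1) / (s - 1) := by
    rw [dslope_of_ne _ h1, slope_def_field, ZZ_one, ZZ_of_ne h1]
  rw [hh, e1, e2, e3, e4, ZZ_of_ne h1]
  field_simp
  ring

private lemma hh_iter (m : ℕ) : ∀ s : ℂ, 1 < s.re →
    deriv^[m] hh s = (-1) ^ m * (Lm (lam (fun _ => 1)) m s - Lm (fun _ => 1) m s) := by
  induction m with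
  | zero =>
    intro s hs
    rw [Function.iterate_zero, id, hh_eq hs, pow_zero, one_mul]
  | succ m ih =>
    intro s hs
    rw [Function.iterate_succ_apply']
    have hev : deriv^[m] hh =ᶠ[nhds s] fun s =>
        (-1) ^ m * (Lm (lam (fun _ => 1)) m s - Lm (fun _ => 1) m s) := by
      have hopen : IsOpen {s : ℂ | 1 < s.re} := isOpen_lt continuous_const continuous_re
      filter_upwards [hopen.mem_nhds hs] with z hz
      exact ih z hz
    rw [hev.deriv_eq]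
    have h1 := Lm_hasDerivAt (abscissa_lam (f := fun _ => 1) (by simp)) m hs
    have h2 := Lm_hasDerivAt (abscissa_le_one (f := fun _ => 1) (by simp)) m hs
    have h3 : HasDerivAt (fun s => (-1:ℂ) ^ m *
        (Lm (lam (fun _ => 1)) m s - Lm (fun _ => 1) m s))
        ((-1:ℂ) ^ m * (-(Lm (lam (fun _ => 1)) (m + 1) s) - -(Lm (fun _ => 1) (m + 1) s))) s :=
      (h1.sub h2).const_mul _
    rw [h3.deriv]
    ring

private lemma near_one (m : ℕ) : ∃ C : ℝ, 0 < C ∧ ∀ s : ℂ, 1 < s.re → s.re ≤ 2 → |s.im| ≤ 1 →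
    ‖Lm (lam (fun _ => 1)) m s - Lm (fun _ => 1) m s‖ ≤ C := by
  have hK : IsCompact (Set.Icc (1:ℝ) 2 ×ℂ Set.Icc (-1:ℝ) 1) :=
    isCompact_Icc.reProdIm isCompact_Icc
  have hc : ContinuousOn (deriv^[m] hh) (Set.Icc (1:ℝ) 2 ×ℂ Set.Icc (-1:ℝ) 1) :=
    (hh_an.iterated_deriv m).continuousOn.mono fun s hs => ZZ_ne hs.1.1
  obtain ⟨C, hC⟩ := hK.exists_bound_of_continuousOn hc
  refine ⟨max C 1, lt_max_of_lt_right one_pos, fun s h1 h2 h3 => ?_⟩
  have h4 := hC s ⟨⟨h1.le, h2⟩, abs_le.1 h3⟩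
  rw [hh_iter m s h1, norm_mul, norm_pow, norm_neg, norm_one, one_pow, one_mul] at h4
  exact h4.trans (le_max_left _ _)

private lemma log_pow_le' (n : ℕ) {δ : ℝ} (hδ : 0 < δ) :
    ∃ C : ℝ, 0 < C ∧ ∀ Q : ℝ, 1 ≤ Q → (Real.log Q) ^ n ≤ C * Q ^ δ := by
  set e : ℝ := δ / (n + 1) with he
  have he0 : 0 < e := by positivity
  refine ⟨(1 / e) ^ n, by positivity, fun Q hQ => ?_⟩
  have h1 : Real.log Q ≤ Q ^ e / e := Real.log_le_rpow_div (by linarith) he0
  have h2 : 0 ≤ Real.log Q := Real.log_nonneg hQ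
  calc (Real.log Q) ^ n ≤ (Q ^ e / e) ^ n := pow_le_pow_left₀ h2 h1 n
    _ = (1 / e) ^ n * (Q ^ e) ^ n := by rw [div_eq_mul_one_div, mul_pow, mul_comm]
    _ ≤ (1 / e) ^ n * Q ^ δ := by
        apply mul_le_mul_of_nonneg_left _ (by positivity)
        rw [← Real.rpow_natCast, ← Real.rpow_mul (by linarith)]
        apply Real.rpow_le_rpow_of_exponent_le hQ
        rw [he, div_mul_eq_mul_div, div_le_iff₀ (by positivity)]
        nlinarith

private lemma chf_one : chf (1 : DirichletCharacter ℂ 1) = fun _ => 1 := by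
  funext n
  unfold chf
  exact MulChar.one_apply (isUnit_of_subsingleton _)

private lemma ell_one_ge (s : ℂ) : 1 ≤ ell 1 s := ell_ge le_rfl s

/-- Away from the real axis everything is bounded by powers of the logarithm. -/
private lemma one_bound_far (j : ℕ) : ∃ C : ℝ, 0 < C ∧ ∀ s : ℂ, 1 < s.re → s.re ≤ 2 →
    1 ≤ |s.im| → ‖Lm (fun _ => 1) j s‖ ≤ C * (ell 1 s) ^ (j+1) := by
  obtain ⟨C, hC, hb⟩ := Lm_one_bound j
  refine ⟨C * 2 ^ (j+1), by positivity, fun s h1 h2 h3 => (hb s h1 h2).trans ?_⟩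
  have h4 : 1 / ‖s - 1‖ ≤ ell 1 s := by
    have h5 : 1 ≤ ‖s - 1‖ := by
      have := Complex.abs_im_le_norm (s - 1)
      rw [sub_im, one_im, sub_zero] at this
      exact h3.trans this
    have h6 : 1 / ‖s - 1‖ ≤ 1 := by
      rw [div_le_one (by linarith)]; exact h5
    exact h6.trans (ell_one_ge s)
  have h7 : 0 ≤ 1 / ‖s - 1‖ := by positivity
  have h8 := ell_one_ge s
  rw [mul_assoc, ← mul_pow]
  apply mul_le_mul_of_nonneg_left _ hC.le
  apply pow_le_pow_left₀ (by linarith)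
  linarith

private lemma lower_far : ∃ c : ℝ, 0 < c ∧ ∀ s : ℂ, 1 < s.re → s.re ≤ 2 →
    1 ≤ |s.im| → c / (ell 1 s) ^ 7 ≤ ‖Lm (fun _ => 1) 0 s‖ := by
  obtain ⟨C0, hC0, hb0⟩ := one_bound_far 0
  obtain ⟨C1, hC1, hb1⟩ := one_bound_far 1
  obtain ⟨c3, hc3, h341⟩ := lower_341
  refine ⟨c3 / ((C1 + 1) ^ 3 * (2 * C0 + 1)), by positivity, fun s h1 h2 h3 => ?_⟩
  set t : ℝ := s.im with ht
  set l : ℝ := ell 1 s with hl
  have hl1 : 1 ≤ l := ell_one_ge s
  have hsq : (1 : DirichletCharacter ℂ 1) ^ 2 = 1 := one_pow 2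
  have hB : ∀ σ : ℝ, 1 < σ → σ ≤ 2 →
      ‖Lm (chf (1 : DirichletCharacter ℂ 1)) 1 (σ + t * I)‖ ≤ (C1 + 1) * l ^ 2 := by
    intro σ h4 h5
    rw [chf_one]
    have h6 := hb1 (σ + t * I) (by simpa using h4) (by simpa using h5) (by simpa using h3)
    have h7 : ell 1 ((σ:ℂ) + t * I) = l := by
      rw [hl]
      unfold ell
      simp [ht]
    rw [h7] at h6
    refine h6.trans ?_
    calc C1 * l ^ (1 + 1) = C1 * l ^ 2 := by norm_num
      _ ≤ (C1 + 1) * l ^ 2 := mul_le_mul_of_nonneg_right (by linarith) (by positivity)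
  have hB1 : 1 ≤ (C1 + 1) * l ^ 2 :=
    one_le_mul_of_one_le_of_one_le (by linarith) (one_le_pow₀ hl1)
  have hK : ∀ σ : ℝ, 1 < σ → σ ≤ 2 →
      ‖Lm (chf ((1 : DirichletCharacter ℂ 1) ^ 2)) 0 (σ + (2 * t : ℝ) * I)‖ ≤
        (2 * C0 + 1) * l := by
    intro σ h4 h5
    rw [hsq, chf_one]
    have h9 : |2 * t| = 2 * |t| := by rw [abs_mul, abs_of_pos (by norm_num : (0:ℝ) < 2)]
    have h6 := hb0 (σ + (2 * t : ℝ) * I) (by simpa using h4) (by simpa using h5) (by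
      have h8 : ((σ:ℂ) + (2 * t : ℝ) * I).im = 2 * t := by simp
      rw [h8, h9]
      linarith)
    have h7 : ell 1 ((σ:ℂ) + (2 * t : ℝ) * I) ≤ 2 * l := by
      rw [hl]
      unfold ell
      have h8 : ((σ:ℂ) + (2 * t : ℝ) * I).im = 2 * t := by simp
      rw [h8, h9, ← ht, one_mul, one_mul]
      have h10 : 2 * |t| + 3 ≤ (|t| + 3) ^ 2 := by nlinarith [abs_nonneg t]
      calc Real.log (2 * |t| + 3) ≤ Real.log ((|t| + 3) ^ 2) :=
            Real.log_le_log (by positivity) h10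
        _ = 2 * Real.log (|t| + 3) := by rw [Real.log_pow]; push_cast; rfl
    rw [zero_add, pow_one] at h6
    refine h6.trans ?_
    calc C0 * ell 1 ((σ:ℂ) + (2 * t : ℝ) * I) ≤ C0 * (2 * l) :=
          mul_le_mul_of_nonneg_left h7 hC0.le
      _ = 2 * C0 * l := by ring
      _ ≤ (2 * C0 + 1) * l := mul_le_mul_of_nonneg_right (by linarith) (by linarith)
  have hK1 : 1 ≤ (2 * C0 + 1) * l := one_le_mul_of_one_le_of_one_le (by linarith) hl1
  have h4 := h341 1 1 t _ _ hB1 hK1 hB hK s.re h1 h2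
  have hs : (s.re : ℂ) + (t : ℂ) * I = s := re_add_im s
  rw [hs, chf_one] at h4
  refine le_trans (le_of_eq ?_) h4
  have e : ((C1 + 1) * l ^ 2) ^ 3 * ((2 * C0 + 1) * l) =
      ((C1 + 1) ^ 3 * (2 * C0 + 1)) * l ^ 7 := by ring
  rw [e, div_div]

private lemma far (m : ℕ) {ε : ℝ} (hε : 0 < ε) : ∃ C : ℝ, 0 < C ∧ ∀ s : ℂ, 1 < s.re →
    s.re ≤ 2 → 1 ≤ |s.im| →
    ‖Lm (lam (fun _ => 1)) m s - Lm (fun _ => 1) m s‖ ≤ C * (|s.im| + 3) ^ ε := by
  obtain ⟨c, hc, hlow⟩ := lower_far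
  choose Cb hCb hb using one_bound_far
  obtain ⟨CF, hCF, hF⟩ := F_bound_of m
  set N : ℕ := m + 9 with hN
  set A : ℝ := 1 + 1 / c + ∑ j ∈ Finset.range (m+2), Cb j with hA
  have hsum0 : 0 ≤ ∑ j ∈ Finset.range (m+2), Cb j := Finset.sum_nonneg fun j _ => (hCb j).le
  have hc1 : 0 < 1 / c := by positivity
  have hA1 : 1 ≤ A := by linarith
  obtain ⟨Cl, hCl, hlog⟩ := log_pow_le' (N * (2*m+2)) hε
  obtain ⟨Cl', hCl', hlog'⟩ := log_pow_le' (m+1) hε
  refine ⟨CF * A ^ (2*m+2) * Cl + Cb m * Cl', by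
    have := hCb m
    positivity, fun s h1 h2 h3 => ?_⟩
  set l : ℝ := ell 1 s with hl
  have hl1 : 1 ≤ l := ell_one_ge s
  have hle : l = Real.log (|s.im| + 3) := by rw [hl]; unfold ell; rw [one_mul]
  have hQ1 : 1 ≤ |s.im| + 3 := by linarith
  have hD1 : 1 ≤ A * l ^ N := one_le_mul_of_one_le_of_one_le hA1 (one_le_pow₀ hl1)
  have hbd : ∀ j ≤ m+1, ‖Lm (chf (1 : DirichletCharacter ℂ 1)) j s‖ ≤ A * l ^ N := by
    intro j hj
    rw [chf_one]
    refine (hb j s h1 h2 h3).trans ?_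
    have h4 : Cb j ≤ A := by
      have h5 : Cb j ≤ ∑ j ∈ Finset.range (m+2), Cb j :=
        Finset.single_le_sum (f := Cb) (fun i _ => (hCb i).le) (Finset.mem_range.2 (by omega))
      linarith
    have h5 : l ^ (j+1) ≤ l ^ N := pow_le_pow_right₀ hl1 (by omega)
    exact mul_le_mul h4 h5 (by positivity) (by linarith)
  have hinv : (A * l ^ N)⁻¹ ≤ ‖Lm (chf (1 : DirichletCharacter ℂ 1)) 0 s‖ := by
    rw [chf_one]
    refine le_trans ?_ (hlow s h1 h2 h3)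
    have h4 : (1/c) * l ^ 7 ≤ A * l ^ N := by
      have h5 : 1 / c ≤ A := by linarith
      have h6 : l ^ 7 ≤ l ^ N := pow_le_pow_right₀ hl1 (by omega)
      exact mul_le_mul h5 h6 (by positivity) (by linarith)
    have h5 : c / l ^ 7 = ((1/c) * l ^ 7)⁻¹ := by field_simp
    rw [h5]
    exact inv_anti₀ (by positivity) h4
  have h4 := hF 1 1 s (A * l ^ N) hD1 h1 hbd hinv
  rw [chf_one] at h4
  have h5 : (A * l ^ N) ^ (2*m+2) ≤ A ^ (2*m+2) * (Cl * (|s.im| + 3) ^ ε) := by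
    rw [mul_pow, ← pow_mul]
    apply mul_le_mul_of_nonneg_left _ (by positivity)
    rw [hle]
    exact hlog _ hQ1
  have h6 : ‖Lm (fun _ => 1) m s‖ ≤ Cb m * (Cl' * (|s.im| + 3) ^ ε) := by
    refine (hb m s h1 h2 h3).trans (mul_le_mul_of_nonneg_left ?_ (hCb m).le)
    have : ell 1 s = Real.log (|s.im| + 3) := hle
    rw [this]
    exact hlog' _ hQ1
  calc ‖Lm (lam (fun _ => 1)) m s - Lm (fun _ => 1) m s‖
      ≤ ‖Lm (lam (fun _ => 1)) m s‖ + ‖Lm (fun _ => 1) m s‖ := norm_sub_le _ _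
    _ ≤ CF * (A ^ (2*m+2) * (Cl * (|s.im| + 3) ^ ε)) + Cb m * (Cl' * (|s.im| + 3) ^ ε) :=
        add_le_add (h4.trans (mul_le_mul_of_nonneg_left h5 hCF.le)) h6
    _ = (CF * A ^ (2*m+2) * Cl + Cb m * Cl') * (|s.im| + 3) ^ ε := by ring

theorem zeta_F_bound (m : ℕ) (ε : ℝ) (hε : 0 < ε) : ∃ C : ℝ, 0 < C ∧
    ∀ s : ℂ, 1 < s.re → s.re ≤ 2 →
    ‖Lm (lam (fun _ => 1)) m s - Lm (fun _ => 1) m s‖ ≤ C * (|s.im| + 3) ^ ε := by
  obtain ⟨C1, hC1, h1⟩ := near_one m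
  obtain ⟨C2, hC2, h2⟩ := far m hε
  refine ⟨C1 + C2, by linarith, fun s hs1 hs2 => ?_⟩
  have h3 : 1 ≤ (|s.im| + 3) ^ ε :=
    Real.one_le_rpow (by have := abs_nonneg s.im; linarith) hε.le
  by_cases h : |s.im| ≤ 1
  · calc _ ≤ C1 := h1 s hs1 hs2 h
      _ ≤ C1 * (|s.im| + 3) ^ ε := le_mul_of_one_le_right hC1.le h3
      _ ≤ (C1 + C2) * (|s.im| + 3) ^ ε := mul_le_mul_of_nonneg_right (by linarith) (by linarith)
  · push Not at h
    calc _ ≤ C2 * (|s.im| + 3) ^ ε := h2 s hs1 hs2 h.le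
      _ ≤ (C1 + C2) * (|s.im| + 3) ^ ε := mul_le_mul_of_nonneg_right (by linarith) (by linarith)

end Pool.Agent.Lib.SW
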