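import Pool.Agent.Lib.SW.FBound
import Pool.Agent.Lib.SW.ZetaF
import Pool.Agent.Lib.SW.Riesz
import Pool.Agent.Lib.SW.Unsmooth

/-!
# Character sums over von Mangoldt and the prime number theorem with error x/(log x)^k

riesz_bound with a = lg (lam (chf χ)) (2k+1) (so LSeries a = Lm (lam (chf χ)) (2k+1)), bound
F_bound (2k+1) (min ε (1/2)); then unsmooth with b = lam (chf χ) (|Λ(n)| <= log n).
psi_bound: the same with b(n) = Λ(n) - 1, zeta_F_bound, and floor x - x bounded by 1.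
-/

open Complex

namespace Pool.Agent.Lib.SW

lemma lam_norm_le {f : ℕ → ℂ} (hf : ∀ n, ‖f n‖ ≤ 1) (n : ℕ) : ‖lam f n‖ ≤ Real.log n := by
  have h1 : ‖lam f n‖ ≤ ArithmeticFunction.vonMangoldt n := by
    rw [lam, norm_mul, Complex.norm_real, Real.norm_eq_abs,
      abs_of_nonneg ArithmeticFunction.vonMangoldt_nonneg]
    calc ‖f n‖ * ArithmeticFunction.vonMangoldt n ≤ 1 * ArithmeticFunction.vonMangoldt n :=
          mul_le_mul_of_nonneg_right (hf n) ArithmeticFunction.vonMangoldt_nonneg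
      _ = _ := one_mul _
  exact h1.trans ArithmeticFunction.vonMangoldt_le_log

theorem psi_chi_bound (k : ℕ) (ε : ℝ) (hε : 0 < ε) : ∃ C : ℝ, 0 < C ∧ ∀ (q : ℕ) [NeZero q]
    (χ : DirichletCharacter ℂ q), χ ≠ 1 → ∀ x : ℝ, 3 ≤ x →
    ‖∑ n ∈ Finset.Icc 1 ⌊x⌋₊, lam (chf χ) n‖ ≤ C * (q:ℝ) ^ ε * x / (Real.log x) ^ k := by
  set ε' : ℝ := min ε (1 / 2) with hε'
  have hε'0 : 0 < ε' := lt_min hε (by norm_num)
  have hε'1 : ε' ≤ 1 / 2 := min_le_right _ _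
  have hε'2 : ε' ≤ ε := min_le_left _ _
  obtain ⟨CF, hCF, hF⟩ := F_bound (2 * k + 1) ε' hε'0
  obtain ⟨CR, hCR, hR⟩ := riesz_bound
  obtain ⟨CU, hCU, hU⟩ := unsmooth k
  refine ⟨CU * (1 + CR * CF), by positivity, fun q _ χ hχ x hx => ?_⟩
  have hq : (1 : ℝ) ≤ q := by exact_mod_cast Nat.one_le_iff_ne_zero.2 (NeZero.ne q)
  have hq0 : (0 : ℝ) ≤ q := by linarith
  have hqε' : 0 < (q : ℝ) ^ ε' := Real.rpow_pos_of_pos (by linarith) _
  have hlog : 0 < Real.log x := Real.log_pos (by linarith)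
  have hs : ∀ s : ℂ, 1 < s.re → s.re ≤ 2 →
      ‖LSeries (lg (lam (chf χ)) (2 * k + 1)) s‖ ≤ (CF * (q : ℝ) ^ ε') * (|s.im| + 3) ^ (1/2 : ℝ) := by
    intro s h1 h2
    have h3 : (0 : ℝ) ≤ |s.im| := abs_nonneg _
    refine (hF q χ hχ s h1 h2).trans ?_
    rw [Real.mul_rpow hq0 (by linarith), mul_assoc]
    refine mul_le_mul_of_nonneg_left ?_ hCF.le
    refine mul_le_mul_of_nonneg_left ?_ hqε'.le
    exact Real.rpow_le_rpow_of_exponent_le (by linarith) hε'1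
  have hr : ∀ x : ℝ, 3 ≤ x → ‖∑ n ∈ Finset.Icc 1 ⌊x⌋₊, lg (lam (chf χ)) (2*k+1) n *
      (1 - (n:ℂ) / (x:ℂ))‖ ≤ (1 + CR * (CF * (q : ℝ) ^ ε')) * x := by
    intro x hx
    refine (hR (lg (lam (chf χ)) (2 * k + 1)) (CF * (q : ℝ) ^ ε') (by positivity)
      (by rw [abscissa_lg]; exact abscissa_lam_chf χ) hs x hx).trans ?_
    have : (0 : ℝ) ≤ x := by linarith
    nlinarith
  have h1 := hU (lam (chf χ)) (1 + CR * (CF * (q : ℝ) ^ ε'))
    (by have : 0 < CR * (CF * (q : ℝ) ^ ε') := by positivity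
        linarith)
    (fun n => by
      have := lam_norm_le (norm_chf_le χ) n
      linarith) hr x hx
  refine h1.trans ?_
  have h2 : (q : ℝ) ^ ε' ≤ (q : ℝ) ^ ε := Real.rpow_le_rpow_of_exponent_le hq hε'2
  have h3 : 1 ≤ (q : ℝ) ^ ε := Real.one_le_rpow hq hε.le
  have h4 : 1 + CR * (CF * (q : ℝ) ^ ε') ≤ (1 + CR * CF) * (q : ℝ) ^ ε := by
    have : CR * (CF * (q : ℝ) ^ ε') ≤ CR * (CF * (q : ℝ) ^ ε) :=
      mul_le_mul_of_nonneg_left (mul_le_mul_of_nonneg_left h2 hCF.le) hCR.le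
    calc 1 + CR * (CF * (q : ℝ) ^ ε') ≤ (q : ℝ) ^ ε + CR * (CF * (q : ℝ) ^ ε) := by linarith
      _ = (1 + CR * CF) * (q : ℝ) ^ ε := by ring
  have h5 : 0 ≤ x := by linarith
  refine div_le_div_of_nonneg_right ?_ (pow_pos hlog k).le
  refine mul_le_mul_of_nonneg_right ?_ h5
  calc CU * (1 + CR * (CF * (q : ℝ) ^ ε')) ≤ CU * ((1 + CR * CF) * (q : ℝ) ^ ε) :=
        mul_le_mul_of_nonneg_left h4 hCU.le
    _ = CU * (1 + CR * CF) * (q : ℝ) ^ ε := by ring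

theorem psi_bound (k : ℕ) : ∃ C : ℝ, 0 < C ∧ ∀ x : ℝ, 3 ≤ x →
    |∑ n ∈ Finset.Icc 1 ⌊x⌋₊, ArithmeticFunction.vonMangoldt n - x| ≤
      C * x / (Real.log x) ^ k := by
  obtain ⟨CZ, hCZ, hZ⟩ := zeta_F_bound (2 * k + 1) (1 / 2) (by norm_num)
  obtain ⟨CR, hCR, hR⟩ := riesz_bound
  obtain ⟨CU, hCU, hU⟩ := unsmooth k
  have hK : ∃ K : ℝ, 0 < K ∧ ∀ x : ℝ, 1 ≤ x → Real.log x ^ k ≤ K * x := by
    rcases Nat.eq_zero_or_pos k with h | h
    · exact ⟨1, one_pos, fun x hx => by rw [h]; simpa using hx⟩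
    · obtain ⟨j, rfl⟩ : ∃ j, k = j + 1 := ⟨k - 1, by omega⟩
      obtain ⟨K, hK, h2⟩ := log_pow_le_rpow j 1 one_pos
      exact ⟨K, hK, fun x hx => by simpa using h2 x hx⟩
  obtain ⟨K, hK, hKx⟩ := hK
  set b : ℕ → ℂ := fun n => lam (fun _ => 1) n - 1 with hb
  have h1f : ∀ n : ℕ, ‖(fun _ : ℕ => (1 : ℂ)) n‖ ≤ 1 := fun n => by simp
  have hlg : ∀ m, lg b m = lg (lam (fun _ => 1)) m - lg (fun _ => 1) m := by
    intro m
    funext n
    simp only [lg, hb, Pi.sub_apply]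
    ring
  have hsum1 : ∀ m (s : ℂ), 1 < s.re → LSeriesSummable (lg (lam (fun _ => 1)) m) s :=
    fun m s hs => lg_summable (abscissa_lam h1f) m hs
  have hsum2 : ∀ m (s : ℂ), 1 < s.re → LSeriesSummable (lg (fun _ => 1) m) s :=
    fun m s hs => lg_summable (abscissa_le_one h1f) m hs
  have habs : LSeries.abscissaOfAbsConv (lg b (2 * k + 1)) ≤ 1 := by
    apply LSeries.abscissaOfAbsConv_le_of_forall_lt_LSeriesSummable
    intro y hy
    rw [hlg]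
    exact (hsum1 _ _ (by simpa using hy)).sub (hsum2 _ _ (by simpa using hy))
  have hs : ∀ s : ℂ, 1 < s.re → s.re ≤ 2 →
      ‖LSeries (lg b (2 * k + 1)) s‖ ≤ CZ * (|s.im| + 3) ^ (1/2 : ℝ) := by
    intro s h1 h2
    rw [hlg, LSeries_sub (hsum1 _ _ h1) (hsum2 _ _ h1)]
    exact hZ s h1 h2
  have hr : ∀ x : ℝ, 3 ≤ x → ‖∑ n ∈ Finset.Icc 1 ⌊x⌋₊, lg b (2*k+1) n *
      (1 - (n:ℂ) / (x:ℂ))‖ ≤ (1 + CR * CZ) * x := by
    intro x hx
    refine (hR (lg b (2 * k + 1)) CZ hCZ.le habs hs x hx).trans ?_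
    have : (0 : ℝ) ≤ x := by linarith
    nlinarith
  refine ⟨CU * (1 + CR * CZ) + K, by positivity, fun x hx => ?_⟩
  have hlog : 0 < Real.log x := Real.log_pos (by linarith)
  have hx0 : 0 ≤ x := by linarith
  have hlogk : 0 < Real.log x ^ k := pow_pos hlog k
  have h1 := hU b (1 + CR * CZ)
    (by have : 0 < CR * CZ := by positivity
        linarith)
    (fun n => by
      have h2 := lam_norm_le h1f n
      calc ‖b n‖ ≤ ‖lam (fun _ => 1) n‖ + ‖(1 : ℂ)‖ := norm_sub_le _ _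
        _ ≤ 1 + Real.log n := by rw [norm_one]; linarith) hr x hx
  have h2 : ∑ n ∈ Finset.Icc 1 ⌊x⌋₊, b n =
      ((∑ n ∈ Finset.Icc 1 ⌊x⌋₊, ArithmeticFunction.vonMangoldt n - (⌊x⌋₊ : ℝ) : ℝ) : ℂ) := by
    simp only [hb, lam, one_mul, Finset.sum_sub_distrib, Finset.sum_const, Nat.card_Icc,
      Nat.add_sub_cancel, nsmul_eq_mul, mul_one]
    push_cast
    rfl
  rw [h2, Complex.norm_real, Real.norm_eq_abs] at h1
  have h3 : |(⌊x⌋₊ : ℝ) - x| ≤ 1 := by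
    have := Nat.floor_le hx0
    have h4 := Nat.lt_floor_add_one x
    rw [abs_le]
    constructor <;> linarith
  have h4 : 1 ≤ K * x / Real.log x ^ k := by
    rw [le_div_iff₀ hlogk, one_mul]
    exact hKx x (by linarith)
  calc |∑ n ∈ Finset.Icc 1 ⌊x⌋₊, ArithmeticFunction.vonMangoldt n - x|
      = |(∑ n ∈ Finset.Icc 1 ⌊x⌋₊, ArithmeticFunction.vonMangoldt n - (⌊x⌋₊ : ℝ)) +
          ((⌊x⌋₊ : ℝ) - x)| := by congr 1; ring
    _ ≤ |∑ n ∈ Finset.Icc 1 ⌊x⌋₊, ArithmeticFunction.vonMangoldt n - (⌊x⌋₊ : ℝ)| +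
          |(⌊x⌋₊ : ℝ) - x| := abs_add_le _ _
    _ ≤ CU * (1 + CR * CZ) * x / Real.log x ^ k + K * x / Real.log x ^ k := by linarith
    _ = (CU * (1 + CR * CZ) + K) * x / Real.log x ^ k := by ring

end Pool.Agent.Lib.SW
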