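import Pool.Agent.Lib.SW.ZeroMean
import Pool.Agent.Lib.SW.ZetaUpper

/-!
# Upper bounds for L-functions and their derivatives in 1 < Re s <= 2

PROOF SKETCH. For a nonprincipal character the partial sums are bounded by q (periodicity and
DirichletCharacter.sum_eq_zero_of_ne_one style orthogonality), so Lm_bound_zeroMean applies with
Q = q. For the principal character f(n) = χ(n) - φ(q)/q satisfies ‖f‖ <= 2 and has partial sums
bounded by q (write N = k q + r), so Lm_bound_zeroMean with m = 0 and Lm_one_bound with m = 0 give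
the second statement (ell 1 s <= ell q s; LSeries_sub, LSeries_smul).
-/

open Complex

namespace Pool.Agent.Lib.SW

lemma cu_sum_range {q : ℕ} [NeZero q] (g : ZMod q → ℂ) :
    ∑ n ∈ Finset.range q, g (n : ZMod q) = ∑ x : ZMod q, g x := by
  obtain _ | k := q
  · exact absurd rfl (NeZero.ne 0)
  · rw [Finset.sum_range]
    refine Finset.sum_congr rfl fun i _ => ?_
    congr 1
    exact Fin.cast_val_eq_self i

lemma cu_window {q : ℕ} [NeZero q] (g : ZMod q → ℂ) (h0 : ∑ x : ZMod q, g x = 0) (a : ℕ) :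
    ∑ n ∈ Finset.Ico a (a + q), g (n : ZMod q) = 0 := by
  induction a with
  | zero => rw [zero_add, ← Finset.range_eq_Ico, cu_sum_range, h0]
  | succ a ih =>
    have hq : 0 < q := Nat.pos_of_ne_zero (NeZero.ne q)
    have h1 : ∑ n ∈ Finset.Ico a (a + q + 1), g (n : ZMod q) =
        ∑ n ∈ Finset.Ico a (a + q), g (n : ZMod q) + g ((a + q : ℕ) : ZMod q) :=
      Finset.sum_Ico_succ_top (by omega) _
    have h2 : ∑ n ∈ Finset.Ico a (a + q + 1), g (n : ZMod q) =
        g (a : ZMod q) + ∑ n ∈ Finset.Ico (a + 1) (a + q + 1), g (n : ZMod q) :=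
      Finset.sum_eq_sum_Ico_succ_bot (by omega) _
    rw [ih, zero_add] at h1
    have h3 : ((a + q : ℕ) : ZMod q) = (a : ZMod q) := by simp
    rw [h3] at h1
    rw [h1] at h2
    rw [show a + 1 + q = a + q + 1 by ring]
    exact (left_eq_add.mp h2)

lemma cu_periodic {q : ℕ} [NeZero q] (g : ZMod q → ℂ) (h0 : ∑ x : ZMod q, g x = 0) (N : ℕ) :
    ∑ n ∈ Finset.Icc 1 (N + q), g (n : ZMod q) = ∑ n ∈ Finset.Icc 1 N, g (n : ZMod q) := by
  have e : ∀ M : ℕ, Finset.Icc 1 M = Finset.Ico 1 (M + 1) := fun M => by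
    ext x; simp
  rw [e, e, ← Finset.sum_Ico_consecutive _ (show 1 ≤ N + 1 by omega)
    (show N + 1 ≤ N + q + 1 by omega)]
  have := cu_window g h0 (N + 1)
  rw [show N + 1 + q = N + q + 1 by ring] at this
  rw [this, add_zero]

lemma cu_bound {q : ℕ} [NeZero q] (g : ZMod q → ℂ) (h0 : ∑ x : ZMod q, g x = 0)
    (h1 : ∀ x, ‖g x‖ ≤ 1) (N : ℕ) : ‖∑ n ∈ Finset.Icc 1 N, g (n : ZMod q)‖ ≤ q := by
  have hq : 0 < q := Nat.pos_of_ne_zero (NeZero.ne q)
  have h2 : ∀ k r : ℕ, ∑ n ∈ Finset.Icc 1 (r + k * q), g (n : ZMod q) =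
      ∑ n ∈ Finset.Icc 1 r, g (n : ZMod q) := by
    intro k r
    induction k with
    | zero => simp
    | succ k ih =>
      rw [← ih, ← cu_periodic g h0 (r + k * q)]
      congr 2
      ring
  have h3 : N = N % q + N / q * q := by
    rw [mul_comm]; exact (Nat.mod_add_div N q).symm
  rw [h3, h2]
  calc ‖∑ n ∈ Finset.Icc 1 (N % q), g (n : ZMod q)‖
      ≤ ∑ n ∈ Finset.Icc 1 (N % q), ‖g (n : ZMod q)‖ := norm_sum_le _ _
    _ ≤ ∑ n ∈ Finset.Icc 1 (N % q), (1 : ℝ) := Finset.sum_le_sum fun n _ => h1 _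
    _ = ((N % q : ℕ) : ℝ) := by simp
    _ ≤ q := by exact_mod_cast (Nat.mod_lt N hq).le

theorem norm_sum_chf_le {q : ℕ} [NeZero q] (χ : DirichletCharacter ℂ q) (hχ : χ ≠ 1) (N : ℕ) :
    ‖∑ n ∈ Finset.Icc 1 N, chf χ n‖ ≤ q := by
  exact cu_bound (fun x => χ x) (MulChar.sum_eq_zero_of_ne_one hχ) (fun x => χ.norm_le_one x) N

theorem Lm_chf_bound (m : ℕ) : ∃ C : ℝ, 0 < C ∧ ∀ (q : ℕ) [NeZero q]
    (χ : DirichletCharacter ℂ q), χ ≠ 1 →
    ∀ s : ℂ, 1 < s.re → s.re ≤ 2 → ‖Lm (chf χ) m s‖ ≤ C * (ell q s) ^ (m+1) := by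
  obtain ⟨C, hC, h⟩ := Lm_bound_zeroMean m
  refine ⟨C, hC, fun q _ χ hχ s hs1 hs2 => ?_⟩
  have hq : (1 : ℝ) ≤ q := by exact_mod_cast Nat.pos_of_ne_zero (NeZero.ne q)
  exact h (chf χ) q hq (fun n => (norm_chf_le χ n).trans (by norm_num))
    (norm_sum_chf_le χ hχ) s hs1 hs2

lemma cu_ell_mono {q : ℕ} [NeZero q] (s : ℂ) : ell 1 s ≤ ell q s := by
  have hq : (1 : ℝ) ≤ q := by exact_mod_cast Nat.pos_of_ne_zero (NeZero.ne q)
  unfold ell
  apply Real.log_le_log
  · have := abs_nonneg s.im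
    linarith
  · apply mul_le_mul_of_nonneg_right hq
    have := abs_nonneg s.im
    linarith

theorem Lm_chf_bound' : ∃ C : ℝ, 0 < C ∧ ∀ (q : ℕ) [NeZero q]
    (χ : DirichletCharacter ℂ q),
    ∀ s : ℂ, 1 < s.re → s.re ≤ 2 → ‖Lm (chf χ) 0 s‖ ≤ C * (ell q s + 1/‖s - 1‖) := by
  obtain ⟨C₁, hC₁, h₁⟩ := Lm_bound_zeroMean 0
  obtain ⟨C₂, hC₂, h₂⟩ := Lm_one_bound 0
  refine ⟨C₁ + C₂, by positivity, fun q _ χ s hs1 hs2 => ?_⟩
  have hq : (1 : ℝ) ≤ q := by exact_mod_cast Nat.pos_of_ne_zero (NeZero.ne q)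
  have hq0 : (0 : ℝ) < q := by linarith
  have hnn : 0 ≤ 1 / ‖s - 1‖ := by positivity
  by_cases hχ : χ = 1
  · subst hχ
    set d : ℂ := (((Nat.totient q : ℝ) / (q : ℝ) : ℝ) : ℂ) with hd
    set g : ZMod q → ℂ := fun x => (1 : DirichletCharacter ℂ q) x - d with hg
    have hφ : (Nat.totient q : ℝ) ≤ q := by exact_mod_cast Nat.totient_le q
    have hd0 : 0 ≤ (Nat.totient q : ℝ) / (q : ℝ) := by positivity
    have hd1 : (Nat.totient q : ℝ) / (q : ℝ) ≤ 1 := (div_le_one hq0).mpr hφ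
    have hdn : ‖d‖ ≤ 1 := by
      rw [hd, Complex.norm_real, Real.norm_of_nonneg hd0]
      exact hd1
    have hg0 : ∑ x : ZMod q, g x = 0 := by
      rw [hg]
      simp only [Finset.sum_sub_distrib, Finset.sum_const, Finset.card_univ, ZMod.card,
        nsmul_eq_mul]
      rw [MulChar.sum_one_eq_card_units, ZMod.card_units_eq_totient, hd]
      push_cast
      rw [mul_div_cancel₀ _ (by exact_mod_cast hq0.ne'), sub_self]
    have hg1 : ∀ x, ‖g x‖ ≤ 1 := by
      intro x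
      rw [hg]
      by_cases hx : IsUnit x
      · simp only [MulChar.one_apply hx]
        have : (1 : ℂ) - d = ((1 - (Nat.totient q : ℝ) / (q : ℝ) : ℝ) : ℂ) := by
          rw [hd]; push_cast; ring
        rw [this, Complex.norm_real, Real.norm_of_nonneg (by linarith)]
        linarith
      · simp only [MulChar.map_nonunit _ hx, zero_sub, norm_neg]
        exact hdn
    set f : ℕ → ℂ := fun n => g (n : ZMod q) with hf
    have hfC : ∀ n, ‖f n‖ ≤ 1 := fun n => hg1 _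
    have hsum := h₁ f q hq (fun n => (hfC n).trans (by norm_num)) (cu_bound g hg0 hg1) s hs1 hs2
    have hone := h₂ s hs1 hs2
    have hsf : LSeriesSummable f s := by
      have := lg_summable (abscissa_le_one hfC) 0 hs1
      rwa [lg_zero] at this
    have hs1' : LSeriesSummable (fun _ => (1 : ℂ)) s := by
      have := lg_summable (f := fun _ => (1 : ℂ)) (abscissa_le_one (fun n => by simp)) 0 hs1
      rwa [lg_zero] at this
    have hdec : chf (1 : DirichletCharacter ℂ q) = f + d • (fun _ => (1 : ℂ)) := by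
      funext n
      simp [chf, hf, hg]
    have hL : Lm (chf (1 : DirichletCharacter ℂ q)) 0 s =
        Lm f 0 s + d * Lm (fun _ => 1) 0 s := by
      rw [Lm_zero, Lm_zero, Lm_zero, hdec, LSeries_add hsf (hs1'.smul d), LSeries_smul]
    rw [hL]
    simp only [zero_add, pow_one] at hsum hone
    have hell := cu_ell_mono (q := q) s
    calc ‖Lm f 0 s + d * Lm (fun _ => 1) 0 s‖
        ≤ ‖Lm f 0 s‖ + ‖d‖ * ‖Lm (fun _ => 1) 0 s‖ := by
          refine (norm_add_le _ _).trans ?_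
          rw [norm_mul]
      _ ≤ C₁ * ell q s + 1 * (C₂ * (ell 1 s + 1 / ‖s - 1‖)) := by
          refine add_le_add hsum ?_
          exact mul_le_mul hdn hone (norm_nonneg _) zero_le_one
      _ ≤ (C₁ + C₂) * (ell q s + 1 / ‖s - 1‖) := by
          have h3 : C₂ * ell 1 s ≤ C₂ * ell q s := mul_le_mul_of_nonneg_left hell hC₂.le
          have h4 : 0 ≤ C₁ * (1 / ‖s - 1‖) := mul_nonneg hC₁.le hnn
          nlinarith
  · have h := h₁ (chf χ) q hq (fun n => (norm_chf_le χ n).trans (by norm_num))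
      (norm_sum_chf_le χ hχ) s hs1 hs2
    simp only [zero_add, pow_one] at h
    have hell : 0 ≤ ell q s := by linarith [ell_ge hq s]
    have h4 : 0 ≤ C₁ * (1 / ‖s - 1‖) := mul_nonneg hC₁.le hnn
    have h5 : 0 ≤ C₂ * (ell q s + 1 / ‖s - 1‖) := mul_nonneg hC₂.le (by linarith)
    nlinarith

end Pool.Agent.Lib.SW
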