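import Pool.Agent.Lib.SW.Defs

/-!
# L-functions of nonprincipal characters in Re s >= 1/2

The partial sums of a nonprincipal character modulo q are bounded by q, so the Mellin transform
of the partial sum function is analytic in Re s > 0 and equals L(χ,s)/s there.
-/

open Complex MeasureTheory Filter Asymptotics Topology

namespace Pool.Agent.Lib.SW

lemma chf_zero {q : ℕ} [NeZero q] (χ : DirichletCharacter ℂ q) (hχ : χ ≠ 1) : chf χ 0 = 0 := by
  have hq : q ≠ 1 := by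
    rintro rfl
    exact hχ (Subsingleton.elim _ _)
  unfold chf
  rw [Nat.cast_zero]
  have : Nontrivial (ZMod q) := ZMod.nontrivial_iff.2 hq
  exact MulChar.map_zero χ

lemma sum_period {q : ℕ} [NeZero q] (g : ZMod q → ℂ) (m : ℕ) :
    ∑ k ∈ Finset.range q, g ((m + k : ℕ) : ZMod q) = ∑ a, g a := by
  refine Finset.sum_bij' (fun k _ => ((m + k : ℕ) : ZMod q)) (fun a _ => (a - (m : ZMod q)).val) ?_ ?_ ?_ ?_ ?_
  · intro k _; exact Finset.mem_univ _
  · intro a _; exact Finset.mem_range.2 (ZMod.val_lt _)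
  · intro k hk
    simp only [Nat.cast_add, add_sub_cancel_left]
    exact ZMod.val_cast_of_lt (Finset.mem_range.1 hk)
  · intro a _
    simp
  · intro k _; rfl

lemma sum_range_bound {q : ℕ} [NeZero q] (χ : DirichletCharacter ℂ q) (hχ : χ ≠ 1) (m : ℕ) :
    ‖∑ k ∈ Finset.range m, chf χ k‖ ≤ q := by
  have h0 : ∑ a, χ a = 0 := MulChar.sum_eq_zero_of_ne_one hχ
  have key : ∀ n m, m ≤ n → ‖∑ k ∈ Finset.range m, chf χ k‖ ≤ q := by
    intro n
    induction n with
    | zero => intro m hm; obtain rfl : m = 0 := by omega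
              simp
    | succ n ih =>
      intro m hm
      rcases lt_or_ge m q with h | h
      · calc ‖∑ k ∈ Finset.range m, chf χ k‖ ≤ ∑ k ∈ Finset.range m, ‖chf χ k‖ := norm_sum_le _ _
          _ ≤ ∑ k ∈ Finset.range m, (1:ℝ) := Finset.sum_le_sum (fun k _ => norm_chf_le χ k)
          _ = m := by simp
          _ ≤ q := by exact_mod_cast h.le
      · obtain ⟨r, rfl⟩ := Nat.exists_eq_add_of_le h
        have hq : 0 < q := Nat.pos_of_ne_zero (NeZero.ne q)
        rw [add_comm q r, Finset.sum_range_add]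
        have : ∑ x ∈ Finset.range q, chf χ (r + x) = 0 := by
          unfold chf
          rw [sum_period (fun a => χ a) r, h0]
        rw [this, add_zero]
        exact ih r (by omega)
  exact key m m le_rfl

lemma sum_Icc_bound {q : ℕ} [NeZero q] (χ : DirichletCharacter ℂ q) (hχ : χ ≠ 1) (m : ℕ) :
    ‖∑ k ∈ Finset.Icc 1 m, chf χ k‖ ≤ q := by
  have h : ∑ k ∈ Finset.range (m+1), chf χ k = ∑ k ∈ Finset.Icc 1 m, chf χ k := by
    rw [Finset.range_eq_Ico, Finset.sum_eq_sum_Ico_succ_bot (Nat.succ_pos m), chf_zero χ hχ, zero_add]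
    rfl
  rw [← h]
  exact sum_range_bound χ hχ (m+1)

/-- The partial sum function, cut off below `1`. -/
noncomputable def psf {q : ℕ} (χ : DirichletCharacter ℂ q) : ℝ → ℂ :=
  Set.indicator (Set.Ioi 1) (fun t => ∑ k ∈ Finset.Icc 1 ⌊t⌋₊, chf χ k)

lemma measurable_S {q : ℕ} (χ : DirichletCharacter ℂ q) :
    Measurable (fun t : ℝ => ∑ k ∈ Finset.Icc 1 ⌊t⌋₊, chf χ k) :=
  (measurable_from_nat (f := fun n : ℕ => ∑ k ∈ Finset.Icc 1 n, chf χ k)).comp Nat.measurable_floor

lemma measurable_psf {q : ℕ} (χ : DirichletCharacter ℂ q) : Measurable (psf χ) :=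
  (measurable_S χ).indicator measurableSet_Ioi

lemma norm_psf_le {q : ℕ} [NeZero q] (χ : DirichletCharacter ℂ q) (hχ : χ ≠ 1) (t : ℝ) :
    ‖psf χ t‖ ≤ q := by
  unfold psf
  by_cases ht : t ∈ Set.Ioi (1:ℝ)
  · rw [Set.indicator_of_mem ht]; exact sum_Icc_bound χ hχ _
  · rw [Set.indicator_of_notMem ht]; simp

lemma locallyIntegrable_psf {q : ℕ} [NeZero q] (χ : DirichletCharacter ℂ q) (hχ : χ ≠ 1) :
    LocallyIntegrable (psf χ) := by
  refine (locallyIntegrable_const (q:ℝ)).mono (measurable_psf χ).aestronglyMeasurable ?_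
  refine Filter.Eventually.of_forall (fun t => ?_)
  simpa using norm_psf_le χ hχ t

lemma mellin_psf {q : ℕ} (χ : DirichletCharacter ℂ q) (s : ℂ) :
    mellin (psf χ) (-s) = ∫ t in Set.Ioi (1:ℝ), (∑ k ∈ Finset.Icc 1 ⌊t⌋₊, chf χ k) * (t:ℂ) ^ (-(s+1)) := by
  unfold mellin psf
  have h1 : ∀ t : ℝ, (t:ℂ) ^ (-s - 1) • Set.indicator (Set.Ioi 1) (fun t => ∑ k ∈ Finset.Icc 1 ⌊t⌋₊, chf χ k) t
      = Set.indicator (Set.Ioi 1) (fun t : ℝ => (∑ k ∈ Finset.Icc 1 ⌊t⌋₊, chf χ k) * (t:ℂ) ^ (-(s+1))) t := by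
    intro t
    by_cases ht : t ∈ Set.Ioi (1:ℝ)
    · rw [Set.indicator_of_mem ht, Set.indicator_of_mem ht, smul_eq_mul, mul_comm, neg_add']
    · rw [Set.indicator_of_notMem ht, Set.indicator_of_notMem ht, smul_zero]
  simp_rw [h1]
  rw [setIntegral_indicator measurableSet_Ioi]
  congr 2
  ext t
  simp only [Set.mem_inter_iff, Set.mem_Ioi]
  constructor
  · rintro ⟨_, h⟩; exact h
  · intro h; exact ⟨by linarith, h⟩

lemma psf_top {q : ℕ} [NeZero q] (χ : DirichletCharacter ℂ q) (hχ : χ ≠ 1) :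
    (psf χ) =O[atTop] (fun t : ℝ => t ^ (-(0:ℝ))) := by
  refine Asymptotics.IsBigO.of_bound q (Filter.Eventually.of_forall fun t => ?_)
  simpa using norm_psf_le χ hχ t

lemma psf_bot {q : ℕ} (χ : DirichletCharacter ℂ q) (b : ℝ) :
    (psf χ) =O[𝓝[>] 0] (fun t : ℝ => t ^ (-b)) := by
  refine Asymptotics.IsBigO.of_bound 1 ?_
  have : Set.Ioo (0:ℝ) 1 ∈ 𝓝[>] (0:ℝ) := Ioo_mem_nhdsGT one_pos
  filter_upwards [this] with t ht
  have : t ∉ Set.Ioi (1:ℝ) := by
    simp only [Set.mem_Ioi, not_lt]; exact ht.2.le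
  simp [psf, Set.indicator_of_notMem this]

lemma mellin_psf_diff {q : ℕ} [NeZero q] (χ : DirichletCharacter ℂ q) (hχ : χ ≠ 1) {s : ℂ}
    (hs : s.re < 0) : DifferentiableAt ℂ (mellin (psf χ)) s :=
  mellin_differentiableAt_of_isBigO_rpow (a := 0) (b := s.re - 1)
    ((locallyIntegrable_psf χ hχ).locallyIntegrableOn _) (psf_top χ hχ) hs (psf_bot χ _) (by linarith)

theorem LFunction_eq_integral {q : ℕ} [NeZero q] (χ : DirichletCharacter ℂ q) (hχ : χ ≠ 1)
    (s : ℂ) (hs : 0 < s.re) : DirichletCharacter.LFunction χ s =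
      s * ∫ t in Set.Ioi (1:ℝ), (∑ k ∈ Finset.Icc 1 ⌊t⌋₊, chf χ k) * (t:ℂ) ^ (-(s+1)) := by
  rw [← mellin_psf]
  have hopen : IsOpen {s : ℂ | 0 < s.re} := isOpen_lt continuous_const continuous_re
  have hf : AnalyticOnNhd ℂ (DirichletCharacter.LFunction χ) {s : ℂ | 0 < s.re} :=
    ((DirichletCharacter.differentiable_LFunction hχ).differentiableOn).analyticOnNhd hopen
  have hg : AnalyticOnNhd ℂ (fun s => s * mellin (psf χ) (-s)) {s : ℂ | 0 < s.re} := by
    refine DifferentiableOn.analyticOnNhd (fun z hz => ?_) hopen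
    have h1 : DifferentiableAt ℂ (fun s => mellin (psf χ) (-s)) z := by
      have := mellin_psf_diff χ hχ (s := -z) (by simpa using hz)
      exact DifferentiableAt.comp (g := mellin (psf χ)) z this (differentiableAt_id.neg)
    exact (differentiableAt_id.mul h1).differentiableWithinAt
  have hU : IsPreconnected {s : ℂ | 0 < s.re} :=
    (convex_halfSpace_re_gt 0).isPreconnected
  have h2 : (2:ℂ) ∈ {s : ℂ | 0 < s.re} := by simp
  have hev : DirichletCharacter.LFunction χ =ᶠ[𝓝 (2:ℂ)] (fun s => s * mellin (psf χ) (-s)) := by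
    have : {s : ℂ | 1 < s.re} ∈ 𝓝 (2:ℂ) :=
      (isOpen_lt continuous_const continuous_re).mem_nhds (by simp)
    filter_upwards [this] with z hz
    rw [DirichletCharacter.LFunction_eq_LSeries χ hz, mellin_psf]
    refine LSeries_eq_mul_integral (fun n => χ n) (r := 0) le_rfl (zero_lt_one.trans hz) ?_ ?_
    · exact DirichletCharacter.LSeriesSummable_of_one_lt_re χ hz
    · refine Asymptotics.IsBigO.of_bound q (Filter.Eventually.of_forall fun t => ?_)
      simpa [chf] using sum_Icc_bound χ hχ t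
  exact hf.eqOn_of_preconnected_of_eventuallyEq hg hU h2 hev hs


theorem LFunction_bound {q : ℕ} [NeZero q] (χ : DirichletCharacter ℂ q) (hχ : χ ≠ 1)
    (s : ℂ) (hs : 1/2 ≤ s.re) : ‖DirichletCharacter.LFunction χ s‖ ≤ 2 * q * ‖s‖ := by
  have hs0 : 0 < s.re := by linarith
  rw [LFunction_eq_integral χ hχ s hs0, norm_mul, mul_comm]
  refine mul_le_mul_of_nonneg_right ?_ (norm_nonneg _)
  have hint : IntegrableOn (fun t : ℝ => (q:ℝ) * t ^ (-(s.re + 1))) (Set.Ioi 1) :=
    Integrable.const_mul (integrableOn_Ioi_rpow_of_lt (by linarith) one_pos) _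
  have hle : ∀ᵐ (t : ℝ) ∂(volume.restrict (Set.Ioi (1:ℝ))),
      ‖(∑ k ∈ Finset.Icc 1 ⌊t⌋₊, chf χ k) * (t:ℂ) ^ (-(s+1))‖ ≤ (q:ℝ) * t ^ (-(s.re + 1)) := by
    refine (ae_restrict_iff' measurableSet_Ioi).2 (Filter.Eventually.of_forall fun t ht => ?_)
    have ht0 : (0:ℝ) < t := zero_lt_one.trans ht
    rw [norm_mul, Complex.norm_cpow_eq_rpow_re_of_pos ht0]
    simp only [neg_re, add_re, one_re]
    exact mul_le_mul_of_nonneg_right (sum_Icc_bound χ hχ _) (Real.rpow_nonneg ht0.le _)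
  refine (norm_integral_le_of_norm_le hint hle).trans ?_
  rw [integral_const_mul, integral_Ioi_rpow_of_lt (by linarith) one_pos, Real.one_rpow]
  have : -(1:ℝ) / (-(s.re + 1) + 1) = 1 / s.re := by
    rw [show -(s.re + 1) + 1 = -s.re by ring, neg_div_neg_eq]
  rw [this, mul_comm (2:ℝ)]
  refine mul_le_mul_of_nonneg_left ?_ (Nat.cast_nonneg _)
  rw [div_le_iff₀ hs0]; linarith

lemma chf_real {q : ℕ} (χ : DirichletCharacter ℂ q) (h2 : χ ^ 2 = 1) (n : ℕ) :
    (((chf χ n).re : ℝ) : ℂ) = chf χ n := by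
  unfold chf
  by_cases hn : IsUnit (n : ZMod q)
  · have h3 : χ n ^ 2 = 1 := by
      have := congrArg (fun ψ : DirichletCharacter ℂ q => ψ (n : ZMod q)) h2
      simp only [MulChar.pow_apply' _ two_ne_zero, MulChar.one_apply hn] at this
      exact this
    rcases (sq_eq_one_iff.1 h3) with h | h <;> simp [h]
  · rw [MulChar.map_nonunit χ hn]; simp

theorem LFunction_real {q : ℕ} [NeZero q] (χ : DirichletCharacter ℂ q) (hχ : χ ≠ 1)
    (h2 : χ ^ 2 = 1) (σ : ℝ) (hσ : 0 < σ) : (DirichletCharacter.LFunction χ σ).im = 0 := by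
  rw [LFunction_eq_integral χ hχ σ (by simpa using hσ)]
  have h1 : ∫ t in Set.Ioi (1:ℝ), (∑ k ∈ Finset.Icc 1 ⌊t⌋₊, chf χ k) * (t:ℂ) ^ (-((σ:ℂ)+1))
      = ∫ t in Set.Ioi (1:ℝ), (((∑ k ∈ Finset.Icc 1 ⌊t⌋₊, (chf χ k).re) * t ^ (-(σ + 1)) : ℝ) : ℂ) := by
    refine setIntegral_congr_fun measurableSet_Ioi (fun t ht => ?_)
    have ht0 : (0:ℝ) < t := zero_lt_one.trans ht
    simp only [ofReal_mul, ofReal_sum]
    rw [Complex.ofReal_cpow ht0.le]
    congr 1
    · exact Finset.sum_congr rfl (fun k _ => (chf_real χ h2 k).symm)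
    · push_cast; rfl
  rw [h1, integral_complex_ofReal, ← ofReal_mul, ofReal_im]

lemma LFunction_two_re {q : ℕ} [NeZero q] (χ : DirichletCharacter ℂ q) :
    0 < (DirichletCharacter.LFunction χ 2).re := by
  have h2 : (1:ℝ) < (2:ℂ).re := by simp
  rw [DirichletCharacter.LFunction_eq_LSeries χ h2]
  have hsum : LSeriesSummable (fun n => χ n) 2 := DirichletCharacter.LSeriesSummable_of_one_lt_re χ h2
  have hz : HasSum (fun n : ℕ => 1 / (n:ℝ) ^ 2) (Real.pi ^ 2 / 6) := hasSum_zeta_two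
  have hz' : ∑' n : ℕ, 1 / ((n + 2 : ℕ) : ℝ) ^ 2 = Real.pi ^ 2 / 6 - 1 := by
    have := hz.summable.sum_add_tsum_nat_add 2
    rw [hz.tsum_eq] at this
    simp only [Finset.sum_range_succ, Finset.sum_range_zero] at this
    norm_num at this ⊢
    linarith
  have hs2 : Summable (fun n : ℕ => 1 / ((n + 2 : ℕ) : ℝ) ^ 2) := (summable_nat_add_iff 2).2 hz.summable
  have hL : LSeries (fun n => χ n) 2 = 1 + ∑' n : ℕ, LSeries.term (fun n => χ n) 2 (n + 2) := by
    unfold LSeries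
    rw [← hsum.sum_add_tsum_nat_add 2]
    congr 1
    simp [Finset.sum_range_succ, LSeries.term]
  have hle : ‖∑' n : ℕ, LSeries.term (fun n => χ n) 2 (n + 2)‖ ≤ Real.pi ^ 2 / 6 - 1 := by
    rw [← hz']
    refine tsum_of_norm_bounded hs2.hasSum (fun n => ?_)
    rw [LSeries.term_of_ne_zero (by omega), norm_div]
    have : ‖((n + 2 : ℕ) : ℂ) ^ (2:ℂ)‖ = ((n + 2 : ℕ) : ℝ) ^ 2 := by
      rw [show ((2:ℂ)) = ((2:ℕ):ℂ) by norm_num, Complex.cpow_natCast, norm_pow, Complex.norm_natCast]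
    rw [this]
    exact div_le_div_of_nonneg_right (χ.norm_le_one _) (by positivity)
  rw [hL, add_re, one_re]
  have h3 := (abs_re_le_norm (∑' n : ℕ, LSeries.term (fun n => χ n) 2 (n + 2))).trans hle
  have h4 := abs_le.1 h3
  have : Real.pi ^ 2 < 12 := by
    have h5 := Real.pi_lt_d2
    have h6 := Real.pi_pos
    nlinarith
  linarith [h4.1]

/-- Positivity at real points `σ > 1` (real, nonzero, tends to 1 at infinity, continuity; or from
the logarithm of the Euler product; or `L(χ,σ) ζ(σ)` has nonnegative coefficients) and at 1. -/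
theorem LFunction_one_pos {q : ℕ} [NeZero q] (χ : DirichletCharacter ℂ q) (hχ : χ ≠ 1)
    (h2 : χ ^ 2 = 1) : 0 < (DirichletCharacter.LFunction χ 1).re := by
  by_contra hcon
  push Not at hcon
  have hcont : ContinuousOn (fun σ : ℝ => (DirichletCharacter.LFunction χ σ).re) (Set.Icc 1 2) := by
    refine Continuous.continuousOn ?_
    exact continuous_re.comp ((DirichletCharacter.differentiable_LFunction hχ).continuous.comp
      continuous_ofReal)
  have hiv := intermediate_value_Icc (by norm_num : (1:ℝ) ≤ 2) hcont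
  have h0 : (0:ℝ) ∈ Set.Icc ((DirichletCharacter.LFunction χ ((1:ℝ):ℂ)).re)
      ((DirichletCharacter.LFunction χ ((2:ℝ):ℂ)).re) := by
    constructor
    · simpa using hcon
    · simpa using (LFunction_two_re χ).le
  obtain ⟨σ, hσ, hσ0⟩ := hiv h0
  have him := LFunction_real χ hχ h2 σ (by linarith [hσ.1])
  have hne := DirichletCharacter.LFunction_ne_zero_of_one_le_re (χ := χ) (s := (σ:ℂ)) (Or.inl hχ)
    (by simpa using hσ.1)
  exact hne (Complex.ext hσ0 him)

end Pool.Agent.Lib.SW
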