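import Pool.Agent.Lib.SW.Estermann

/-!
# Estermann's lemma for ζ(s) H(s) with H entire

Let Z(s) = ζ(s) - 1/(s-1) extended to s = 1 (entire). Put G(s) = Z(s) H(s) + dslope H 1 s:
differentiable everywhere, and for s <> 1 G(s) = ζ(s) H(s) - H(1)/(s-1). On |s-2| = 3/2:
|ζ| <= C, |s-1| >= 1/2, Re s >= 1/2, |s| <= 4, so |G| <= (C+2) B. Apply estermann with l = Re H(1),
Bd = (C+2) B.
-/

open Complex

namespace Pool.Agent.Lib.SW

/-- The entire function `ζ(s) - 1/(s-1)`. -/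
noncomputable def zetaReg : ℂ → ℂ := dslope (DirichletCharacter.LFunctionTrivChar₁ 1) 1

lemma zetaReg_differentiable : Differentiable ℂ zetaReg := by
  have h : DifferentiableOn ℂ (dslope (DirichletCharacter.LFunctionTrivChar₁ 1) 1) Set.univ :=
    (Complex.differentiableOn_dslope (Filter.univ_mem)).mpr
      (DirichletCharacter.differentiable_LFunctionTrivChar₁ 1).differentiableOn
  exact differentiableOn_univ.mp h

lemma zetaReg_eq {s : ℂ} (hs : s ≠ 1) : zetaReg s = riemannZeta s - 1 / (s - 1) := by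
  have h1 : s - 1 ≠ 0 := sub_ne_zero.mpr hs
  rw [zetaReg, dslope_of_ne _ hs, slope_def_field]
  have e1 : DirichletCharacter.LFunctionTrivChar₁ 1 s = (s - 1) * riemannZeta s := by
    rw [DirichletCharacter.LFunctionTrivChar₁, Function.update_of_ne hs,
      DirichletCharacter.LFunctionTrivChar, DirichletCharacter.LFunction_modOne_eq]
  have e2 : DirichletCharacter.LFunctionTrivChar₁ 1 1 = 1 := by
    rw [DirichletCharacter.LFunctionTrivChar₁, Function.update_self]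
    simp
  rw [e1, e2]
  field_simp

theorem estermann_zeta : ∃ c : ℝ, 0 < c ∧ ∀ (a : ℕ → ℂ) (H : ℂ → ℂ) (B : ℝ), 1 ≤ B →
    (∀ n, 0 ≤ (a n).re ∧ (a n).im = 0) → a 1 = 1 → LSeries.abscissaOfAbsConv a ≤ 1 →
    Differentiable ℂ H → (∀ s : ℂ, 1/2 ≤ s.re → ‖s‖ ≤ 4 → ‖H s‖ ≤ B) →
    (∀ s : ℂ, 1 < s.re → riemannZeta s * H s = LSeries a s) →
    (H 1).im = 0 → 0 ≤ (H 1).re →
    ∀ β : ℝ, 7/8 ≤ β → β < 1 → (riemannZeta β * H β).re ≤ 0 →
    c * (1 - β) * B ^ (-(4 * (1 - β))) ≤ (H 1).re := by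
  have hne : ∀ s ∈ Metric.sphere (2:ℂ) (3/2), s ≠ 1 := by
    intro s hs h
    rw [Metric.mem_sphere, h, Complex.dist_eq] at hs
    norm_num at hs
  obtain ⟨C, hC⟩ : ∃ C, ∀ s ∈ Metric.sphere (2:ℂ) (3/2), ‖riemannZeta s‖ ≤ C := by
    apply (isCompact_sphere (2:ℂ) (3/2)).exists_bound_of_continuousOn
    intro s hs
    exact (differentiableAt_riemannZeta (hne s hs)).continuousAt.continuousWithinAt
  have hC0 : 0 ≤ C := by
    have h3 : (2 + 3/2 : ℂ) ∈ Metric.sphere (2:ℂ) (3/2) := by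
      rw [Metric.mem_sphere, Complex.dist_eq]; norm_num
    exact (norm_nonneg _).trans (hC _ h3)
  refine ⟨1 / (3 * (8 * (C + 2)) ^ (1/2 : ℝ)), by positivity, ?_⟩
  intro a H B hB ha0 ha1 habs hH hHB hL him hre β h1 h2 hneg
  set l : ℝ := (H 1).re with hl
  have hH1 : H 1 = (l : ℂ) := by
    apply Complex.ext
    · simp [hl]
    · simp [him]
  set G : ℂ → ℂ := fun s => zetaReg s * H s + dslope H 1 s with hG
  have hGne : ∀ s : ℂ, s ≠ 1 → G s = riemannZeta s * H s - l / (s - 1) := by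
    intro s hs
    have h3 : s - 1 ≠ 0 := sub_ne_zero.mpr hs
    rw [hG]
    simp only
    rw [zetaReg_eq hs, dslope_of_ne _ hs, slope_def_field, hH1]
    field_simp
    ring
  have hGd : Differentiable ℂ G := by
    apply (zetaReg_differentiable.mul hH).add
    have h : DifferentiableOn ℂ (dslope H 1) Set.univ :=
      (Complex.differentiableOn_dslope (Filter.univ_mem)).mpr hH.differentiableOn
    exact differentiableOn_univ.mp h
  have hl1 : ‖(l : ℂ)‖ ≤ B := by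
    rw [← hH1]
    apply hHB 1 <;> norm_num
  have hGb : ∀ s ∈ Metric.sphere (2:ℂ) (3/2), ‖G s‖ ≤ (C + 2) * B := by
    intro s hs
    have hs1 := hne s hs
    rw [Metric.mem_sphere, Complex.dist_eq] at hs
    have hsre : 1/2 ≤ s.re := by
      have h4 : |(s - 2).re| ≤ 3/2 := hs ▸ Complex.abs_re_le_norm (s - 2)
      have h5 := (abs_le.mp h4).1
      simp at h5
      linarith
    have hsn : ‖s‖ ≤ 4 := by
      calc ‖s‖ = ‖(s - 2) + 2‖ := by ring_nf
        _ ≤ ‖s - 2‖ + ‖(2:ℂ)‖ := norm_add_le _ _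
        _ ≤ 4 := by rw [hs]; norm_num
    have hs12 : (1/2 : ℝ) ≤ ‖s - 1‖ := by
      have h6 : ‖s - 2‖ ≤ ‖s - 1‖ + ‖(1:ℂ)‖ := by
        calc ‖s - 2‖ = ‖(s - 1) - 1‖ := by ring_nf
          _ ≤ _ := norm_sub_le _ _
      rw [hs, norm_one] at h6
      linarith
    rw [hGne s hs1]
    have h7 : ‖(l : ℂ) / (s - 1)‖ ≤ 2 * B := by
      rw [norm_div, div_le_iff₀ (by linarith)]
      nlinarith
    calc ‖riemannZeta s * H s - l / (s - 1)‖
        ≤ ‖riemannZeta s * H s‖ + ‖(l : ℂ) / (s - 1)‖ := norm_sub_le _ _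
      _ ≤ C * B + 2 * B := by
        apply add_le_add _ h7
        rw [norm_mul]
        exact mul_le_mul (hC s (by rw [Metric.mem_sphere, Complex.dist_eq]; exact hs))
          (hHB s hsre hsn) (norm_nonneg _) hC0
      _ = (C + 2) * B := by ring
  have hβ1 : (β : ℂ) ≠ 1 := by
    intro h
    have : β = 1 := by exact_mod_cast h
    linarith
  have hmain := estermann a ha0 (by rw [ha1]; simp) habs G l ((C + 2) * B) hre
    (by nlinarith) hGd.differentiableOn hGb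
    (by
      intro s hs
      have hs1 : s ≠ 1 := by
        intro h; rw [h] at hs; simp at hs
      rw [hGne s hs1, hL s hs])
    β h1 h2
    (by
      rw [hGne _ hβ1, Complex.sub_re]
      have e : ((l : ℂ) / ((β : ℂ) - 1)).re = -(l / (1 - β)) := by
        have : (l : ℂ) / ((β : ℂ) - 1) = ((l / (β - 1) : ℝ) : ℂ) := by push_cast; ring
        rw [this, Complex.ofReal_re, ← neg_sub 1 β, div_neg]
      rw [e]
      linarith)
  refine le_trans ?_ hmain
  set δ := 1 - β with hδ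
  have hδ0 : 0 < δ := by rw [hδ]; linarith
  have hδ1 : 4 * δ ≤ 1/2 := by rw [hδ]; linarith
  have hBp : 0 < B := by linarith
  have hC8 : 1 ≤ 8 * (C + 2) := by linarith
  have e1 : (8 * ((C + 2) * B)) ^ (4 * δ) = (8 * (C + 2)) ^ (4 * δ) * B ^ (4 * δ) := by
    rw [← Real.mul_rpow (by linarith) hBp.le]; ring_nf
  have e2 : (8 * (C + 2)) ^ (4 * δ) ≤ (8 * (C + 2)) ^ (1/2 : ℝ) :=
    Real.rpow_le_rpow_of_exponent_le hC8 hδ1
  rw [e1, Real.rpow_neg hBp.le]
  have hp1 : 0 < (8 * (C + 2)) ^ (4 * δ) := Real.rpow_pos_of_pos (by linarith) _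
  have hp2 : 0 < (8 * (C + 2)) ^ (1/2 : ℝ) := Real.rpow_pos_of_pos (by linarith) _
  have hp3 : 0 < B ^ (4 * δ) := Real.rpow_pos_of_pos hBp _
  have : 1 / (3 * (8 * (C + 2)) ^ (1/2 : ℝ)) * δ * (B ^ (4 * δ))⁻¹
      = δ / (3 * ((8 * (C + 2)) ^ (1/2 : ℝ) * B ^ (4 * δ))) := by
    field_simp
  rw [this]
  apply div_le_div_of_nonneg_left hδ0.le (by positivity)
  apply mul_le_mul_of_nonneg_left _ (by norm_num)
  exact mul_le_mul_of_nonneg_right e2 hp3.le

end Pool.Agent.Lib.SW
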