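import Mathlib

/-!
# Comparison of L(1,χ) for two real characters induced by the same primitive character

PROOF SKETCH. Both lifts to level q₁ q₂ are equal (their product is 1 and they are real:
changeLevel is multiplicative). LFunction_changeLevel gives
L(1,χ₂) prod_{p | q₁q₂} (1 - χ₂(p)/p) = L(1,χ₁) prod_{p | q₁q₂} (1 - χ₁(p)/p). On the left the
factors with p | q₂ are 1 and the others (p | q₁) have modulus <= 1 + 1/p <= 2, so the product is at
most 2^(omega(q₁)) <= q₁. On the right the factors with p | q₁ are 1, the others have modulus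
>= 1 - 1/p with p | q₂, and prod_{p | q₂} (1-1/p) >= 1/(1+omega(q₂)) >= 1/(1 + log q₂/log 2)
(a finite set S of naturals >= 2 has prod (1-1/p) >= 1/(|S|+1)). L(1,χ₁) <> 0:
DirichletCharacter.LFunction_apply_one_ne_zero.
-/

open Complex DirichletCharacter

namespace Pool.Agent.Lib.SW

private lemma lc_prod_lower (S : Finset ℕ) (hS : ∀ p ∈ S, 2 ≤ p) :
    1 / ((S.card : ℝ) + 1) ≤ ∏ p ∈ S, (1 - 1 / (p : ℝ)) := by
  induction S using Finset.induction_on_max with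
  | empty => simp
  | insert a s has ih =>
    have hs : ∀ p ∈ s, 2 ≤ p := fun p hp => hS p (Finset.mem_insert_of_mem hp)
    have ha2 : 2 ≤ a := hS a (Finset.mem_insert_self _ _)
    have hna : a ∉ s := fun h => lt_irrefl _ (has a h)
    rw [Finset.prod_insert hna, Finset.card_insert_of_notMem hna]
    have hih := ih hs
    have hcard : s.card + 2 ≤ a := by
      have hsub : s ⊆ Finset.Ico 2 a := by
        intro p hp
        exact Finset.mem_Ico.2 ⟨hs p hp, has p hp⟩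
      have := Finset.card_le_card hsub
      rw [Nat.card_Ico] at this
      omega
    have hcR : (s.card : ℝ) + 2 ≤ (a : ℝ) := by exact_mod_cast hcard
    have hc0 : (0 : ℝ) ≤ (s.card : ℝ) := Nat.cast_nonneg _
    have h1 : 1 - 1 / ((s.card : ℝ) + 2) ≤ 1 - 1 / (a : ℝ) := by
      have : 1 / (a : ℝ) ≤ 1 / ((s.card : ℝ) + 2) :=
        one_div_le_one_div_of_le (by linarith) hcR
      linarith
    have h2 : 0 ≤ 1 - 1 / ((s.card : ℝ) + 2) := by
      have : 1 / ((s.card : ℝ) + 2) ≤ 1 := by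
        rw [div_le_one (by linarith)]
        linarith
      linarith
    have h3 : 0 ≤ 1 / ((s.card : ℝ) + 1) := by positivity
    calc 1 / (((s.card + 1 : ℕ) : ℝ) + 1)
        = (1 - 1 / ((s.card : ℝ) + 2)) * (1 / ((s.card : ℝ) + 1)) := by
          push_cast
          have e1 : (s.card : ℝ) + 1 ≠ 0 := by positivity
          have e2 : (s.card : ℝ) + 2 ≠ 0 := by positivity
          have e3 : (s.card : ℝ) + 1 + 1 ≠ 0 := by positivity
          field_simp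
          ring
      _ ≤ (1 - 1 / (a : ℝ)) * ∏ p ∈ s, (1 - 1 / (p : ℝ)) :=
          mul_le_mul h1 hih h3 (le_trans h2 h1)

private lemma lc_two_pow (q : ℕ) (hq : q ≠ 0) : 2 ^ q.primeFactors.card ≤ q := by
  calc 2 ^ q.primeFactors.card = ∏ _p ∈ q.primeFactors, 2 := by rw [Finset.prod_const]
    _ ≤ ∏ p ∈ q.primeFactors, p :=
        Finset.prod_le_prod' fun p hp => (Nat.prime_of_mem_primeFactors hp).two_le
    _ ≤ q := Nat.le_of_dvd (Nat.pos_of_ne_zero hq) (Nat.prod_primeFactors_dvd q)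

private lemma lc_zero {q : ℕ} (χ : DirichletCharacter ℂ q) {p : ℕ} (hp : p.Prime)
    (hpq : p ∣ q) : χ (p : ZMod q) = 0 := by
  apply MulChar.map_nonunit
  rw [ZMod.isUnit_iff_coprime]
  intro h
  exact hp.one_lt.ne' (Nat.dvd_one.1 (h ▸ Nat.dvd_gcd dvd_rfl hpq))

private lemma lc_term (z : ℂ) (hz : ‖z‖ ≤ 1) {p : ℕ} (hp : 2 ≤ p) :
    ‖1 - z * (p : ℂ) ^ (-(1 : ℂ))‖ ≤ 2 ∧ 1 - 1 / (p : ℝ) ≤ ‖1 - z * (p : ℂ) ^ (-(1 : ℂ))‖ := by
  have hpR : (2 : ℝ) ≤ (p : ℝ) := by exact_mod_cast hp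
  have hn : ‖z * (p : ℂ) ^ (-(1 : ℂ))‖ ≤ 1 / (p : ℝ) := by
    rw [norm_mul, Complex.cpow_neg_one, norm_inv, Complex.norm_natCast, one_div]
    have : 0 ≤ (p : ℝ)⁻¹ := by positivity
    calc ‖z‖ * (p : ℝ)⁻¹ ≤ 1 * (p : ℝ)⁻¹ := mul_le_mul_of_nonneg_right hz this
      _ = _ := one_mul _
  have hp1 : 1 / (p : ℝ) ≤ 1 := by
    rw [div_le_one (by linarith)]
    linarith
  constructor
  · calc ‖1 - z * (p : ℂ) ^ (-(1 : ℂ))‖ ≤ ‖(1 : ℂ)‖ + ‖z * (p : ℂ) ^ (-(1 : ℂ))‖ := norm_sub_le _ _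
      _ ≤ 1 + 1 := by
        rw [norm_one]
        linarith
      _ = 2 := by norm_num
  · have := norm_sub_norm_le (1 : ℂ) (z * (p : ℂ) ^ (-(1 : ℂ)))
    rw [norm_one] at this
    linarith

theorem compare_level {q₁ : ℕ} [NeZero q₁] (χ₁ : DirichletCharacter ℂ q₁) (h₁ : χ₁ ≠ 1)
    (hr : χ₁ ^ 2 = 1) :
    ∃ c : ℝ, 0 < c ∧ ∀ (q₂ : ℕ) [NeZero q₂] (χ₂ : DirichletCharacter ℂ q₂), χ₂ ≠ 1 →
      χ₂ ^ 2 = 1 →
      changeLevel (Nat.dvd_mul_right q₁ q₂) χ₁ * changeLevel (Nat.dvd_mul_left q₂ q₁) χ₂ = 1 →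
      c / (1 + Real.log q₂) ≤ ‖LFunction χ₂ 1‖ := by
  have hL1 : 0 < ‖LFunction χ₁ 1‖ := norm_pos_iff.2 (LFunction_apply_one_ne_zero h₁)
  have hq1 : (0 : ℝ) < (q₁ : ℝ) := by exact_mod_cast Nat.pos_of_ne_zero (NeZero.ne q₁)
  refine ⟨‖LFunction χ₁ 1‖ * (1 / 2) / q₁, by positivity, ?_⟩
  intro q₂ _ χ₂ h₂ _hr₂ hprod
  have hq2 : 1 ≤ q₂ := Nat.pos_of_ne_zero (NeZero.ne q₂)
  have hq2R : (1 : ℝ) ≤ (q₂ : ℝ) := by exact_mod_cast hq2
  have hlog : 0 ≤ Real.log q₂ := Real.log_nonneg hq2R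
  have : NeZero (q₁ * q₂) := ⟨mul_ne_zero (NeZero.ne q₁) (NeZero.ne q₂)⟩
  -- both lifts agree
  have hsq : changeLevel (Nat.dvd_mul_right q₁ q₂) χ₁ * changeLevel (Nat.dvd_mul_right q₁ q₂) χ₁
      = 1 := by
    rw [← map_mul, ← pow_two, hr, map_one]
  have heq : changeLevel (Nat.dvd_mul_right q₁ q₂) χ₁ = changeLevel (Nat.dvd_mul_left q₂ q₁) χ₂ :=
    mul_left_cancel (hsq.trans hprod.symm)
  have e1 := LFunction_changeLevel (Nat.dvd_mul_right q₁ q₂) χ₁ (s := 1) (Or.inl h₁)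
  have e2 := LFunction_changeLevel (Nat.dvd_mul_left q₂ q₁) χ₂ (s := 1) (Or.inl h₂)
  rw [heq, e2] at e1
  -- take norms
  have e3 := congrArg (fun z : ℂ => ‖z‖) e1
  simp only [norm_mul, norm_prod] at e3
  set A : ℕ → ℝ := fun p => ‖1 - χ₁ (p : ZMod q₁) * (p : ℂ) ^ (-(1 : ℂ))‖ with hA
  set B : ℕ → ℝ := fun p => ‖1 - χ₂ (p : ZMod q₂) * (p : ℂ) ^ (-(1 : ℂ))‖ with hB
  have e4 : ‖LFunction χ₂ 1‖ * ∏ p ∈ (q₁ * q₂).primeFactors, B p
      = ‖LFunction χ₁ 1‖ * ∏ p ∈ (q₁ * q₂).primeFactors, A p := e3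
  have hsplit : (q₁ * q₂).primeFactors = q₁.primeFactors ∪ (q₂.primeFactors \ q₁.primeFactors) := by
    rw [Nat.primeFactors_mul (NeZero.ne q₁) (NeZero.ne q₂), Finset.union_sdiff_self_eq_union]
  have hdisj : Disjoint q₁.primeFactors (q₂.primeFactors \ q₁.primeFactors) :=
    Finset.disjoint_sdiff
  rw [hsplit, Finset.prod_union hdisj, Finset.prod_union hdisj] at e4
  -- B bound
  have hB2 : ∏ p ∈ q₂.primeFactors \ q₁.primeFactors, B p = 1 := by
    apply Finset.prod_eq_one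
    intro p hp
    have hp2 := (Finset.mem_sdiff.1 hp).1
    simp only [hB]
    rw [lc_zero χ₂ (Nat.prime_of_mem_primeFactors hp2) (Nat.dvd_of_mem_primeFactors hp2)]
    simp
  have hB1 : ∏ p ∈ q₁.primeFactors, B p ≤ q₁ := by
    calc ∏ p ∈ q₁.primeFactors, B p ≤ ∏ _p ∈ q₁.primeFactors, (2 : ℝ) := by
          apply Finset.prod_le_prod
          · intro p _
            exact norm_nonneg _
          · intro p hp
            exact (lc_term _ (χ₂.norm_le_one _) (Nat.prime_of_mem_primeFactors hp).two_le).1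
      _ = 2 ^ q₁.primeFactors.card := by rw [Finset.prod_const]
      _ ≤ q₁ := by exact_mod_cast lc_two_pow q₁ (NeZero.ne q₁)
  have hA1 : ∏ p ∈ q₁.primeFactors, A p = 1 := by
    apply Finset.prod_eq_one
    intro p hp
    simp only [hA]
    rw [lc_zero χ₁ (Nat.prime_of_mem_primeFactors hp) (Nat.dvd_of_mem_primeFactors hp)]
    simp
  have hA2 : 1 / (((q₂.primeFactors \ q₁.primeFactors).card : ℝ) + 1)
      ≤ ∏ p ∈ q₂.primeFactors \ q₁.primeFactors, A p := by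
    refine le_trans (lc_prod_lower _ fun p hp => ?_) ?_
    · exact (Nat.prime_of_mem_primeFactors (Finset.mem_sdiff.1 hp).1).two_le
    · apply Finset.prod_le_prod
      · intro p hp
        have h2 : 2 ≤ p := (Nat.prime_of_mem_primeFactors (Finset.mem_sdiff.1 hp).1).two_le
        have h2R : (2 : ℝ) ≤ (p : ℝ) := by exact_mod_cast h2
        have : 1 / (p : ℝ) ≤ 1 := by
          rw [div_le_one (by linarith)]
          linarith
        linarith
      · intro p hp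
        exact (lc_term _ (χ₁.norm_le_one _)
          (Nat.prime_of_mem_primeFactors (Finset.mem_sdiff.1 hp).1).two_le).2
  have hcard : ((q₂.primeFactors \ q₁.primeFactors).card : ℝ) + 1 ≤ 2 * (1 + Real.log q₂) := by
    have h1 : (q₂.primeFactors \ q₁.primeFactors).card ≤ q₂.primeFactors.card :=
      Finset.card_le_card Finset.sdiff_subset
    have h2 : (2 : ℝ) ^ q₂.primeFactors.card ≤ (q₂ : ℝ) := by
      exact_mod_cast lc_two_pow q₂ (NeZero.ne q₂)
    have h3 : (q₂.primeFactors.card : ℝ) * Real.log 2 ≤ Real.log q₂ := by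
      rw [← Real.log_pow]
      exact Real.log_le_log (by positivity) h2
    have h4 : (1 / 2 : ℝ) ≤ Real.log 2 := by
      have := Real.log_two_gt_d9
      linarith
    have h5 : ((q₂.primeFactors \ q₁.primeFactors).card : ℝ) ≤ (q₂.primeFactors.card : ℝ) := by
      exact_mod_cast h1
    have h6 : (q₂.primeFactors.card : ℝ) * (1 / 2) ≤ (q₂.primeFactors.card : ℝ) * Real.log 2 :=
      mul_le_mul_of_nonneg_left h4 (Nat.cast_nonneg _)
    linarith
  rw [hB2, mul_one, hA1, one_mul] at e4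
  have hA3 : 1 / (2 * (1 + Real.log q₂)) ≤ ∏ p ∈ q₂.primeFactors \ q₁.primeFactors, A p := by
    refine le_trans ?_ hA2
    exact one_div_le_one_div_of_le (by positivity) hcard
  have h7 : ‖LFunction χ₁ 1‖ * (1 / (2 * (1 + Real.log q₂))) ≤ ‖LFunction χ₂ 1‖ * q₁ := by
    calc ‖LFunction χ₁ 1‖ * (1 / (2 * (1 + Real.log q₂)))
        ≤ ‖LFunction χ₁ 1‖ * ∏ p ∈ q₂.primeFactors \ q₁.primeFactors, A p :=
          mul_le_mul_of_nonneg_left hA3 hL1.le
      _ = ‖LFunction χ₂ 1‖ * ∏ p ∈ q₁.primeFactors, B p := e4.symm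
      _ ≤ ‖LFunction χ₂ 1‖ * q₁ := mul_le_mul_of_nonneg_left hB1 (norm_nonneg _)
  have h8 : ‖LFunction χ₁ 1‖ * (1 / 2) / q₁ / (1 + Real.log q₂)
      = ‖LFunction χ₁ 1‖ * (1 / (2 * (1 + Real.log q₂))) / q₁ := by
    have e5 : 1 + Real.log q₂ ≠ 0 := by positivity
    field_simp
  rw [h8, div_le_iff₀ hq1]
  exact h7

end Pool.Agent.Lib.SW
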