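import Pool.Agent.Lib.SW.Defs

/-!
# Nonnegative coefficients of ζ L(χ) and ζ L(χ) L(ψ) L(χψ) for real characters

The coefficients are `a = 1 * χ` resp. `1 * χ * ψ * χψ` (Dirichlet convolution). Nonnegativity by
strong induction from `a(n) log n = sum_{d m = n} a(d) Λ(m) (1+χ(m))` (resp.
`(1+χ(m))(1+ψ(m))`), where only `d < n` contribute.
-/

open Complex

namespace Pool.Agent.Lib.SW

namespace NonnegConv

open scoped ComplexOrder

/-- Multiplication of an arithmetic function by the logarithm. -/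
noncomputable def D (f : ArithmeticFunction ℂ) : ArithmeticFunction ℂ :=
  ⟨fun n => f n * ((Real.log n : ℝ) : ℂ), by simp⟩

lemma D_apply (f : ArithmeticFunction ℂ) (n : ℕ) : D f n = f n * ((Real.log n : ℝ) : ℂ) := rfl

lemma D_mul (f g : ArithmeticFunction ℂ) : D (f * g) = D f * g + f * D g := by
  ext n
  rw [D_apply, ArithmeticFunction.mul_apply, ArithmeticFunction.add_apply,
    ArithmeticFunction.mul_apply, ArithmeticFunction.mul_apply, Finset.sum_mul,
    ← Finset.sum_add_distrib]
  refine Finset.sum_congr rfl fun p hp => ?_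
  obtain ⟨h1, h2⟩ := Nat.mem_divisorsAntidiagonal.mp hp
  have h3 : p.1 ≠ 0 := by
    rintro h; rw [h, zero_mul] at h1; exact h2 h1.symm
  have h4 : p.2 ≠ 0 := by
    rintro h; rw [h, mul_zero] at h1; exact h2 h1.symm
  rw [D_apply, D_apply, ← h1, Nat.cast_mul, Real.log_mul (by exact_mod_cast h3)
    (by exact_mod_cast h4)]
  push_cast
  ring

/-- A completely multiplicative sequence as an arithmetic function. -/
noncomputable def af (f : ℕ → ℂ) : ArithmeticFunction ℂ := toArithmeticFunction f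

lemma af_apply (f : ℕ → ℂ) {n : ℕ} (hn : n ≠ 0) : af f n = f n := by
  simp [af, toArithmeticFunction, hn]

lemma af_zero (f : ℕ → ℂ) : af f 0 = 0 := by
  simp [af, toArithmeticFunction]

lemma D_af {f : ℕ → ℂ} (hf : ∀ m n, f (m * n) = f m * f n) :
    D (af f) = af f * af (lam f) := by
  ext n
  rcases eq_or_ne n 0 with rfl | hn
  · simp
  rw [D_apply, ArithmeticFunction.mul_apply, af_apply f hn]
  have key : ∑ p ∈ n.divisorsAntidiagonal,
      ((ArithmeticFunction.vonMangoldt p.2 : ℝ) : ℂ) = ((Real.log n : ℝ) : ℂ) := by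
    have h := ArithmeticFunction.vonMangoldt_sum (n := n)
    rw [← h, ← Complex.ofReal_sum]
    congr 1
    rw [← Nat.sum_divisorsAntidiagonal' (f := fun _ y => ArithmeticFunction.vonMangoldt y)]
  rw [← key, Finset.mul_sum]
  refine Finset.sum_congr rfl fun p hp => ?_
  obtain ⟨h1, h2⟩ := Nat.mem_divisorsAntidiagonal.mp hp
  have h3 : p.1 ≠ 0 := by
    rintro h; rw [h, zero_mul] at h1; exact h2 h1.symm
  have h4 : p.2 ≠ 0 := by
    rintro h; rw [h, mul_zero] at h1; exact h2 h1.symm
  rw [af_apply f h3, af_apply _ h4, lam, ← h1, hf]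
  ring

lemma nonneg_of_D {a b : ArithmeticFunction ℂ} (h1 : 0 ≤ a 1) (hb : ∀ n, 0 ≤ b n)
    (hb1 : b 1 = 0) (h : D a = a * b) (n : ℕ) : 0 ≤ a n := by
  induction n using Nat.strong_induction_on with
  | _ n ih =>
    rcases eq_or_ne n 0 with rfl | hn0
    · simp
    rcases eq_or_ne n 1 with rfl | hn1
    · exact h1
    have h2 : (1 : ℝ) < n := by
      exact_mod_cast (by omega : 1 < n)
    have hlog : 0 < Real.log n := Real.log_pos h2
    have h3 : a n * ((Real.log n : ℝ) : ℂ) = (a * b) n := by rw [← h, D_apply]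
    have h4 : 0 ≤ (a * b) n := by
      rw [ArithmeticFunction.mul_apply]
      refine Finset.sum_nonneg fun p hp => ?_
      obtain ⟨h5, h6⟩ := Nat.mem_divisorsAntidiagonal.mp hp
      rcases eq_or_ne p.2 1 with hp2 | hp2
      · rw [hp2, hb1, mul_zero]
      · refine mul_nonneg (ih p.1 ?_) (hb _)
        have h7 : p.2 ≠ 0 := by
          rintro h; rw [h, mul_zero] at h5; exact h6 h5.symm
        have h8 : p.1 ≠ 0 := by
          rintro h; rw [h, zero_mul] at h5; exact h6 h5.symm
        rw [← h5]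
        have h9 : 1 < p.2 := by omega
        calc p.1 = p.1 * 1 := (mul_one _).symm
          _ < p.1 * p.2 := Nat.mul_lt_mul_of_pos_left h9 (Nat.pos_of_ne_zero h8)
    have h5 : a n = (a * b) n * (((Real.log n)⁻¹ : ℝ) : ℂ) := by
      rw [← h3, mul_assoc, ← Complex.ofReal_mul, mul_inv_cancel₀ hlog.ne', Complex.ofReal_one,
        mul_one]
    rw [h5]
    exact mul_nonneg h4 (by exact_mod_cast (inv_pos.mpr hlog).le)

lemma chf_mul {q : ℕ} (χ : DirichletCharacter ℂ q) (m n : ℕ) :
    chf χ (m * n) = chf χ m * chf χ n := by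
  simp [chf]

lemma summable_af {f : ℕ → ℂ} (hf : ∀ n, ‖f n‖ ≤ 1) {s : ℂ} (hs : 1 < s.re) :
    LSeriesSummable (fun n => af f n) s := by
  refine LSeriesSummable_of_bounded_of_one_lt_re (m := 1) (fun n hn => ?_) hs
  rw [af_apply f hn]
  exact hf n

lemma LSeries_af (f : ℕ → ℂ) (s : ℂ) : LSeries (fun n => af f n) s = LSeries f s :=
  LSeries_congr (fun hn => af_apply f hn) s

lemma sq_one_values {q : ℕ} {χ : DirichletCharacter ℂ q} (hχ : χ ^ 2 = 1) (n : ℕ) :
    chf χ n = 0 ∨ chf χ n = 1 ∨ chf χ n = -1 :=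
  MulChar.isQuadratic_iff_sq_eq_one.mpr hχ n

end NonnegConv

open NonnegConv

open scoped ComplexOrder

theorem exists_coeff_two {q : ℕ} [NeZero q] (χ : DirichletCharacter ℂ q) (hχ : χ ^ 2 = 1) :
    ∃ a : ℕ → ℂ, (∀ n, 0 ≤ (a n).re ∧ (a n).im = 0) ∧ a 1 = 1 ∧
      LSeries.abscissaOfAbsConv a ≤ 1 ∧
      ∀ s : ℂ, 1 < s.re → riemannZeta s * DirichletCharacter.LFunction χ s = LSeries a s := by
  have hone : ∀ n : ℕ, ‖(1 : ℕ → ℂ) n‖ ≤ 1 := fun n => by simp
  have hsum : ∀ s : ℂ, 1 < s.re →
      LSeriesSummable (fun n => (af 1 * af (chf χ)) n) s := fun s hs =>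
    ArithmeticFunction.LSeriesSummable_mul (summable_af hone hs)
      (summable_af (norm_chf_le χ) hs)
  refine ⟨fun n => (af 1 * af (chf χ)) n, ?_, ?_, ?_, ?_⟩
  · have hD : D (af 1 * af (chf χ)) =
        (af 1 * af (chf χ)) * (af (lam 1) + af (lam (chf χ))) := by
      rw [D_mul, D_af (f := 1) (by intro m n; simp), D_af (chf_mul χ)]
      ring
    have h0 : ∀ n, (0:ℂ) ≤ (af 1 * af (chf χ)) n := by
      refine nonneg_of_D ?_ ?_ ?_ hD
      · simp [ArithmeticFunction.mul_apply, af_apply, chf]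
      · intro n
        rw [ArithmeticFunction.add_apply]
        rcases eq_or_ne n 0 with rfl | hn
        · simp
        rw [af_apply _ hn, af_apply _ hn, lam, lam]
        have hΛ : (0:ℝ) ≤ ArithmeticFunction.vonMangoldt n :=
          ArithmeticFunction.vonMangoldt_nonneg
        have hΛ' : (0:ℂ) ≤ ((ArithmeticFunction.vonMangoldt n : ℝ) : ℂ) := by exact_mod_cast hΛ
        have hfac : (1 : ℕ → ℂ) n * ((ArithmeticFunction.vonMangoldt n : ℝ) : ℂ) +
            chf χ n * ((ArithmeticFunction.vonMangoldt n : ℝ) : ℂ) =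
            (1 + chf χ n) * ((ArithmeticFunction.vonMangoldt n : ℝ) : ℂ) := by
          rw [Pi.one_apply]; ring
        rw [hfac]
        refine mul_nonneg ?_ hΛ'
        rcases sq_one_values hχ n with h | h | h <;> rw [h] <;> norm_num
      · rw [ArithmeticFunction.add_apply, af_apply _ one_ne_zero, af_apply _ one_ne_zero, lam, lam]
        simp
    intro n
    have := h0 n
    rw [Complex.le_def] at this
    exact ⟨by simpa using this.1, by simpa using this.2.symm⟩
  · simp [ArithmeticFunction.mul_apply, af_apply, chf]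
  · refine LSeries.abscissaOfAbsConv_le_of_forall_lt_LSeriesSummable fun y hy => ?_
    exact hsum y (by simpa using hy)
  · intro s hs
    rw [ArithmeticFunction.LSeries_mul' (summable_af hone hs) (summable_af (norm_chf_le χ) hs),
      LSeries_af, LSeries_af, LSeries_one_eq_riemannZeta hs,
      DirichletCharacter.LFunction_eq_LSeries χ hs]
    rfl

theorem exists_coeff_four {q : ℕ} [NeZero q] (χ ψ : DirichletCharacter ℂ q)
    (hχ : χ ^ 2 = 1) (hψ : ψ ^ 2 = 1) :
    ∃ a : ℕ → ℂ, (∀ n, 0 ≤ (a n).re ∧ (a n).im = 0) ∧ a 1 = 1 ∧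
      LSeries.abscissaOfAbsConv a ≤ 1 ∧
      ∀ s : ℂ, 1 < s.re → riemannZeta s * (DirichletCharacter.LFunction χ s *
        DirichletCharacter.LFunction ψ s * DirichletCharacter.LFunction (χ * ψ) s)
        = LSeries a s := by
  have hone : ∀ n : ℕ, ‖(1 : ℕ → ℂ) n‖ ≤ 1 := fun n => by simp
  have hs1 : ∀ s : ℂ, 1 < s.re → LSeriesSummable (fun n => (af 1) n) s :=
    fun s hs => summable_af hone hs
  have hs2 : ∀ s : ℂ, 1 < s.re → LSeriesSummable (fun n => (af (chf χ)) n) s :=
    fun s hs => summable_af (norm_chf_le χ) hs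
  have hs3 : ∀ s : ℂ, 1 < s.re → LSeriesSummable (fun n => (af (chf ψ)) n) s :=
    fun s hs => summable_af (norm_chf_le ψ) hs
  have hs4 : ∀ s : ℂ, 1 < s.re → LSeriesSummable (fun n => (af (chf (χ * ψ))) n) s :=
    fun s hs => summable_af (norm_chf_le (χ * ψ)) hs
  have hs23 : ∀ s : ℂ, 1 < s.re → LSeriesSummable (fun n => (af (chf χ) * af (chf ψ)) n) s :=
    fun s hs => ArithmeticFunction.LSeriesSummable_mul (hs2 s hs) (hs3 s hs)
  have hs234 : ∀ s : ℂ, 1 < s.re →
      LSeriesSummable (fun n => (af (chf χ) * af (chf ψ) * af (chf (χ * ψ))) n) s :=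
    fun s hs => ArithmeticFunction.LSeriesSummable_mul (hs23 s hs) (hs4 s hs)
  have hsum : ∀ s : ℂ, 1 < s.re →
      LSeriesSummable (fun n => (af 1 * (af (chf χ) * af (chf ψ) * af (chf (χ * ψ)))) n) s :=
    fun s hs => ArithmeticFunction.LSeriesSummable_mul (hs1 s hs) (hs234 s hs)
  have hv1 : (af 1 * (af (chf χ) * af (chf ψ) * af (chf (χ * ψ)))) 1 = 1 := by
    simp [ArithmeticFunction.mul_apply, af_apply, chf]
  refine ⟨fun n => (af 1 * (af (chf χ) * af (chf ψ) * af (chf (χ * ψ)))) n, ?_, hv1, ?_, ?_⟩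
  · have hD : D (af 1 * (af (chf χ) * af (chf ψ) * af (chf (χ * ψ)))) =
        (af 1 * (af (chf χ) * af (chf ψ) * af (chf (χ * ψ)))) *
          (af (lam 1) + (af (lam (chf χ)) + af (lam (chf ψ)) + af (lam (chf (χ * ψ))))) := by
      rw [D_mul, D_mul, D_mul, D_af (f := 1) (by intro m n; simp), D_af (chf_mul χ),
        D_af (chf_mul ψ), D_af (chf_mul (χ * ψ))]
      ring
    have h0 : ∀ n, (0:ℂ) ≤ (af 1 * (af (chf χ) * af (chf ψ) * af (chf (χ * ψ)))) n := by
      refine nonneg_of_D ?_ ?_ ?_ hD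
      · rw [hv1]; exact zero_le_one
      · intro n
        rw [ArithmeticFunction.add_apply, ArithmeticFunction.add_apply,
          ArithmeticFunction.add_apply]
        rcases eq_or_ne n 0 with rfl | hn
        · simp
        rw [af_apply _ hn, af_apply _ hn, af_apply _ hn, af_apply _ hn, lam, lam, lam, lam]
        have hΛ : (0:ℝ) ≤ ArithmeticFunction.vonMangoldt n :=
          ArithmeticFunction.vonMangoldt_nonneg
        have hΛ' : (0:ℂ) ≤ ((ArithmeticFunction.vonMangoldt n : ℝ) : ℂ) := by exact_mod_cast hΛ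
        have hm : chf (χ * ψ) n = chf χ n * chf ψ n := by simp [chf]
        have hfac : (1 : ℕ → ℂ) n * ((ArithmeticFunction.vonMangoldt n : ℝ) : ℂ) +
            (chf χ n * ((ArithmeticFunction.vonMangoldt n : ℝ) : ℂ) +
              chf ψ n * ((ArithmeticFunction.vonMangoldt n : ℝ) : ℂ) +
              chf (χ * ψ) n * ((ArithmeticFunction.vonMangoldt n : ℝ) : ℂ)) =
            (1 + chf χ n) * (1 + chf ψ n) * ((ArithmeticFunction.vonMangoldt n : ℝ) : ℂ) := by
          rw [hm, Pi.one_apply]; ring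
        rw [hfac]
        refine mul_nonneg (mul_nonneg ?_ ?_) hΛ'
        · rcases sq_one_values hχ n with h | h | h <;> rw [h] <;> norm_num
        · rcases sq_one_values hψ n with h | h | h <;> rw [h] <;> norm_num
      · rw [ArithmeticFunction.add_apply, ArithmeticFunction.add_apply,
          ArithmeticFunction.add_apply, af_apply _ one_ne_zero, af_apply _ one_ne_zero,
          af_apply _ one_ne_zero, af_apply _ one_ne_zero, lam, lam, lam, lam]
        simp
    intro n
    have := h0 n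
    rw [Complex.le_def] at this
    exact ⟨by simpa using this.1, by simpa using this.2.symm⟩
  · refine LSeries.abscissaOfAbsConv_le_of_forall_lt_LSeriesSummable fun y hy => ?_
    exact hsum y (by simpa using hy)
  · intro s hs
    rw [ArithmeticFunction.LSeries_mul' (hs1 s hs) (hs234 s hs),
      ArithmeticFunction.LSeries_mul' (hs23 s hs) (hs4 s hs),
      ArithmeticFunction.LSeries_mul' (hs2 s hs) (hs3 s hs),
      LSeries_af, LSeries_af, LSeries_af, LSeries_af, LSeries_one_eq_riemannZeta hs,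
      DirichletCharacter.LFunction_eq_LSeries χ hs, DirichletCharacter.LFunction_eq_LSeries ψ hs,
      DirichletCharacter.LFunction_eq_LSeries (χ * ψ) hs]
    rfl

end Pool.Agent.Lib.SW
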