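import Pool.Agent.Lib.SW.HalfPlane
import Pool.Agent.Lib.SW.EstermannZeta
import Pool.Agent.Lib.SW.NonnegConv
import Pool.Agent.Lib.SW.LevelCompare
import Pool.Agent.Lib.SW.CharUpper

/-!
# Siegel's theorem: L(1,χ) >= c(eps) q^(-eps) for real nonprincipal χ
-/

open Complex DirichletCharacter

namespace Pool.Agent.Lib.SW

/-- The product of `1 + 1/p` over a finite set of naturals at least two. -/
lemma Siegel.prod_one_add_le (S : Finset ℕ) (h : ∀ p ∈ S, 2 ≤ p) :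
    ∏ p ∈ S, (1 + 1/(p:ℝ)) ≤ S.card + 1 := by
  induction S using Finset.induction_on_max with
  | empty => simp
  | insert a S hmax ih =>
    have ha : a ∉ S := fun h' => lt_irrefl _ (hmax a h')
    have ih' := ih (fun p hp => h p (Finset.mem_insert_of_mem hp))
    rw [Finset.prod_insert ha, Finset.card_insert_of_notMem ha]
    have hsub : S ⊆ Finset.Ico 2 a := by
      intro x hx
      exact Finset.mem_Ico.2 ⟨h x (Finset.mem_insert_of_mem hx), hmax x hx⟩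
    have hcard : S.card ≤ a - 2 := by
      simpa using Finset.card_le_card hsub
    have ha2 : 2 ≤ a := h a (Finset.mem_insert_self _ _)
    have hcard' : (S.card : ℝ) + 2 ≤ a := by
      have : S.card + 2 ≤ a := by omega
      exact_mod_cast this
    have ha0 : (0:ℝ) < a := by positivity
    have h1 : (1 + 1/(a:ℝ)) * ∏ p ∈ S, (1 + 1/(p:ℝ)) ≤ (1 + 1/(a:ℝ)) * (S.card + 1) :=
      mul_le_mul_of_nonneg_left ih' (by positivity)
    refine h1.trans ?_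
    have h2 : ((S.card:ℝ) + 1) / a ≤ 1 := by
      rw [div_le_one ha0]; linarith
    have h3 : (1 + 1/(a:ℝ)) * (S.card + 1) = S.card + 1 + ((S.card:ℝ) + 1) / a := by
      field_simp
    rw [h3]; push_cast; linarith only [h2]

lemma Siegel.card_primeFactors_le (n : ℕ) (hn : n ≠ 0) :
    (n.primeFactors.card : ℝ) ≤ Real.log n / Real.log 2 := by
  have h1 : 2 ^ n.primeFactors.card ≤ ∏ p ∈ n.primeFactors, p := by
    apply Finset.pow_card_le_prod
    intro p hp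
    exact (Nat.prime_of_mem_primeFactors hp).two_le
  have h2 : ∏ p ∈ n.primeFactors, p ≤ n :=
    Nat.le_of_dvd (Nat.pos_of_ne_zero hn) (Nat.prod_primeFactors_dvd n)
  have h3 : (2:ℝ) ^ n.primeFactors.card ≤ n := by exact_mod_cast h1.trans h2
  have h4 := Real.log_le_log (by positivity) h3
  rw [Real.log_pow] at h4
  rw [le_div_iff₀ (Real.log_pos one_lt_two)]
  exact h4

/-- Upper bound at one. -/
lemma Siegel.upper_one : ∃ C : ℝ, 0 < C ∧ ∀ (q : ℕ) [NeZero q] (χ : DirichletCharacter ℂ q),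
    χ ≠ 1 → ‖LFunction χ 1‖ ≤ C * Real.log (3 * q) := by
  obtain ⟨C, hC, h⟩ := Lm_chf_bound 0
  refine ⟨C, hC, ?_⟩
  intro q _ χ hχ
  have hcont : Continuous fun t : ℝ => ‖LFunction χ (t:ℂ)‖ :=
    ((differentiable_LFunction hχ).continuous.comp continuous_ofReal).norm
  have hlim : Filter.Tendsto (fun t : ℝ => ‖LFunction χ (t:ℂ)‖) (nhdsWithin 1 (Set.Ioi 1))
      (nhds ‖LFunction χ ((1:ℝ):ℂ)‖) := (hcont.tendsto 1).mono_left nhdsWithin_le_nhds
  have h1 : ‖LFunction χ ((1:ℝ):ℂ)‖ ≤ C * Real.log (3 * q) := by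
    refine le_of_tendsto hlim ?_
    have h2 : Set.Ioo (1:ℝ) 2 ∈ nhdsWithin (1:ℝ) (Set.Ioi 1) :=
      Ioo_mem_nhdsGT one_lt_two
    filter_upwards [h2] with t ht
    have h3 := h q χ hχ (t:ℂ) (by simpa using ht.1) (by simpa using ht.2.le)
    rw [Lm_chf_zero χ (by simpa using ht.1)] at h3
    have h4 : ell q (t:ℂ) = Real.log (3 * q) := by
      simp [ell, mul_comm]
    rw [h4] at h3
    simpa using h3
  simpa using h1

lemma Siegel.changeLevel_le {M N : ℕ} [NeZero M] [NeZero N] (hMN : M ∣ N)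
    (χ : DirichletCharacter ℂ M) (hχ : χ ≠ 1) :
    ‖LFunction (changeLevel hMN χ) 1‖ ≤
      ‖LFunction χ 1‖ * (1 + Real.log N / Real.log 2) := by
  rw [LFunction_changeLevel hMN χ (Or.inl hχ), norm_mul]
  apply mul_le_mul_of_nonneg_left _ (norm_nonneg _)
  have h1 : ‖∏ p ∈ N.primeFactors, (1 - χ p * (p:ℂ) ^ (-(1:ℂ)))‖ ≤
      ∏ p ∈ N.primeFactors, (1 + 1/(p:ℝ)) := by
    rw [norm_prod]
    apply Finset.prod_le_prod (fun _ _ => norm_nonneg _)
    intro p _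
    refine (norm_sub_le _ _).trans ?_
    rw [norm_one, norm_mul, cpow_neg_one, norm_inv, norm_natCast]
    have := χ.norm_le_one (p : ZMod M)
    have h0 : (0:ℝ) ≤ (p:ℝ)⁻¹ := by positivity
    rw [one_div]
    nlinarith only [this, h0]
  refine h1.trans ((Siegel.prod_one_add_le _ ?_).trans ?_)
  · intro p hp
    exact (Nat.prime_of_mem_primeFactors hp).two_le
  · have := Siegel.card_primeFactors_le N (NeZero.ne N)
    linarith

/-- The zeta function is negative to the left of one. -/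
lemma Siegel.zeta_neg : ∃ δ : ℝ, 0 < δ ∧ ∀ β : ℝ, 1 - δ < β → β < 1 →
    (riemannZeta β).re < 0 := by
  have h := riemannZeta_residue_one
  have h1 : ∀ᶠ s : ℂ in nhdsWithin 1 {1}ᶜ, (1/2:ℝ) < ((s - 1) * riemannZeta s).re := by
    have h2 : Filter.Tendsto (fun s : ℂ => ((s - 1) * riemannZeta s).re) (nhdsWithin 1 {1}ᶜ)
        (nhds (1:ℂ).re) := (continuous_re.tendsto 1).comp h
    apply h2.eventually_const_lt
    norm_num
  rw [eventually_nhdsWithin_iff, Metric.eventually_nhds_iff] at h1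
  obtain ⟨δ, hδ, h1⟩ := h1
  refine ⟨δ, hδ, ?_⟩
  intro β hb1 hb2
  have h3 := h1 (y := (β:ℂ)) (by
    rw [dist_eq, ← ofReal_one, ← ofReal_sub, norm_real, Real.norm_eq_abs, abs_lt]
    constructor <;> linarith) (by
      simp only [Set.mem_compl_iff, Set.mem_singleton_iff]
      intro h'
      have : β = 1 := by exact_mod_cast h'
      linarith)
  have h4 : (((β:ℂ) - 1) * riemannZeta β).re = (β - 1) * (riemannZeta β).re := by
    rw [← ofReal_one, ← ofReal_sub, re_ofReal_mul]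
  rw [h4] at h3
  by_contra h5
  push Not at h5
  nlinarith only [hb2, h3, h5]

lemma Siegel.re_mul {a b : ℂ} (hb : b.im = 0) : (a * b).re = a.re * b.re := by
  simp [mul_re, hb]

lemma Siegel.caseA (ε : ℝ) (δ : ℝ) (hδ0 : 0 < δ) (hδ1 : δ ≤ 1/8) (hδε : 4 * δ ≤ ε)
    (hz : (riemannZeta ((1 - δ : ℝ) : ℂ)).re < 0)
    (hA : ∀ (q : ℕ) [NeZero q] (χ : DirichletCharacter ℂ q), χ ≠ 1 → χ ^ 2 = 1 →
      ∀ σ : ℝ, 1 - δ ≤ σ → σ < 1 → LFunction χ σ ≠ 0) :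
    ∃ c : ℝ, 0 < c ∧ ∀ (q : ℕ) [NeZero q]
    (χ : DirichletCharacter ℂ q), χ ≠ 1 → χ ^ 2 = 1 → c * (q:ℝ) ^ (-ε) ≤ ‖LFunction χ 1‖ := by
  obtain ⟨c, hc, h⟩ := estermann_zeta
  refine ⟨c * δ * (8:ℝ) ^ (-(4 * δ)), by positivity, ?_⟩
  intro q _ χ hχ h2
  obtain ⟨a, ha0, ha1, ha2, ha3⟩ := exists_coeff_two χ h2
  have hq : (1:ℝ) ≤ q := by
    have : 1 ≤ q := Nat.one_le_iff_ne_zero.2 (NeZero.ne q)
    exact_mod_cast this
  have hpos1 : 0 < (LFunction χ 1).re := LFunction_one_pos χ hχ h2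
  have hreal : ∀ σ : ℝ, 0 < σ → (LFunction χ σ).im = 0 := fun σ hσ => LFunction_real χ hχ h2 σ hσ
  have hcont : Continuous fun t : ℝ => (LFunction χ (t:ℂ)).re :=
    continuous_re.comp ((differentiable_LFunction hχ).continuous.comp continuous_ofReal)
  have hne : ∀ σ ∈ Set.Icc (1 - δ) 1, (LFunction χ (σ:ℂ)).re ≠ 0 := by
    intro σ hσ h0
    rcases lt_or_eq_of_le hσ.2 with h3 | h3
    · apply hA q χ hχ h2 σ hσ.1 h3
      apply Complex.ext
      · simpa using h0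
      · simpa using hreal σ (by linarith only [hδ0, hδ1, hσ, hσ.1])
    · rw [h3] at h0
      rw [ofReal_one] at h0
      exact hpos1.ne' h0
  have hposβ : 0 < (LFunction χ ((1 - δ : ℝ):ℂ)).re := by
    by_contra hcon
    push Not at hcon
    have h5 : (0:ℝ) ∈ Set.Icc ((fun t : ℝ => (LFunction χ (t:ℂ)).re) (1 - δ))
        ((fun t : ℝ => (LFunction χ (t:ℂ)).re) 1) := by
      refine ⟨hcon, ?_⟩
      simp only [ofReal_one]
      exact hpos1.le
    obtain ⟨σ, hσ, hσ0⟩ := intermediate_value_Icc (by linarith only [hδ0] : (1 - δ) ≤ (1:ℝ))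
      hcont.continuousOn h5
    exact hne σ hσ hσ0
  have hmain := h a (LFunction χ) (8 * q) (by linarith only [hδ0, hδ1, hq]) ha0 ha1 ha2
    (differentiable_LFunction hχ) (by
      intro s hs1 hs2
      refine (LFunction_bound χ hχ s hs1).trans ?_
      have : (2:ℝ) * q * ‖s‖ ≤ 2 * q * 4 := by
        apply mul_le_mul_of_nonneg_left hs2 (by positivity)
      linarith only [this]) ha3 (by
        have := hreal 1 one_pos
        simpa using this) hpos1.le (1 - δ) (by linarith only [hδ1]) (by linarith only [hδ0]) (by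
        rw [Siegel.re_mul (hreal (1 - δ) (by linarith only [hδ0, hδ1]))]
        exact (mul_neg_of_neg_of_pos hz hposβ).le)
  rw [sub_sub_cancel] at hmain
  have h6 : (LFunction χ 1).re ≤ ‖LFunction χ 1‖ := re_le_norm _
  refine le_trans ?_ (hmain.trans h6)
  rw [Real.mul_rpow (by norm_num) (by positivity), ← mul_assoc]
  apply mul_le_mul_of_nonneg_left _ (by positivity)
  apply Real.rpow_le_rpow_of_exponent_le hq
  linarith only [hδε]

lemma Siegel.caseB (ε : ℝ) (hε : 0 < ε) (δ : ℝ) (hδ0 : 0 < δ) (hδ1 : δ ≤ 1/8)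
    (hδε : 50 * δ ≤ ε) {q₁ : ℕ} [NeZero q₁] (χ₁ : DirichletCharacter ℂ q₁) (h₁ : χ₁ ≠ 1)
    (hr₁ : χ₁ ^ 2 = 1) (β : ℝ) (hβ1 : 1 - δ ≤ β) (hβ2 : β < 1) (hL : LFunction χ₁ β = 0) :
    ∃ c : ℝ, 0 < c ∧ ∀ (q : ℕ) [NeZero q]
    (χ : DirichletCharacter ℂ q), χ ≠ 1 → χ ^ 2 = 1 → c * (q:ℝ) ^ (-ε) ≤ ‖LFunction χ 1‖ := by
  obtain ⟨c₀, hc₀, hcomp⟩ := compare_level χ₁ h₁ hr₁
  obtain ⟨c₁, hc₁, hest⟩ := estermann_zeta
  obtain ⟨C, hC, hup⟩ := Siegel.upper_one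
  set η : ℝ := ε / 4 with hη
  have hη0 : 0 < η := by positivity
  have hlog2 : 0 < Real.log 2 := Real.log_pos one_lt_two
  set K1 : ℝ := (3:ℝ) ^ η / η with hK1
  set K2 : ℝ := 1 + 1 / (η * Real.log 2) with hK2
  have hK1p : 0 < K1 := by positivity
  have hK2p : 0 < K2 := by positivity
  have hq₁ : (1:ℝ) ≤ q₁ := by
    have : 1 ≤ q₁ := Nat.one_le_iff_ne_zero.2 (NeZero.ne q₁)
    exact_mod_cast this
  have h1β : 0 < 1 - β := by linarith only [hβ2]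
  set c₂ : ℝ := c₁ * (1 - β) * (512:ℝ) ^ (-(4 * δ)) / (C * K1 * (C * K1) * K2) with hc₂
  have hc₂p : 0 < c₂ := by (clear * - hε hβ2 hc₁ hC; positivity)
  refine ⟨min (c₀ / (1 + 1/ε)) (c₂ * (q₁:ℝ) ^ (-ε)), by (clear * - hε hβ2 hc₀ hc₁ hC hq₁; positivity), ?_⟩
  intro q₂ _ χ₂ h₂ hr₂
  have hq₂ : (1:ℝ) ≤ q₂ := by
    have : 1 ≤ q₂ := Nat.one_le_iff_ne_zero.2 (NeZero.ne q₂)
    exact_mod_cast this
  have hq₂p : (0:ℝ) < q₂ := by linarith only [hδ0, hδ1, hq₂]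
  by_cases hprod : changeLevel (Nat.dvd_mul_right q₁ q₂) χ₁ *
      changeLevel (Nat.dvd_mul_left q₂ q₁) χ₂ = 1
  · have h3 := hcomp q₂ χ₂ h₂ hr₂ hprod
    refine le_trans ?_ h3
    have h4 : Real.log q₂ ≤ (q₂:ℝ) ^ ε / ε := Real.log_le_rpow_div (by (clear * - hq₂; positivity)) hε
    have h5 : (1:ℝ) ≤ (q₂:ℝ) ^ ε := Real.one_le_rpow hq₂ hε.le
    have h6 : 1 + Real.log q₂ ≤ (1 + 1/ε) * (q₂:ℝ) ^ ε := by
      have : (1 + 1/ε) * (q₂:ℝ) ^ ε = (q₂:ℝ) ^ ε + (q₂:ℝ) ^ ε / ε := by ring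
      linarith only [h4, h5, this]
    have hl : 0 ≤ Real.log q₂ := Real.log_nonneg hq₂
    calc min (c₀ / (1 + 1/ε)) (c₂ * (q₁:ℝ) ^ (-ε)) * (q₂:ℝ) ^ (-ε)
        ≤ (c₀ / (1 + 1/ε)) * (q₂:ℝ) ^ (-ε) :=
          mul_le_mul_of_nonneg_right (min_le_left _ _) (by (clear * - hq₂; positivity))
      _ = c₀ / ((1 + 1/ε) * (q₂:ℝ) ^ ε) := by
          rw [Real.rpow_neg hq₂p.le]; field_simp
      _ ≤ c₀ / (1 + Real.log q₂) := by
          apply div_le_div_of_nonneg_left hc₀.le (by linarith only [hδ0, hδ1, hl]) h6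
  · have : NeZero (q₁ * q₂) := ⟨Nat.mul_ne_zero (NeZero.ne _) (NeZero.ne _)⟩
    set ψ₁ := changeLevel (Nat.dvd_mul_right q₁ q₂) χ₁ with hψ₁
    set ψ₂ := changeLevel (Nat.dvd_mul_left q₂ q₁) χ₂ with hψ₂
    have hn₁ : ψ₁ ≠ 1 := fun h => h₁ ((changeLevel_eq_one_iff _).1 h)
    have hn₂ : ψ₂ ≠ 1 := fun h => h₂ ((changeLevel_eq_one_iff _).1 h)
    have hs₁ : ψ₁ ^ 2 = 1 := by rw [hψ₁, ← map_pow, hr₁, map_one]
    have hs₂ : ψ₂ ^ 2 = 1 := by rw [hψ₂, ← map_pow, hr₂, map_one]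
    have hs₃ : (ψ₁ * ψ₂) ^ 2 = 1 := by rw [mul_pow, hs₁, hs₂, one_mul]
    set Q : ℝ := ((q₁ * q₂ : ℕ) : ℝ) with hQ
    have hQ1 : 1 ≤ Q := by
      rw [hQ]; push_cast
      nlinarith only [hq₁, hq₂]
    have hQ0 : 0 < Q := by linarith only [hδ0, hδ1, hQ1]
    obtain ⟨a, ha0, ha1, ha2, ha3⟩ := exists_coeff_four ψ₁ ψ₂ hs₁ hs₂
    set H : ℂ → ℂ := fun s => LFunction ψ₁ s * LFunction ψ₂ s * LFunction (ψ₁ * ψ₂) s with hH
    have hHd : Differentiable ℂ H :=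
      ((differentiable_LFunction hn₁).mul (differentiable_LFunction hn₂)).mul
        (differentiable_LFunction hprod)
    have hb : ∀ (χ : DirichletCharacter ℂ (q₁ * q₂)), χ ≠ 1 → ∀ s : ℂ, 1/2 ≤ s.re → ‖s‖ ≤ 4 →
        ‖LFunction χ s‖ ≤ 8 * Q := by
      intro χ hχ s hs1 hs2
      refine (LFunction_bound χ hχ s hs1).trans ?_
      have : (2:ℝ) * ((q₁ * q₂ : ℕ) : ℝ) * ‖s‖ ≤ 2 * ((q₁ * q₂ : ℕ) : ℝ) * 4 := by
        apply mul_le_mul_of_nonneg_left hs2 (by (clear * - hQ1; positivity))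
      linarith only [this]
    have hHb : ∀ s : ℂ, 1/2 ≤ s.re → ‖s‖ ≤ 4 → ‖H s‖ ≤ (8 * Q) ^ 3 := by
      intro s hs1 hs2
      simp only [hH, norm_mul]
      have e1 := hb ψ₁ hn₁ s hs1 hs2
      have e2 := hb ψ₂ hn₂ s hs1 hs2
      have e3 := hb (ψ₁ * ψ₂) hprod s hs1 hs2
      calc ‖LFunction ψ₁ s‖ * ‖LFunction ψ₂ s‖ * ‖LFunction (ψ₁ * ψ₂) s‖
          ≤ (8 * Q) * (8 * Q) * (8 * Q) := by gcongr
        _ = (8 * Q) ^ 3 := by ring
    have hr : ∀ (χ : DirichletCharacter ℂ (q₁ * q₂)), χ ≠ 1 → χ ^ 2 = 1 →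
        (LFunction χ 1).im = 0 := by
      intro χ hχ h2
      have := LFunction_real χ hχ h2 1 one_pos
      simpa using this
    have i1 := hr ψ₁ hn₁ hs₁
    have i2 := hr ψ₂ hn₂ hs₂
    have i3 := hr (ψ₁ * ψ₂) hprod hs₃
    have p1 := LFunction_one_pos ψ₁ hn₁ hs₁
    have p2 := LFunction_one_pos ψ₂ hn₂ hs₂
    have p3 := LFunction_one_pos (ψ₁ * ψ₂) hprod hs₃
    have hH1im : (H 1).im = 0 := by
      simp only [hH, mul_im, mul_re, i1, i2, i3]; ring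
    have hH1re : 0 ≤ (H 1).re := by
      simp only [hH]
      rw [Siegel.re_mul i3, Siegel.re_mul i2]
      (clear * - this p1 p2 p3; positivity)
    have hβc : (β:ℂ) ≠ 1 := by
      intro h'
      have : β = 1 := by exact_mod_cast h'
      linarith only [hβ2, this]
    have hHβ : H β = 0 := by
      have : LFunction ψ₁ β = 0 := by
        rw [hψ₁, LFunction_changeLevel _ χ₁ (Or.inl h₁), hL, zero_mul]
      simp only [hH, this, zero_mul]
    have h8Q : 1 ≤ (8 * Q) ^ 3 := one_le_pow₀ (by linarith only [hδ0, hδ1, hQ1])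
    have hmain := hest a H ((8 * Q) ^ 3) h8Q ha0 ha1 ha2 hHd hHb ha3 hH1im hH1re β
      (by linarith only [hδ1, hβ1]) hβ2 (by rw [hHβ, mul_zero]; simp)
    have hA : (H 1).re ≤ C * Real.log (3 * Q) * (‖LFunction χ₂ 1‖ *
        (1 + Real.log Q / Real.log 2)) * (C * Real.log (3 * Q)) := by
      refine (re_le_norm _).trans ?_
      simp only [hH, norm_mul]
      have e1 := hup (q₁ * q₂) ψ₁ hn₁
      have e3 := hup (q₁ * q₂) (ψ₁ * ψ₂) hprod
      have e2 := Siegel.changeLevel_le (Nat.dvd_mul_left q₂ q₁) χ₂ h₂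
      rw [← hQ] at e1 e2 e3
      rw [← hψ₂] at e2
      have n1 := norm_nonneg (LFunction ψ₁ 1)
      have n2 := norm_nonneg (LFunction ψ₂ 1)
      have n3 := norm_nonneg (LFunction (ψ₁ * ψ₂) 1)
      apply mul_le_mul _ e3 n3 _
      · exact mul_le_mul e1 e2 n2 (n1.trans e1)
      · exact mul_nonneg (n1.trans e1) (n2.trans e2)
    have hl1 : Real.log (3 * Q) ≤ K1 * Q ^ η := by
      have := Real.log_le_rpow_div (x := 3 * Q) (by (clear * - hQ1; positivity)) hη0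
      rw [Real.mul_rpow (by norm_num) hQ0.le] at this
      calc Real.log (3 * Q) ≤ 3 ^ η * Q ^ η / η := this
        _ = K1 * Q ^ η := by rw [hK1]; ring
    have hQη : 1 ≤ Q ^ η := Real.one_le_rpow hQ1 hη0.le
    have hl2 : 1 + Real.log Q / Real.log 2 ≤ K2 * Q ^ η := by
      have h7 := Real.log_le_rpow_div (x := Q) hQ0.le hη0
      have h8 : Real.log Q / Real.log 2 ≤ Q ^ η / η / Real.log 2 :=
        div_le_div_of_nonneg_right h7 hlog2.le
      have h9 : K2 * Q ^ η = Q ^ η + Q ^ η / η / Real.log 2 := by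
        rw [hK2]; field_simp
      linarith only [hQη, h8, h9]
    have hA2 : (H 1).re ≤ (C * K1 * (C * K1) * K2) * (Q ^ η * Q ^ η * Q ^ η) *
        ‖LFunction χ₂ 1‖ := by
      refine hA.trans ?_
      have hl0 : 0 ≤ Real.log (3 * Q) := Real.log_nonneg (by linarith only [hδ0, hδ1, hQ1])
      have hl0' : 0 ≤ 1 + Real.log Q / Real.log 2 := by
        have : 0 ≤ Real.log Q := Real.log_nonneg hQ1
        (clear * -; positivity)
      calc C * Real.log (3 * Q) * (‖LFunction χ₂ 1‖ *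
        (1 + Real.log Q / Real.log 2)) * (C * Real.log (3 * Q))
          ≤ C * (K1 * Q ^ η) * (‖LFunction χ₂ 1‖ * (K2 * Q ^ η)) * (C * (K1 * Q ^ η)) := by
            gcongr
        _ = _ := by ring
    have hlow : c₁ * (1 - β) * (512:ℝ) ^ (-(4 * δ)) * Q ^ (-(12 * δ)) ≤ (H 1).re := by
      refine le_trans ?_ hmain
      have e1 : ((8 * Q) ^ 3) ^ (-(4 * δ)) ≤ ((8 * Q) ^ 3) ^ (-(4 * (1 - β))) :=
        Real.rpow_le_rpow_of_exponent_le h8Q (by linarith only [hβ1])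
      have e2 : ((8 * Q) ^ 3 : ℝ) ^ (-(4 * δ)) = (512:ℝ) ^ (-(4 * δ)) * Q ^ (-(12 * δ)) := by
        have e3 : (8 * Q) ^ 3 = 512 * Q ^ 3 := by ring
        rw [e3, Real.mul_rpow (by norm_num) (by (clear * - hQ1; positivity)), ← Real.rpow_natCast Q 3,
          ← Real.rpow_mul hQ0.le]
        congr 2
        push_cast; ring
      calc c₁ * (1 - β) * (512:ℝ) ^ (-(4 * δ)) * Q ^ (-(12 * δ))
          = c₁ * (1 - β) * ((8 * Q) ^ 3 : ℝ) ^ (-(4 * δ)) := by rw [e2]; ring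
        _ ≤ _ := mul_le_mul_of_nonneg_left e1 (by (clear * - hβ2 hc₁; positivity))
    have hcomb := hlow.trans hA2
    have hQexp : Q ^ (-ε) * (Q ^ η * Q ^ η * Q ^ η) ≤ Q ^ (-(12 * δ)) := by
      rw [← Real.rpow_add hQ0, ← Real.rpow_add hQ0, ← Real.rpow_add hQ0]
      apply Real.rpow_le_rpow_of_exponent_le hQ1
      rw [hη]; linarith only [hδ0, hδε]
    have hfin : c₂ * Q ^ (-ε) ≤ ‖LFunction χ₂ 1‖ := by
      have hDp : 0 < C * K1 * (C * K1) * K2 := by (clear * - hε hC; positivity)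
      have hEp : 0 < Q ^ η * Q ^ η * Q ^ η := by (clear * - hQ1; positivity)
      have h10 : c₁ * (1 - β) * (512:ℝ) ^ (-(4 * δ)) * (Q ^ (-ε) * (Q ^ η * Q ^ η * Q ^ η)) ≤
          (C * K1 * (C * K1) * K2) * (Q ^ η * Q ^ η * Q ^ η) * ‖LFunction χ₂ 1‖ :=
        (mul_le_mul_of_nonneg_left hQexp (by (clear * - hβ2 hc₁; positivity))).trans hcomb
      have h11 : c₁ * (1 - β) * (512:ℝ) ^ (-(4 * δ)) * Q ^ (-ε) ≤
          (C * K1 * (C * K1) * K2) * ‖LFunction χ₂ 1‖ := by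
        apply le_of_mul_le_mul_right _ hEp
        linarith
      rw [hc₂, div_mul_eq_mul_div, div_le_iff₀ hDp]
      linarith
    calc min (c₀ / (1 + 1/ε)) (c₂ * (q₁:ℝ) ^ (-ε)) * (q₂:ℝ) ^ (-ε)
        ≤ (c₂ * (q₁:ℝ) ^ (-ε)) * (q₂:ℝ) ^ (-ε) :=
          mul_le_mul_of_nonneg_right (min_le_right _ _) (by (clear * - hq₂; positivity))
      _ = c₂ * Q ^ (-ε) := by
          rw [hQ]; push_cast
          rw [Real.mul_rpow (by (clear * - hq₁; positivity)) (by (clear * - hq₂; positivity))]; ring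
      _ ≤ _ := hfin

theorem siegel (ε : ℝ) (hε : 0 < ε) : ∃ c : ℝ, 0 < c ∧ ∀ (q : ℕ) [NeZero q]
    (χ : DirichletCharacter ℂ q), χ ≠ 1 → χ ^ 2 = 1 → c * (q:ℝ) ^ (-ε) ≤ ‖LFunction χ 1‖ := by
  obtain ⟨δ₀, hδ₀, hz⟩ := Siegel.zeta_neg
  set δ : ℝ := min (δ₀ / 2) (min (1/8) (ε / 50)) with hδ
  have hδ0 : 0 < δ := by positivity
  have hd1 : δ ≤ δ₀ / 2 := min_le_left _ _
  have hd2 : δ ≤ 1/8 := (min_le_right _ _).trans (min_le_left _ _)
  have hd3 : δ ≤ ε / 50 := (min_le_right _ _).trans (min_le_right _ _)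
  by_cases hA : ∀ (q : ℕ) [NeZero q] (χ : DirichletCharacter ℂ q), χ ≠ 1 → χ ^ 2 = 1 →
      ∀ σ : ℝ, 1 - δ ≤ σ → σ < 1 → LFunction χ σ ≠ 0
  · exact Siegel.caseA ε δ hδ0 hd2 (by linarith) (hz _ (by linarith) (by linarith)) hA
  · push Not at hA
    obtain ⟨q₁, hq₁, χ₁, h₁, hr₁, β, hβ1, hβ2, hL⟩ := hA
    exact Siegel.caseB ε hε δ hδ0 hd2 (by linarith only [hd3]) χ₁ h₁ hr₁ β hβ1 hβ2 hL

end Pool.Agent.Lib.SW
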