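import Mathlib

/-!
# Siegel-Walfisz library: definitions and first lemmas

Everything is done in the half plane `1 < Re s`. The functions `Lm f m` are (up to sign) the
derivatives of the Dirichlet series of `f`.
-/

open Complex

namespace Pool.Agent.Lib.SW

/-- The logarithm of the analytic conductor. -/
noncomputable def ell (Q : ℝ) (s : ℂ) : ℝ := Real.log (Q * (|s.im| + 3))

/-- The sequence `f n * (log n) ^ m`. -/
noncomputable def lg (f : ℕ → ℂ) (m : ℕ) : ℕ → ℂ := fun n => f n * ((Real.log n : ℝ) : ℂ) ^ m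

/-- The Dirichlet series with coefficients `f n * (log n) ^ m`. -/
noncomputable def Lm (f : ℕ → ℂ) (m : ℕ) (s : ℂ) : ℂ := LSeries (lg f m) s

/-- A Dirichlet character as an arithmetic function. -/
noncomputable def chf {q : ℕ} (χ : DirichletCharacter ℂ q) : ℕ → ℂ := fun n => χ (n : ZMod q)

/-- The sequence `f n * Λ n`. -/
noncomputable def lam (f : ℕ → ℂ) : ℕ → ℂ :=
  fun n => f n * ((ArithmeticFunction.vonMangoldt n : ℝ) : ℂ)

/-- The Chebyshev function of the progression `a` modulo `q`. -/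
noncomputable def psiAP (x : ℝ) (q a : ℕ) : ℝ :=
  ∑ n ∈ (Finset.Icc 1 ⌊x⌋₊).filter (fun n => n ≡ a [MOD q]), ArithmeticFunction.vonMangoldt n

/-- The Chebyshev theta function of the progression `a` modulo `q`. -/
noncomputable def thetaAP (x : ℝ) (q a : ℕ) : ℝ :=
  ∑ p ∈ (Finset.Icc 1 ⌊x⌋₊).filter (fun p => p.Prime ∧ p ≡ a [MOD q]), Real.log p

lemma norm_chf_le {q : ℕ} (χ : DirichletCharacter ℂ q) (n : ℕ) : ‖chf χ n‖ ≤ 1 :=
  χ.norm_le_one _

lemma ell_ge {Q : ℝ} (hQ : 1 ≤ Q) (s : ℂ) : 1 ≤ ell Q s := by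
  have h1 : (0:ℝ) ≤ |s.im| := abs_nonneg _
  have h2 : Real.exp 1 ≤ Q * (|s.im| + 3) := by
    have := Real.exp_one_lt_d9
    nlinarith
  have := Real.log_le_log (Real.exp_pos 1) h2
  rwa [Real.log_exp] at this

lemma lg_zero (f : ℕ → ℂ) : lg f 0 = f := by
  funext n; simp [lg]

lemma Lm_zero (f : ℕ → ℂ) (s : ℂ) : Lm f 0 s = LSeries f s := by
  simp [Lm, lg_zero]

lemma lg_eq_iterate (f : ℕ → ℂ) (m : ℕ) : lg f m = LSeries.logMul^[m] f := by
  induction m with
  | zero => simp [lg_zero]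
  | succ m ih =>
    rw [Function.iterate_succ', Function.comp_apply, ← ih]
    funext n
    simp only [lg, LSeries.logMul, ← Complex.natCast_log]
    ring

lemma logMul_lg (f : ℕ → ℂ) (m : ℕ) : LSeries.logMul (lg f m) = lg f (m+1) := by
  rw [lg_eq_iterate, lg_eq_iterate, Function.iterate_succ', Function.comp_apply]

/-- The abscissa of absolute convergence of a bounded sequence times a power of the logarithm. -/
lemma abscissa_le_one {f : ℕ → ℂ} (hf : ∀ n, ‖f n‖ ≤ 1) :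
    LSeries.abscissaOfAbsConv f ≤ 1 := by
  refine LSeries.abscissaOfAbsConv_le_of_le_const ⟨1, fun n _ => hf n⟩

lemma abscissa_le_one' {f : ℕ → ℂ} {C : ℝ} (hf : ∀ n, ‖f n‖ ≤ C) :
    LSeries.abscissaOfAbsConv f ≤ 1 := by
  refine LSeries.abscissaOfAbsConv_le_of_le_const ⟨C, fun n _ => hf n⟩

lemma abscissa_lg (f : ℕ → ℂ) (m : ℕ) :
    LSeries.abscissaOfAbsConv (lg f m) = LSeries.abscissaOfAbsConv f := by
  rw [lg_eq_iterate, LSeries.absicssaOfAbsConv_logPowMul]

/-- Summability of the series for `lg f m` when `f` has abscissa at most one. -/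
lemma lg_summable {f : ℕ → ℂ} (hf : LSeries.abscissaOfAbsConv f ≤ 1) (m : ℕ) {s : ℂ}
    (hs : 1 < s.re) : LSeriesSummable (lg f m) s := by
  apply LSeriesSummable_of_abscissaOfAbsConv_lt_re
  rw [abscissa_lg]
  exact lt_of_le_of_lt hf (by exact_mod_cast hs)

/-- The derivative of `Lm f m` is `- Lm f (m+1)`. -/
lemma Lm_hasDerivAt {f : ℕ → ℂ} (hf : LSeries.abscissaOfAbsConv f ≤ 1) (m : ℕ) {s : ℂ}
    (hs : 1 < s.re) : HasDerivAt (Lm f m) (-(Lm f (m+1) s)) s := by
  have h : LSeries.abscissaOfAbsConv (lg f m) < s.re := by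
    rw [abscissa_lg]
    exact lt_of_le_of_lt hf (by exact_mod_cast hs)
  have := LSeries_hasDerivAt h
  rwa [logMul_lg] at this

lemma abscissa_lam {f : ℕ → ℂ} (hf : ∀ n, ‖f n‖ ≤ 1) :
    LSeries.abscissaOfAbsConv (lam f) ≤ 1 := by
  apply LSeries.abscissaOfAbsConv_le_of_forall_lt_LSeriesSummable
  intro y hy
  have h1 : LSeriesSummable (fun n => ((ArithmeticFunction.vonMangoldt n : ℝ) : ℂ)) (y:ℂ) :=
    ArithmeticFunction.LSeriesSummable_vonMangoldt (by simpa using hy)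
  refine (h1.norm).of_norm_bounded ?_
  intro n
  rcases eq_or_ne n 0 with rfl | hn
  · simp
  · rw [LSeries.term_of_ne_zero hn, LSeries.term_of_ne_zero hn, lam]
    rw [norm_div, norm_div, norm_mul]
    apply div_le_div_of_nonneg_right _ (norm_nonneg _)
    calc ‖f n‖ * ‖((ArithmeticFunction.vonMangoldt n : ℝ) : ℂ)‖
        ≤ 1 * ‖((ArithmeticFunction.vonMangoldt n : ℝ) : ℂ)‖ := by
          apply mul_le_mul_of_nonneg_right (hf n) (norm_nonneg _)
      _ = _ := one_mul _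

lemma abscissa_chf {q : ℕ} (χ : DirichletCharacter ℂ q) :
    LSeries.abscissaOfAbsConv (chf χ) ≤ 1 := abscissa_le_one (norm_chf_le χ)

lemma abscissa_lam_chf {q : ℕ} (χ : DirichletCharacter ℂ q) :
    LSeries.abscissaOfAbsConv (lam (chf χ)) ≤ 1 := abscissa_lam (norm_chf_le χ)

lemma Lm_chf_zero {q : ℕ} [NeZero q] (χ : DirichletCharacter ℂ q) {s : ℂ} (hs : 1 < s.re) :
    Lm (chf χ) 0 s = DirichletCharacter.LFunction χ s := by
  rw [Lm_zero, DirichletCharacter.LFunction_eq_LSeries χ hs]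
  rfl

lemma Lm_chf_ne_zero {q : ℕ} [NeZero q] (χ : DirichletCharacter ℂ q) {s : ℂ} (hs : 1 < s.re) :
    Lm (chf χ) 0 s ≠ 0 := by
  rw [Lm_zero]
  exact DirichletCharacter.LSeries_ne_zero_of_one_lt_re χ hs

end Pool.Agent.Lib.SW
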