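import Mathlib

/-!
# Estermann's lemma (abstract form)

G is holomorphic on the ball of centre 2 and radius 7/4, so for β in [7/8,1)
G(β) = sum_m c_m (2-β)^m with c_m = (-1)^m G^(m)(2)/m!. By the formula for G in Re s > 1,
c_m = b_m - l where b_m >= 0 and b_0 >= Re a(1) >= 1, and |c_m| <= Bd (2/3)^m by Cauchy's
estimate on |s-2| = 3/2.
-/

open Complex
open scoped ComplexOrder

namespace Pool.Agent.Lib.SW

/-- The iterated derivative of `l / (s - 1)` at `2`. -/
lemma est_iter_pole (l : ℂ) (m : ℕ) :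
    iteratedDeriv m (fun s : ℂ => l * (s - 1)⁻¹) 2 = l * ((-1) ^ m * (m.factorial : ℂ)) := by
  rw [iteratedDeriv_const_mul_field]
  congr 1
  have h := congrFun (iter_deriv_inv_linear_sub (𝕜 := ℂ) m 1 1) 2
  rw [iteratedDeriv_eq_iterate]
  simp only [one_mul, one_pow, mul_one] at h
  rw [h]
  norm_num

/-- The Taylor coefficients of `G`. -/
lemma est_coeff (a : ℕ → ℂ) (habs : LSeries.abscissaOfAbsConv a ≤ 1)
    (G : ℂ → ℂ) (l : ℝ)
    (hGa : ∀ s : ℂ, 1 < s.re → G s = LSeries a s - l / (s - 1)) (m : ℕ) :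
    iteratedDeriv m G 2 = iteratedDeriv m (LSeries a) 2
      - (l : ℂ) * ((-1) ^ m * (m.factorial : ℂ)) := by
  have hopen : IsOpen {s : ℂ | 1 < s.re} := isOpen_lt continuous_const Complex.continuous_re
  have h2 : (2 : ℂ) ∈ {s : ℂ | 1 < s.re} := by simp
  have hev : G =ᶠ[nhds 2] (LSeries a - fun s : ℂ => (l : ℂ) * (s - 1)⁻¹) := by
    filter_upwards [hopen.mem_nhds h2] with s hs
    rw [hGa s hs]
    simp [div_eq_mul_inv]
  rw [hev.iteratedDeriv_eq m, iteratedDeriv_sub, est_iter_pole]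
  · have han : AnalyticAt ℂ (LSeries a) 2 := by
      have hd : DifferentiableOn ℂ (LSeries a) {s : ℂ | 1 < s.re} := by
        intro s hs
        apply (LSeries_hasDerivAt (lt_of_le_of_lt habs (by exact_mod_cast hs))).differentiableAt
          |>.differentiableWithinAt
      exact hd.analyticAt (hopen.mem_nhds h2)
    exact han.contDiffAt
  · have : ContDiffAt ℂ m (fun s : ℂ => (l : ℂ) * (s - 1)⁻¹) 2 := by
      apply ContDiffAt.mul contDiffAt_const
      apply ContDiffAt.inv
      · exact contDiffAt_id.sub contDiffAt_const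
      · norm_num
    exact this

lemma est_b_nonneg (a : ℕ → ℂ) (ha0 : ∀ n, 0 ≤ (a n).re ∧ (a n).im = 0)
    (habs : LSeries.abscissaOfAbsConv a ≤ 1) (m : ℕ) :
    0 ≤ ((-1) ^ m * iteratedDeriv m (LSeries a) 2).re := by
  have h0 : 0 ≤ a := by
    intro n
    rw [Complex.le_def]
    exact ⟨by simpa using (ha0 n).1, by simpa using (ha0 n).2.symm⟩
  have h1 : LSeries.abscissaOfAbsConv a < ((2 : ℝ) : EReal) :=
    lt_of_le_of_lt habs (by exact_mod_cast (by norm_num : (1 : ℝ) < 2))
  have := LSeries.iteratedDeriv_alternating h0 h1 m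
  have h3 := (Complex.le_def.mp this).1
  simpa using h3

lemma est_b_zero (a : ℕ → ℂ) (ha0 : ∀ n, 0 ≤ (a n).re ∧ (a n).im = 0) (ha1 : 1 ≤ (a 1).re)
    (habs : LSeries.abscissaOfAbsConv a ≤ 1) :
    1 ≤ (LSeries a 2).re := by
  have hs : LSeriesSummable a 2 := by
    apply LSeriesSummable_of_abscissaOfAbsConv_lt_re
    exact lt_of_le_of_lt habs (by exact_mod_cast (by norm_num : (1 : ℝ) < 2))
  have hre : ∀ n, 0 ≤ (LSeries.term a 2 n).re := by
    intro n
    rcases eq_or_ne n 0 with rfl | hn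
    · simp
    · rw [LSeries.term_of_ne_zero hn]
      have : ((n : ℂ) ^ (2 : ℂ)) = ((n ^ 2 : ℝ) : ℂ) := by
        push_cast
        norm_cast
      rw [this, Complex.div_ofReal_re]
      exact div_nonneg (ha0 n).1 (by positivity)
  have h1 : (LSeries.term a 2 1).re = (a 1).re := by
    rw [LSeries.term_of_ne_zero one_ne_zero]
    simp
  have hsum : HasSum (fun n => (LSeries.term a 2 n).re) (LSeries a 2).re :=
    Complex.hasSum_re hs.hasSum
  calc (1 : ℝ) ≤ (a 1).re := ha1
    _ = (LSeries.term a 2 1).re := h1.symm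
    _ ≤ (LSeries a 2).re := le_hasSum hsum 1 (fun n _ => hre n)

/-- The final numerical step. -/
lemma est_final {l Bd x δ : ℝ} {M : ℕ} (hBd : 1 ≤ Bd) (hx : x = 1 + δ) (hδ0 : 0 < δ)
    (hδ1 : δ ≤ 1/8) (hM : (M : ℝ) ≤ 1 + (7/2) * Real.log (8 * Bd))
    (hl : 1/2 ≤ l * x ^ M / δ) (hl0 : 0 ≤ l) :
    δ / (3 * (8 * Bd) ^ (4 * δ)) ≤ l := by
  have hB8 : (8:ℝ) ≤ 8 * Bd := by linarith
  have hL : 2 ≤ Real.log (8 * Bd) := by
    have h1 : Real.log 8 ≤ Real.log (8 * Bd) := Real.log_le_log (by norm_num) hB8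
    have h2 : Real.log 8 = 3 * Real.log 2 := by
      rw [show (8:ℝ) = 2 ^ 3 by norm_num, Real.log_pow]; norm_num
    have := Real.log_two_gt_d9
    linarith
  set L := Real.log (8 * Bd) with hLdef
  have hxM : x ^ M ≤ Real.exp (δ * (1 + (7/2) * L)) := by
    have h1 : x ≤ Real.exp δ := by
      rw [hx]; linarith [Real.add_one_le_exp δ]
    have hx0 : 0 ≤ x := by rw [hx]; linarith
    calc x ^ M ≤ (Real.exp δ) ^ M := pow_le_pow_left₀ hx0 h1 M
      _ = Real.exp (δ * M) := by rw [← Real.exp_nat_mul, mul_comm]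
      _ ≤ _ := by
        apply Real.exp_le_exp.mpr
        exact mul_le_mul_of_nonneg_left hM hδ0.le
  have hpow : (8 * Bd) ^ (4 * δ) = Real.exp (L * (4 * δ)) := by
    rw [Real.rpow_def_of_pos (by linarith)]
  have h32 : 2 * Real.exp (δ * (1 + (7/2) * L)) ≤ 3 * Real.exp (L * (4 * δ)) := by
    have e1 : Real.exp (δ * (1 + (7/2) * L)) = Real.exp (δ - δ * L / 2) * Real.exp (L * (4 * δ)) := by
      rw [← Real.exp_add]; congr 1; ring
    rw [e1, ← mul_assoc]
    apply mul_le_mul_of_nonneg_right _ (Real.exp_pos _).le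
    have : Real.exp (δ - δ * L / 2) ≤ 1 := by
      apply Real.exp_le_one_iff.mpr
      nlinarith
    linarith
  have hE : 0 < Real.exp (L * (4 * δ)) := Real.exp_pos _
  rw [hpow, div_le_iff₀ (by positivity)]
  have h4 : δ ≤ 2 * (l * x ^ M) := by
    rw [le_div_iff₀ hδ0] at hl
    linarith
  have h5 : l * x ^ M ≤ l * Real.exp (δ * (1 + (7/2) * L)) := mul_le_mul_of_nonneg_left hxM hl0
  nlinarith [mul_le_mul_of_nonneg_left h32 hl0]

theorem estermann (a : ℕ → ℂ) (ha0 : ∀ n, 0 ≤ (a n).re ∧ (a n).im = 0) (ha1 : 1 ≤ (a 1).re)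
    (habs : LSeries.abscissaOfAbsConv a ≤ 1)
    (G : ℂ → ℂ) (l Bd : ℝ) (hl : 0 ≤ l) (hBd : 1 ≤ Bd)
    (hGd : DifferentiableOn ℂ G (Metric.ball 2 (7/4)))
    (hGb : ∀ s ∈ Metric.sphere (2:ℂ) (3/2), ‖G s‖ ≤ Bd)
    (hGa : ∀ s : ℂ, 1 < s.re → G s = LSeries a s - l / (s - 1))
    (β : ℝ) (h1 : 7/8 ≤ β) (h2 : β < 1) (hneg : (G β).re - l / (1 - β) ≤ 0) :
    (1 - β) / (3 * (8 * Bd) ^ (4 * (1 - β))) ≤ l := by
  -- Taylor coefficients
  set x : ℝ := 2 - β with hx
  set δ : ℝ := 1 - β with hδ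
  have hδ0 : 0 < δ := by rw [hδ]; linarith
  have hδ1 : δ ≤ 1/8 := by rw [hδ]; linarith
  have hxδ : x = 1 + δ := by rw [hx, hδ]; ring
  set c : ℕ → ℂ := fun m => ((m.factorial : ℂ))⁻¹ * ((-1) ^ m * iteratedDeriv m G 2) with hc
  have hβball : (β : ℂ) ∈ Metric.ball (2 : ℂ) (7/4) := by
    rw [Metric.mem_ball, Complex.dist_eq]
    have : ((β : ℂ) - 2) = ((β - 2 : ℝ) : ℂ) := by push_cast; ring
    rw [this, Complex.norm_real, Real.norm_eq_abs, abs_lt]
    constructor <;> linarith
  have hsum : HasSum (fun m => c m * (x : ℂ) ^ m) (G β) := by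
    have h := Complex.hasSum_taylorSeries_on_ball hGd hβball
    have he : (fun m => c m * (x : ℂ) ^ m)
        = (fun n : ℕ => ((n.factorial : ℂ))⁻¹ • ((β : ℂ) - 2) ^ n • iteratedDeriv n G 2) := by
      funext m
      simp only [hc, smul_eq_mul]
      have : ((β : ℂ) - 2) = (-1) * (x : ℂ) := by rw [hx]; push_cast; ring
      rw [this, mul_pow]
      ring
    rw [he]
    exact h
  have hsumre : HasSum (fun m => (c m).re * x ^ m) (G β).re := by
    have h := Complex.hasSum_re hsum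
    have he : (fun m => (c m).re * x ^ m) = (fun m => (c m * (x : ℂ) ^ m).re) := by
      funext m
      rw [← Complex.ofReal_pow, Complex.re_mul_ofReal]
    rw [he]
    exact h
  -- lower bound of the coefficients
  have hcre : ∀ m, -l ≤ (c m).re := by
    intro m
    have hf : (0:ℝ) < m.factorial := by positivity
    have e : c m = (((m.factorial : ℝ))⁻¹ : ℝ) * ((-1) ^ m * iteratedDeriv m (LSeries a) 2) - l := by
      rw [hc]
      simp only
      rw [est_coeff a habs G l hGa m]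
      have hf' : (m.factorial : ℂ) ≠ 0 := by exact_mod_cast hf.ne'
      have hsq : ((-1 : ℂ)) ^ m * (-1) ^ m = 1 := by
        rw [← mul_pow]; norm_num
      push_cast
      field_simp
      linear_combination (-(l : ℂ)) * (m.factorial : ℂ) * hsq
    rw [e, Complex.sub_re, Complex.re_ofReal_mul, Complex.ofReal_re]
    have := est_b_nonneg a ha0 habs m
    have h3 : 0 ≤ ((m.factorial : ℝ))⁻¹ * ((-1) ^ m * iteratedDeriv m (LSeries a) 2).re :=
      mul_nonneg (inv_nonneg.mpr hf.le) this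
    linarith
  have hc0 : 1 - l ≤ (c 0).re := by
    have e : c 0 = LSeries a 2 - l := by
      rw [hc]
      simp only
      rw [est_coeff a habs G l hGa 0]
      simp
    rw [e, Complex.sub_re, Complex.ofReal_re]
    have := est_b_zero a ha0 ha1 habs
    linarith
  -- upper bound of the coefficients
  have hcup : ∀ m, ‖c m‖ ≤ Bd * (2/3) ^ m := by
    intro m
    have hdc : DiffContOnCl ℂ G (Metric.ball 2 (3/2)) := by
      apply DifferentiableOn.diffContOnCl
      apply hGd.mono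
      rw [closure_ball (2:ℂ) (by norm_num : (3/2 : ℝ) ≠ 0)]
      exact Metric.closedBall_subset_ball (by norm_num)
    have h := Complex.norm_iteratedDeriv_le_of_forall_mem_sphere_norm_le m
      (by norm_num : (0:ℝ) < 3/2) hdc hGb
    rw [hc]
    simp only
    rw [norm_mul, norm_mul, norm_inv, norm_pow, norm_neg, norm_one, one_pow, one_mul,
      Complex.norm_natCast]
    have hf : (0:ℝ) < m.factorial := by positivity
    calc ((m.factorial : ℝ))⁻¹ * ‖iteratedDeriv m G 2‖
        ≤ ((m.factorial : ℝ))⁻¹ * (m.factorial * Bd / (3/2) ^ m) :=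
          mul_le_mul_of_nonneg_left h (inv_nonneg.mpr hf.le)
      _ = Bd * (2/3) ^ m := by
          have : ((2:ℝ)/3) ^ m = ((3/2 : ℝ) ^ m)⁻¹ := by
            rw [← inv_pow]; norm_num
          rw [this]
          field_simp
  -- choice of M
  obtain ⟨M, hM1, hM2⟩ : ∃ M : ℕ, 8 * Bd * (3/4) ^ M ≤ 1 ∧
      (M : ℝ) ≤ 1 + (7/2) * Real.log (8 * Bd) := by
    have hl43 : (2/7 : ℝ) ≤ Real.log (4/3) := by
      have := Real.le_log_one_add_of_nonneg (by norm_num : (0:ℝ) ≤ 1/3)
      norm_num at this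
      exact this
    have hlpos : 0 < Real.log (4/3) := by linarith
    have hLB : 0 ≤ Real.log (8 * Bd) := Real.log_nonneg (by linarith)
    refine ⟨⌈Real.log (8 * Bd) / Real.log (4/3)⌉₊, ?_, ?_⟩
    · have h3 := Nat.le_ceil (Real.log (8 * Bd) / Real.log (4/3))
      rw [div_le_iff₀ hlpos] at h3
      set M := ⌈Real.log (8 * Bd) / Real.log (4/3)⌉₊
      have h4 : 8 * Bd ≤ (4/3 : ℝ) ^ M := by
        have h5 : Real.log (8 * Bd) ≤ Real.log ((4/3 : ℝ) ^ M) := by
          rw [Real.log_pow]; exact h3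
        exact (Real.log_le_log_iff (by linarith) (by positivity)).mp h5
      have h6 : ((3:ℝ)/4) ^ M = ((4/3 : ℝ) ^ M)⁻¹ := by
        rw [← inv_pow]; norm_num
      rw [h6, ← div_eq_mul_inv]
      exact (div_le_one (by positivity)).mpr h4
    · have h3 := (Nat.ceil_lt_add_one (div_nonneg hLB hlpos.le)).le
      have h4 : Real.log (8 * Bd) / Real.log (4/3) ≤ (7/2) * Real.log (8 * Bd) := by
        rw [div_le_iff₀ hlpos]
        nlinarith
      linarith
  have hx0 : 0 < x := by linarith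
  -- the partial sum
  have hsplit := hsumre.summable.sum_add_tsum_nat_add M
  rw [hsumre.tsum_eq] at hsplit
  have hterm : ∀ i, |(c i).re * x ^ i| ≤ Bd * (3/4) ^ i := by
    intro i
    rw [abs_mul, abs_of_nonneg (by positivity : (0:ℝ) ≤ x ^ i)]
    calc |(c i).re| * x ^ i ≤ (Bd * (2/3) ^ i) * (9/8) ^ i := by
          apply mul_le_mul ((Complex.abs_re_le_norm _).trans (hcup i)) _ (by positivity)
            (by positivity)
          exact pow_le_pow_left₀ hx0.le (by linarith) i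
      _ = Bd * (3/4) ^ i := by
          rw [mul_assoc, ← mul_pow]; norm_num
  have htail : |∑' i, (c (i + M)).re * x ^ (i + M)| ≤ 1/2 := by
    have hg : HasSum (fun i : ℕ => Bd * (3/4 : ℝ) ^ (i + M)) (Bd * ((3/4) ^ M * (1 - 3/4)⁻¹)) := by
      have := (hasSum_geometric_of_lt_one (by norm_num : (0:ℝ) ≤ 3/4)
        (by norm_num : (3/4 : ℝ) < 1)).mul_left ((3/4 : ℝ) ^ M)
      have h7 := this.mul_left Bd
      have he : (fun i : ℕ => Bd * (3/4 : ℝ) ^ (i + M))
          = (fun i : ℕ => Bd * ((3 / 4) ^ M * (3 / 4) ^ i)) := by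
        funext i; rw [pow_add]; ring
      rw [he]
      exact h7
    have h8 : |∑' i, (c (i + M)).re * x ^ (i + M)| ≤ Bd * ((3/4) ^ M * (1 - 3/4)⁻¹) := by
      have := tsum_of_norm_bounded (f := fun i => (c (i + M)).re * x ^ (i + M)) hg
        (fun i => by rw [Real.norm_eq_abs]; exact hterm (i + M))
      rwa [Real.norm_eq_abs] at this
    have : Bd * ((3/4 : ℝ) ^ M * (1 - 3/4)⁻¹) = (8 * Bd * (3/4) ^ M) / 2 := by
      norm_num; ring
    linarith
  have hMpos : 0 < M := by
    rcases Nat.eq_zero_or_pos M with h | h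
    · subst h
      norm_num at hM1
      linarith
    · exact h
  have hpart : 1 - l * ((x ^ M - 1) / δ) ≤ ∑ i ∈ Finset.range M, (c i).re * x ^ i := by
    have hgeom : ∑ i ∈ Finset.range M, x ^ i = (x ^ M - 1) / δ := by
      rw [geom_sum_eq (by linarith : x ≠ 1)]
      congr 1
      linarith
    calc 1 - l * ((x ^ M - 1) / δ)
        = ∑ i ∈ Finset.range M, ((if i = 0 then 1 else 0) - l * x ^ i) := by
          rw [Finset.sum_sub_distrib, ← Finset.mul_sum, hgeom, Finset.sum_ite_eq']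
          simp [hMpos]
      _ ≤ _ := by
          apply Finset.sum_le_sum
          intro i _
          by_cases hi : i = 0
          · subst hi
            simp only [if_true, pow_zero, mul_one]
            exact hc0
          · rw [if_neg hi, zero_sub, ← neg_mul]
            exact mul_le_mul_of_nonneg_right (hcre i) (by positivity)
  have hfin : 1/2 ≤ l * x ^ M / δ := by
    have h3 := (abs_le.mp htail).1
    have h4 : (G β).re ≥ 1/2 - l * ((x ^ M - 1) / δ) := by
      rw [← hsplit]; linarith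
    have h5 : l * ((x ^ M - 1) / δ) + l / δ = l * x ^ M / δ := by field_simp; ring
    linarith
  exact est_final hBd hxδ hδ0 hδ1 hM2 hfin hl

end Pool.Agent.Lib.SW
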