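import Pool.Agent.Lib.SW.CharUpper
import Pool.Agent.Lib.SW.Lower341
import Pool.Agent.Lib.SW.Siegel

/-!
# Lower bound for all nonprincipal characters in 1 < Re s <= 2

PROOF SKETCH. s = σ + it, ell = ell q s. Lm_chf_bound 1 gives |L'(χ,σ'+it)| <= B = C ell^2.
(i) χ² <> 1: |L(χ²,σ'+2it)| <= C ell, lower_341 gives |L| >= c ell^(-7).
(ii) χ² = 1 and |t| >= τ (0 < τ <= 1): Lm_chf_bound' gives
|L(χ²,σ'+2it)| <= C(2 ell + 1/(2|t|)) and lower_341 gives |L| >= c ell^(-7) τ.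
(iii) χ² = 1, |t| < τ, σ - 1 >= τ: |L(χ,s)| >= 1/ζ(σ) >= (σ-1)/2 >= τ/2
(LSeries.mul_mu_eq_one: 1/L(χ,s) = sum μ(n)χ(n) n^(-s), |.| <= ζ(σ) <= σ/(σ-1)).
(iv) χ² = 1, |t| < τ, σ - 1 < τ: |L(χ,s) - L(χ,1)| <= |s-1| B0 <= 2 τ B0 with B0 = C (log 4q)^2
(mean value inequality from 1+η+... to s, η -> 0+, continuity of LFunction at 1), and
|L(χ,1)| >= c q^(-ε') by siegel. Choose τ = c q^(-ε')/(4 B0 + 4) so |L(χ,s)| >= (c/2) q^(-ε').
Finally (log(q(|t|+3)))^7 <= C_ε (q(|t|+3))^(ε/4) and so on.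
-/

open Complex DirichletCharacter

namespace Pool.Agent.Lib.SW

private lemma log_pow_le (n : ℕ) {δ : ℝ} (hδ : 0 < δ) :
    ∃ C : ℝ, 0 < C ∧ ∀ Q : ℝ, 1 ≤ Q → (Real.log Q) ^ n ≤ C * Q ^ δ := by
  set e : ℝ := δ / (n + 1) with he
  have he0 : 0 < e := by positivity
  refine ⟨(1 / e) ^ n, by positivity, fun Q hQ => ?_⟩
  have h1 : Real.log Q ≤ Q ^ e / e := Real.log_le_rpow_div (by linarith) he0
  have h2 : 0 ≤ Real.log Q := Real.log_nonneg hQ
  calc (Real.log Q) ^ n ≤ (Q ^ e / e) ^ n := pow_le_pow_left₀ h2 h1 n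
    _ = (1 / e) ^ n * (Q ^ e) ^ n := by rw [div_eq_mul_one_div, mul_pow, mul_comm]
    _ ≤ (1 / e) ^ n * Q ^ δ := by
        apply mul_le_mul_of_nonneg_left _ (by positivity)
        rw [← Real.rpow_natCast, ← Real.rpow_mul (by linarith)]
        apply Real.rpow_le_rpow_of_exponent_le hQ
        rw [he, div_mul_eq_mul_div, div_le_iff₀ (by positivity)]
        nlinarith only [hδ]

/-- `1 <= |L(s,χ)| ζ(Re s)`. -/
private lemma one_le_norm_mul_zeta {q : ℕ} [NeZero q] (χ : DirichletCharacter ℂ q) {s : ℂ}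
    (hs : 1 < s.re) : 1 ≤ ‖Lm (chf χ) 0 s‖ * ‖Lm (fun _ => 1) 0 (s.re : ℂ)‖ := by
  set g : ℕ → ℂ := (fun n : ℕ => χ (n : ZMod q)) * (fun n : ℕ => (ArithmeticFunction.moebius n : ℂ))
    with hg
  have h : LSeries (fun n : ℕ => χ (n : ZMod q)) s * LSeries g s = 1 :=
    DirichletCharacter.LSeries.mul_mu_eq_one χ hs
  have hgn : ∀ n, ‖g n‖ ≤ ‖(1 : ℕ → ℂ) n‖ := by
    intro n
    rw [hg, Pi.mul_apply, norm_mul, Pi.one_apply, norm_one]
    have h1 : ‖χ (n : ZMod q)‖ ≤ 1 := χ.norm_le_one _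
    have h2 : ‖((ArithmeticFunction.moebius n : ℤ) : ℂ)‖ ≤ 1 := by
      rw [Complex.norm_intCast]
      exact_mod_cast ArithmeticFunction.abs_moebius_le_one
    calc _ ≤ (1:ℝ) * 1 := mul_le_mul h1 h2 (norm_nonneg _) zero_le_one
      _ = 1 := one_mul 1
  have hre : ((s.re : ℂ)).re = s.re := ofReal_re _
  have hsum1 : LSeriesSummable (1 : ℕ → ℂ) (s.re : ℂ) := by
    rw [LSeriesSummable_one_iff, hre]
    exact hs
  have hterm : ∀ n, ‖LSeries.term g s n‖ ≤ ‖LSeries.term (1 : ℕ → ℂ) (s.re : ℂ) n‖ := by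
    intro n
    rw [LSeries.norm_term_eq, LSeries.norm_term_eq, hre]
    split_ifs with hn
    · exact le_refl _
    · exact div_le_div_of_nonneg_right (hgn n) (by positivity)
  have h3 : ‖LSeries g s‖ ≤ ∑' n, ‖LSeries.term (1 : ℕ → ℂ) (s.re : ℂ) n‖ :=
    tsum_of_norm_bounded hsum1.norm.hasSum hterm
  have h4 : LSeries (1 : ℕ → ℂ) (s.re : ℂ) =
      ((∑' n, ‖LSeries.term (1 : ℕ → ℂ) (s.re : ℂ) n‖ : ℝ) : ℂ) := by
    rw [ofReal_tsum, LSeries]
    refine tsum_congr fun n => ?_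
    rcases eq_or_ne n 0 with rfl | hn
    · simp
    · rw [LSeries.norm_term_eq, if_neg hn, LSeries.term_of_ne_zero hn, hre]
      push_cast
      simp only [Pi.one_apply, norm_one, ofReal_one]
      rw [ofReal_cpow (by positivity)]
      push_cast
      rfl
  have h5 : ‖LSeries g s‖ ≤ ‖Lm (fun _ => 1) 0 (s.re : ℂ)‖ := by
    rw [Lm_zero]
    have : (fun _ : ℕ => (1:ℂ)) = (1 : ℕ → ℂ) := rfl
    rw [this, h4, Complex.norm_real, Real.norm_of_nonneg (tsum_nonneg fun n => norm_nonneg _)]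
    exact h3
  have h6 : ‖Lm (chf χ) 0 s‖ * ‖LSeries g s‖ = 1 := by
    rw [Lm_zero, ← norm_mul]
    have : LSeries (chf χ) s * LSeries g s = 1 := h
    rw [this, norm_one]
  rw [← h6]
  exact mul_le_mul_of_nonneg_left h5 (norm_nonneg _)

/-- Mean value inequality up to the point `1`. -/
private lemma sub_one_le {q : ℕ} [NeZero q] (χ : DirichletCharacter ℂ q) (hχ : χ ≠ 1) {B : ℝ}
    (hB : ∀ s : ℂ, 1 < s.re → s.re ≤ 2 → |s.im| ≤ 1 → ‖Lm (chf χ) 1 s‖ ≤ B) {s : ℂ}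
    (h1 : 1 < s.re) (h2 : s.re ≤ 2) (h3 : |s.im| ≤ 1) :
    ‖Lm (chf χ) 0 s - LFunction χ 1‖ ≤ B * ‖s - 1‖ := by
  have hconv : Convex ℝ ({z : ℂ | 1 < z.re} ∩ ({z : ℂ | z.re ≤ 2} ∩
      ({z : ℂ | -1 ≤ z.im} ∩ {z : ℂ | z.im ≤ 1}))) :=
    (convex_halfSpace_re_gt 1).inter ((convex_halfSpace_re_le 2).inter
      ((convex_halfSpace_im_ge _).inter (convex_halfSpace_im_le _)))
  have key : ∀ η : ℝ, 0 < η → η ≤ 1 →
      ‖Lm (chf χ) 0 s - Lm (chf χ) 0 (1 + η)‖ ≤ B * ‖s - (1 + η)‖ := by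
    intro η hη hη1
    refine hconv.norm_image_sub_le_of_norm_hasDerivWithin_le
      (f := Lm (chf χ) 0) (f' := fun z => -(Lm (chf χ) 1 z)) ?_ ?_ ?_ ?_
    · intro z hz
      exact (Lm_hasDerivAt (abscissa_chf χ) 0 hz.1).hasDerivWithinAt
    · intro z hz
      rw [norm_neg]
      exact hB z hz.1 hz.2.1 (abs_le.2 ⟨hz.2.2.1, hz.2.2.2⟩)
    · refine ⟨?_, ?_, ?_, ?_⟩
      · simp only [Set.mem_ofPred_eq, add_re, one_re, ofReal_re]
        linarith
      · simp only [Set.mem_ofPred_eq, add_re, one_re, ofReal_re]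
        linarith
      · simp
      · simp
    · exact ⟨h1, h2, (abs_le.1 h3).1, (abs_le.1 h3).2⟩
  have hc : Filter.Tendsto (fun η : ℝ => Lm (chf χ) 0 (1 + η)) (nhdsWithin 0 (Set.Ioi 0))
      (nhds (LFunction χ 1)) := by
    have h4 : Filter.Tendsto (fun η : ℝ => LFunction χ (1 + η)) (nhdsWithin 0 (Set.Ioi 0))
        (nhds (LFunction χ 1)) := by
      have h5 : Continuous fun η : ℝ => LFunction χ (1 + η) :=
        (differentiable_LFunction hχ).continuous.comp (by fun_prop)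
      have h6 := h5.tendsto 0
      simp only [ofReal_zero, add_zero] at h6
      exact h6.mono_left nhdsWithin_le_nhds
    refine h4.congr' ?_
    filter_upwards [self_mem_nhdsWithin] with η hη
    rw [Lm_chf_zero χ]
    simp only [add_re, one_re, ofReal_re]
    have : (0:ℝ) < η := hη
    linarith
  have hl : Filter.Tendsto (fun η : ℝ => ‖Lm (chf χ) 0 s - Lm (chf χ) 0 (1 + η)‖)
      (nhdsWithin 0 (Set.Ioi 0)) (nhds ‖Lm (chf χ) 0 s - LFunction χ 1‖) :=
    (tendsto_const_nhds.sub hc).norm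
  have hr : Filter.Tendsto (fun η : ℝ => B * ‖s - (1 + η)‖)
      (nhdsWithin 0 (Set.Ioi 0)) (nhds (B * ‖s - 1‖)) := by
    have h5 : Continuous fun η : ℝ => B * ‖s - (1 + η)‖ := by fun_prop
    have h6 := h5.tendsto 0
    simp only [ofReal_zero, add_zero] at h6
    exact h6.mono_left nhdsWithin_le_nhds
  refine le_of_tendsto_of_tendsto hl hr ?_
  have hmem : Set.Ioc (0:ℝ) 1 ∈ nhdsWithin (0:ℝ) (Set.Ioi 0) := Ioc_mem_nhdsGT one_pos
  filter_upwards [hmem] with η hη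
  exact key η hη.1 hη.2

theorem lower_all (ε : ℝ) (hε : 0 < ε) : ∃ c : ℝ, 0 < c ∧ ∀ (q : ℕ) [NeZero q]
    (χ : DirichletCharacter ℂ q), χ ≠ 1 → ∀ s : ℂ, 1 < s.re → s.re ≤ 2 →
    c * ((q:ℝ) * (|s.im| + 3)) ^ (-ε) ≤ ‖Lm (chf χ) 0 s‖ := by
  obtain ⟨C0, hC0, hb0⟩ := Lm_chf_bound 0
  obtain ⟨C1, hC1, hb1⟩ := Lm_chf_bound 1
  obtain ⟨C2, hC2, hb2⟩ := Lm_chf_bound'
  obtain ⟨Cz, hCz, hbz⟩ := Lm_one_bound 0
  obtain ⟨c3, hc3, h341⟩ := lower_341
  obtain ⟨cs', hcs', hsiegel'⟩ := siegel (ε/2) (half_pos hε)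
  obtain ⟨Cl, hCl, hlog⟩ := log_pow_le 9 (half_pos hε)
  -- make the constant in the theorem of Siegel at most one
  set cs : ℝ := min cs' 1 with hcsdef
  have hcs : 0 < cs := lt_min hcs' one_pos
  have hcs1 : cs ≤ 1 := min_le_right _ _
  have hsiegel : ∀ (q : ℕ) [NeZero q] (χ : DirichletCharacter ℂ q), χ ≠ 1 → χ ^ 2 = 1 →
      cs * (q:ℝ) ^ (-(ε/2)) ≤ ‖LFunction χ 1‖ := by
    intro q _ χ h1 h2
    refine le_trans ?_ (hsiegel' q χ h1 h2)
    exact mul_le_mul_of_nonneg_right (min_le_left _ _) (by positivity)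
  set D : ℝ := (C1 + 1) ^ 3 with hD
  have hD0 : 0 < D := by positivity
  set ka : ℝ := c3 / (D * (2 * C0 + 1)) with hka
  set kb : ℝ := c3 / (D * (3 * C2 + 1)) * (cs / (16 * C1 + 4)) with hkb
  set kc : ℝ := 1 / (3 * Cz) * (cs / (16 * C1 + 4)) with hkc
  set kd : ℝ := cs / 2 with hkd
  have hka0 : 0 < ka := by (clear * - hC0 hC1 hc3; positivity)
  have hkb0 : 0 < kb := by (clear * - hC1 hC2 hc3 hcs'; positivity)
  have hkc0 : 0 < kc := by (clear * - hC1 hCz hcs'; positivity)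
  have hkd0 : 0 < kd := by (clear * - hcs'; positivity)
  set k : ℝ := min (min ka kb) (min kc kd) with hk
  have hk0 : 0 < k := lt_min (lt_min hka0 hkb0) (lt_min hkc0 hkd0)
  have hkka : k ≤ ka := (min_le_left _ _).trans (min_le_left _ _)
  have hkkb : k ≤ kb := (min_le_left _ _).trans (min_le_right _ _)
  have hkkc : k ≤ kc := (min_le_right _ _).trans (min_le_left _ _)
  have hkkd : k ≤ kd := (min_le_right _ _).trans (min_le_right _ _)
  refine ⟨k / Cl, by (clear * - hC0 hC1 hC2 hCz hc3 hcs' hCl; positivity), fun q _ χ hχ s hs1 hs2 => ?_⟩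
  set t : ℝ := s.im with ht
  set Q : ℝ := (q:ℝ) * (|t| + 3) with hQ
  have hq1 : (1:ℝ) ≤ q := by exact_mod_cast Nat.one_le_iff_ne_zero.2 (NeZero.ne q)
  have hat : 0 ≤ |t| := abs_nonneg t
  have hQ3 : 3 ≤ Q := by rw [hQ]; nlinarith only [hq1, hat]
  have hQ0 : 0 < Q := by linarith only [hQ3]
  have hqQ : (q:ℝ) ≤ Q := by rw [hQ]; nlinarith only [hcs1, hkd, hkd0, hat, hQ3]
  set l : ℝ := Real.log Q with hl
  have hl1 : 1 ≤ l := by
    have h1 : Real.exp 1 ≤ Q := by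
      have := Real.exp_one_lt_d9
      linarith only [hQ3, this]
    have := Real.log_le_log (Real.exp_pos 1) h1
    rwa [Real.log_exp] at this
  have hells : ∀ z : ℂ, z.im = t → ell q z = l := by
    intro z hz
    unfold ell
    rw [hz]
  have hsdecomp : s = (s.re : ℂ) + (t : ℂ) * I := (re_add_im s).symm
  -- it is enough to show
  suffices hmain : k * Q ^ (-(ε/2)) / l ^ 9 ≤ ‖Lm (chf χ) 0 s‖ by
    refine le_trans ?_ hmain
    have h9 : l ^ 9 ≤ Cl * Q ^ (ε/2) := hlog Q (by linarith only [hQ3])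
    have hl9 : 0 < l ^ 9 := by (clear * - hl1; positivity)
    rw [le_div_iff₀ hl9]
    have h10 : k / Cl * Q ^ (-ε) * l ^ 9 ≤ k / Cl * Q ^ (-ε) * (Cl * Q ^ (ε/2)) :=
      mul_le_mul_of_nonneg_left h9 (by (clear * - hC0 hC1 hC2 hCz hc3 hcs' hCl hq1; positivity))
    refine h10.trans (le_of_eq ?_)
    have h11 : Q ^ (-ε) * Q ^ (ε/2) = Q ^ (-(ε/2)) := by
      rw [← Real.rpow_add hQ0]
      congr 1
      ring
    calc k / Cl * Q ^ (-ε) * (Cl * Q ^ (ε/2)) = k / Cl * Cl * (Q ^ (-ε) * Q ^ (ε/2)) := by ring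
      _ = k * Q ^ (-(ε/2)) := by rw [h11, div_mul_cancel₀ _ hCl.ne']
  have hQe0 : 0 < Q ^ (-(ε/2)) := by (clear * - hq1; positivity)
  have hQe1 : Q ^ (-(ε/2)) ≤ 1 := Real.rpow_le_one_of_one_le_of_nonpos (by linarith only [hQ3]) (by linarith only [hε])
  have hqe : Q ^ (-(ε/2)) ≤ (q:ℝ) ^ (-(ε/2)) :=
    Real.rpow_le_rpow_of_nonpos (by linarith only [hq1]) hqQ (by linarith only [hε])
  have hqe1 : (q:ℝ) ^ (-(ε/2)) ≤ 1 :=
    Real.rpow_le_one_of_one_le_of_nonpos hq1 (by linarith only [hε])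
  have hqe0 : 0 < (q:ℝ) ^ (-(ε/2)) := by (clear * - hq1; positivity)
  have hB : ∀ σ : ℝ, 1 < σ → σ ≤ 2 → ‖Lm (chf χ) 1 (σ + t * I)‖ ≤ (C1 + 1) * l ^ 2 := by
    intro σ h1 h2
    have h3 := hb1 q χ hχ (σ + t * I) (by simpa using h1) (by simpa using h2)
    rw [hells (σ + t * I) (by simp)] at h3
    refine h3.trans ?_
    calc C1 * l ^ (1 + 1) = C1 * l ^ 2 := by norm_num
      _ ≤ (C1 + 1) * l ^ 2 := mul_le_mul_of_nonneg_right (by linarith) (by (clear * - hl1; positivity))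
  have hB1 : 1 ≤ (C1 + 1) * l ^ 2 :=
    one_le_mul_of_one_le_of_one_le (by linarith only [hC1]) (one_le_pow₀ hl1)
  have hQ2 : 2 * Q ≤ Q ^ 2 := by
    rw [sq]
    exact mul_le_mul_of_nonneg_right (by linarith only [hQ3]) hQ0.le
  have hq3Q : 3 * (q:ℝ) ≤ Q := by
    have h1 : Q = 3 * (q:ℝ) + (q:ℝ) * |t| := by rw [hQ]; ring
    have h2 : 0 ≤ (q:ℝ) * |t| := by (clear * - hq1; positivity)
    linarith only [h2]
  have hell2 : ∀ σ : ℝ, ell q ((σ:ℂ) + (2 * t : ℝ) * I) ≤ 2 * l := by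
    intro σ
    unfold ell
    have h1 : ((σ:ℂ) + (2 * t : ℝ) * I).im = 2 * t := by simp
    rw [h1, abs_mul, abs_of_pos (by norm_num : (0:ℝ) < 2)]
    have h2 : (q:ℝ) * (2 * |t| + 3) ≤ Q ^ 2 := by
      have h3 : (q:ℝ) * (2 * |t| + 3) = 2 * Q - 3 * (q:ℝ) := by rw [hQ]; ring
      linarith only [hq1, hQ2]
    calc Real.log ((q:ℝ) * (2 * |t| + 3)) ≤ Real.log (Q ^ 2) :=
          Real.log_le_log (by (clear * - hq1; positivity)) h2
      _ = 2 * l := by rw [Real.log_pow]; push_cast; rfl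
  have hell0 : ∀ z : ℂ, 0 ≤ ell q z := fun z => (zero_le_one).trans (ell_ge hq1 z)
  by_cases hχ2 : χ ^ 2 = 1
  swap
  · -- complex characters
    have hK : ∀ σ : ℝ, 1 < σ → σ ≤ 2 →
        ‖Lm (chf (χ ^ 2)) 0 (σ + (2 * t : ℝ) * I)‖ ≤ (2 * C0 + 1) * l := by
      intro σ h1 h2
      have h3 := hb0 q (χ ^ 2) hχ2 (σ + (2 * t : ℝ) * I) (by simpa using h1) (by simpa using h2)
      refine h3.trans ?_
      rw [zero_add, pow_one]
      calc C0 * ell q ((σ:ℂ) + (2 * t : ℝ) * I) ≤ C0 * (2 * l) :=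
            mul_le_mul_of_nonneg_left (hell2 σ) hC0.le
        _ = 2 * C0 * l := by ring
        _ ≤ (2 * C0 + 1) * l := mul_le_mul_of_nonneg_right (by linarith) (by linarith only [hl1])
    have hK1 : 1 ≤ (2 * C0 + 1) * l :=
      one_le_mul_of_one_le_of_one_le (by linarith only [hC0]) hl1
    have h4 := h341 q χ t _ _ hB1 hK1 hB hK s.re hs1 hs2
    rw [← hsdecomp] at h4
    refine le_trans ?_ h4
    have e : ((C1 + 1) * l ^ 2) ^ 3 * ((2 * C0 + 1) * l) = D * (2 * C0 + 1) * l ^ 7 := by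
      rw [hD]; ring
    rw [e, ← div_div, ← hka]
    have hl7 : l ^ 7 ≤ l ^ 9 := pow_le_pow_right₀ hl1 (by norm_num)
    have hl70 : 0 < l ^ 7 := by (clear * - hl1; positivity)
    calc k * Q ^ (-(ε/2)) / l ^ 9 ≤ k * Q ^ (-(ε/2)) / l ^ 7 :=
          div_le_div_of_nonneg_left (by (clear * - hC0 hC1 hC2 hCz hc3 hcs' hq1; positivity)) hl70 hl7
      _ ≤ ka / l ^ 7 := by
          apply div_le_div_of_nonneg_right _ hl70.le
          calc k * Q ^ (-(ε/2)) ≤ ka * 1 := mul_le_mul hkka hQe1 hQe0.le hka0.le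
            _ = ka := mul_one ka
  · -- real characters
    set B0 : ℝ := C1 * (Real.log (q * 4)) ^ 2 with hB0
    have hB00 : 0 ≤ B0 := by (clear * - hC1; positivity)
    set τ : ℝ := cs * (q:ℝ) ^ (-(ε/2)) / (4 * B0 + 4) with hτ
    have hτ0 : 0 < τ := by (clear * - hC1 hcs' hq1; positivity)
    have hτ1 : τ ≤ 1 := by
      rw [hτ, div_le_one (by (clear * - hC1; positivity))]
      have : cs * (q:ℝ) ^ (-(ε/2)) ≤ 1 := mul_le_one₀ hcs1 hqe0.le hqe1
      linarith only [hB00, this]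
    have hlog4 : Real.log (q * 4) ≤ 2 * l := by
      have h2 : (q:ℝ) * 4 ≤ Q ^ 2 := by linarith only [hcs1, hkd, hkd0, hQ3, hQ2, hq3Q]
      calc Real.log ((q:ℝ) * 4) ≤ Real.log (Q ^ 2) := Real.log_le_log (by (clear * - hq1; positivity)) h2
        _ = 2 * l := by rw [Real.log_pow]; push_cast; rfl
    have hlog40 : 0 ≤ Real.log (q * 4) := Real.log_nonneg (by linarith only [hq1])
    have hτlow : cs / (16 * C1 + 4) * Q ^ (-(ε/2)) / l ^ 2 ≤ τ := by
      have h1 : 4 * B0 + 4 ≤ (16 * C1 + 4) * l ^ 2 := by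
        have h2 : (Real.log (q * 4)) ^ 2 ≤ (2 * l) ^ 2 := pow_le_pow_left₀ hlog40 hlog4 2
        have h3 : 1 ≤ l ^ 2 := one_le_pow₀ hl1
        have h4 : C1 * (Real.log (q * 4)) ^ 2 ≤ C1 * (2 * l) ^ 2 :=
          mul_le_mul_of_nonneg_left h2 hC1.le
        have h5 : C1 * (2 * l) ^ 2 = 4 * (C1 * l ^ 2) := by ring
        have h6 : (16 * C1 + 4) * l ^ 2 = 16 * (C1 * l ^ 2) + 4 * l ^ 2 := by ring
        rw [hB0]
        linarith only [h3, h4]
      calc cs / (16 * C1 + 4) * Q ^ (-(ε/2)) / l ^ 2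
          = cs * Q ^ (-(ε/2)) / ((16 * C1 + 4) * l ^ 2) := by field_simp
        _ ≤ cs * (q:ℝ) ^ (-(ε/2)) / (4 * B0 + 4) := by
            apply div_le_div₀ (by (clear * - hcs' hq1; positivity)) _ (by (clear * - hC1; positivity)) h1
            exact mul_le_mul_of_nonneg_left hqe hcs.le
    by_cases htτ : τ ≤ |t|
    · -- large imaginary part
      have hK : ∀ σ : ℝ, 1 < σ → σ ≤ 2 →
          ‖Lm (chf (χ ^ 2)) 0 (σ + (2 * t : ℝ) * I)‖ ≤ (3 * C2 + 1) * l / τ := by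
        intro σ h1 h2
        have h3 := hb2 q (χ ^ 2) (σ + (2 * t : ℝ) * I) (by simpa using h1) (by simpa using h2)
        refine h3.trans ?_
        have h5 : 1 / ‖(σ:ℂ) + (2 * t : ℝ) * I - 1‖ ≤ l / τ := by
          have h6 : τ ≤ ‖(σ:ℂ) + (2 * t : ℝ) * I - 1‖ := by
            have h7 := Complex.abs_im_le_norm ((σ:ℂ) + (2 * t : ℝ) * I - 1)
            have h8 : ((σ:ℂ) + (2 * t : ℝ) * I - 1).im = 2 * t := by simp
            rw [h8, abs_mul, abs_of_pos (by norm_num : (0:ℝ) < 2)] at h7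
            linarith only [hτ0, htτ, h7]
          exact div_le_div₀ (by linarith only [hl1]) hl1 hτ0 h6
        have h9 : ell q ((σ:ℂ) + (2 * t : ℝ) * I) ≤ 2 * l / τ := by
          refine (hell2 σ).trans ?_
          rw [le_div_iff₀ hτ0]
          exact mul_le_of_le_one_right (by linarith only [hl1]) hτ1
        have h10 : 0 < l / τ := by (clear * - hC1 hcs' hq1 hl1; positivity)
        calc C2 * (ell q ((σ:ℂ) + (2 * t : ℝ) * I) + 1 / ‖(σ:ℂ) + (2 * t : ℝ) * I - 1‖)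
            ≤ C2 * (2 * l / τ + l / τ) := mul_le_mul_of_nonneg_left (add_le_add h9 h5) hC2.le
          _ = 3 * C2 * (l / τ) := by ring
          _ ≤ (3 * C2 + 1) * (l / τ) := mul_le_mul_of_nonneg_right (by linarith) h10.le
          _ = (3 * C2 + 1) * l / τ := by ring
      have hK1 : 1 ≤ (3 * C2 + 1) * l / τ := by
        rw [le_div_iff₀ hτ0, one_mul]
        exact hτ1.trans (one_le_mul_of_one_le_of_one_le (by linarith only [hC2]) hl1)
      have h4 := h341 q χ t _ _ hB1 hK1 hB hK s.re hs1 hs2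
      rw [← hsdecomp] at h4
      refine le_trans ?_ h4
      have e : c3 / (((C1 + 1) * l ^ 2) ^ 3 * ((3 * C2 + 1) * l / τ)) =
          c3 / (D * (3 * C2 + 1)) * τ / l ^ 7 := by
        rw [hD]; field_simp
      rw [e]
      calc k * Q ^ (-(ε/2)) / l ^ 9 ≤ kb * Q ^ (-(ε/2)) / l ^ 9 := by
            apply div_le_div_of_nonneg_right _ (by (clear * - hl1; positivity))
            exact mul_le_mul_of_nonneg_right hkkb hQe0.le
        _ = c3 / (D * (3 * C2 + 1)) * (cs / (16 * C1 + 4) * Q ^ (-(ε/2)) / l ^ 2) / l ^ 7 := by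
            rw [hkb]; field_simp
        _ ≤ c3 / (D * (3 * C2 + 1)) * τ / l ^ 7 := by
            apply div_le_div_of_nonneg_right _ (by (clear * - hl1; positivity))
            exact mul_le_mul_of_nonneg_left hτlow (by (clear * - hC1 hC2 hc3; positivity))
    · push Not at htτ
      by_cases hστ : τ ≤ s.re - 1
      · -- large real part
        have h1 := one_le_norm_mul_zeta χ hs1
        have h2 := hbz (s.re : ℂ) (by simpa using hs1) (by simpa using hs2)
        rw [zero_add, pow_one] at h2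
        have h3 : ell 1 (s.re : ℂ) ≤ 2 := by
          unfold ell
          rw [ofReal_im, abs_zero, zero_add, one_mul]
          have h4 : Real.log 3 ≤ Real.log (Real.exp 2) := by
            apply Real.log_le_log (by norm_num)
            have := Real.add_one_le_exp (2:ℝ)
            linarith only [this]
          rwa [Real.log_exp] at h4
        have h5 : 1 / ‖(s.re : ℂ) - 1‖ ≤ 1 / τ := by
          apply one_div_le_one_div_of_le hτ0
          have : (s.re : ℂ) - 1 = ((s.re - 1 : ℝ) : ℂ) := by push_cast; rfl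
          rw [this, Complex.norm_real, Real.norm_of_nonneg (by linarith only [hs1])]
          exact hστ
        have h6 : ‖Lm (fun _ => 1) 0 (s.re : ℂ)‖ ≤ 3 * Cz / τ := by
          refine h2.trans ?_
          have h7 : 2 ≤ 2 / τ := by rw [le_div_iff₀ hτ0]; linarith only [hτ1]
          calc Cz * (ell 1 (s.re : ℂ) + 1 / ‖(s.re : ℂ) - 1‖) ≤ Cz * (2 / τ + 1 / τ) :=
                mul_le_mul_of_nonneg_left (by linarith only [h3, h5, h7]) hCz.le
            _ = 3 * Cz / τ := by ring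
        have h7 : 1 ≤ ‖Lm (chf χ) 0 s‖ * (3 * Cz / τ) :=
          h1.trans (mul_le_mul_of_nonneg_left h6 (norm_nonneg _))
        have h8 : 1 / (3 * Cz) * τ ≤ ‖Lm (chf χ) 0 s‖ := by
          have h9 : 0 < 3 * Cz / τ := by (clear * - hC1 hCz hcs' hq1; positivity)
          rw [← div_le_iff₀ h9] at h7
          refine le_trans (le_of_eq ?_) h7
          field_simp
        refine le_trans ?_ h8
        have hl9 : l ^ 2 ≤ l ^ 9 := pow_le_pow_right₀ hl1 (by norm_num)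
        calc k * Q ^ (-(ε/2)) / l ^ 9 ≤ kc * Q ^ (-(ε/2)) / l ^ 2 := by
              apply div_le_div₀ (by (clear * - hC1 hCz hcs' hq1; positivity)) _ (by (clear * - hl1; positivity)) hl9
              exact mul_le_mul_of_nonneg_right hkkc hQe0.le
          _ = 1 / (3 * Cz) * (cs / (16 * C1 + 4) * Q ^ (-(ε/2)) / l ^ 2) := by
              rw [hkc]; ring
          _ ≤ 1 / (3 * Cz) * τ := mul_le_mul_of_nonneg_left hτlow (by (clear * - hCz; positivity))
      · -- near the point 1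
        push Not at hστ
        have hB' : ∀ z : ℂ, 1 < z.re → z.re ≤ 2 → |z.im| ≤ 1 → ‖Lm (chf χ) 1 z‖ ≤ B0 := by
          intro z h1 h2 h3
          refine (hb1 q χ hχ z h1 h2).trans ?_
          rw [hB0]
          apply mul_le_mul_of_nonneg_left _ hC1.le
          apply pow_le_pow_left₀ (hell0 z)
          unfold ell
          apply Real.log_le_log
          · have := abs_nonneg z.im
            (clear * - hq1; positivity)
          · have : |z.im| + 3 ≤ 4 := by linarith only [h3]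
            exact mul_le_mul_of_nonneg_left this (by (clear * - hq1; positivity))
        have h1 := sub_one_le χ hχ hB' hs1 hs2 (by linarith only [hτ1, htτ] : |s.im| ≤ 1)
        have h2 : ‖s - 1‖ ≤ 2 * τ := by
          have h3 := Complex.norm_le_abs_re_add_abs_im (s - 1)
          rw [sub_re, sub_im, one_re, one_im, sub_zero] at h3
          have h4 : |s.re - 1| ≤ τ := by rw [abs_of_pos (by linarith only [hs1])]; exact hστ.le
          have h5 : |s.im| ≤ τ := htτ.le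
          linarith only [htτ, h3, h4]
        have h3 : B0 * ‖s - 1‖ ≤ cs * (q:ℝ) ^ (-(ε/2)) / 2 := by
          have h4 : B0 * ‖s - 1‖ ≤ B0 * (2 * τ) := mul_le_mul_of_nonneg_left h2 hB00
          have h5 : (4 * B0 + 4) * τ = cs * (q:ℝ) ^ (-(ε/2)) := by
            rw [hτ, mul_div_cancel₀ _ (by (clear * - hC1; positivity))]
          have h6 : B0 * (2 * τ) = ((4 * B0 + 4) * τ - 4 * τ) / 2 := by ring
          rw [h5] at h6
          linarith only [hs1, hστ, h4, h5]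
        have h4 := hsiegel q χ hχ hχ2
        have h5 : ‖LFunction χ 1‖ ≤ ‖Lm (chf χ) 0 s‖ + ‖Lm (chf χ) 0 s - LFunction χ 1‖ := by
          have h6 := norm_sub_norm_le (LFunction χ 1) (Lm (chf χ) 0 s)
          rw [norm_sub_rev] at h6
          linarith
        have h6 : cs / 2 * (q:ℝ) ^ (-(ε/2)) ≤ ‖Lm (chf χ) 0 s‖ := by linarith
        refine le_trans ?_ h6
        have hl9 : 1 ≤ l ^ 9 := one_le_pow₀ hl1
        calc k * Q ^ (-(ε/2)) / l ^ 9 ≤ kd * Q ^ (-(ε/2)) / 1 := by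
              apply div_le_div₀ (by (clear * - hcs' hq1; positivity)) _ one_pos hl9
              exact mul_le_mul_of_nonneg_right hkkd hQe0.le
          _ ≤ cs / 2 * (q:ℝ) ^ (-(ε/2)) := by
              rw [div_one, hkd]
              exact mul_le_mul_of_nonneg_left hqe (by (clear * - hcs'; positivity))

end Pool.Agent.Lib.SW
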