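import Pool.Agent.Lib.SW.Recursion
import Pool.Agent.Lib.SW.LowerAll

/-!
# Bounds for the derivatives of L'/L, nonprincipal characters

D = A (q(|t|+3))^(ε/(2m+2)) works in F_bound_of: upper bounds by Lm_chf_bound j
(j <= m+1) and (log y)^k <= K y^δ, lower bound by lower_all with ε/(2m+2).
-/

open Complex

namespace Pool.Agent.Lib.SW

/-- powers of the logarithm are smaller than small powers -/
lemma log_pow_le_rpow (k : ℕ) (δ : ℝ) (hδ : 0 < δ) : ∃ K : ℝ, 0 < K ∧ ∀ y : ℝ, 1 ≤ y →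
    Real.log y ^ (k + 1) ≤ K * y ^ δ := by
  have hk : (0 : ℝ) < (k : ℝ) + 1 := by positivity
  set η : ℝ := δ / (k + 1) with hη
  have hη0 : 0 < η := div_pos hδ hk
  refine ⟨(1 / η) ^ (k + 1), by positivity, fun y hy => ?_⟩
  have h0 : 0 ≤ y := by linarith
  have h1 : Real.log y ≤ y ^ η / η := Real.log_le_rpow_div h0 hη0
  have h2 : 0 ≤ Real.log y := Real.log_nonneg hy
  calc Real.log y ^ (k + 1) ≤ (y ^ η / η) ^ (k + 1) := pow_le_pow_left₀ h2 h1 _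
    _ = (1 / η) ^ (k + 1) * (y ^ η) ^ (k + 1) := by rw [← mul_pow]; congr 1; ring
    _ = (1 / η) ^ (k + 1) * y ^ δ := by
        congr 1
        rw [← Real.rpow_natCast, ← Real.rpow_mul h0]
        congr 1
        rw [hη]
        push_cast
        field_simp

theorem F_bound (m : ℕ) (ε : ℝ) (hε : 0 < ε) : ∃ C : ℝ, 0 < C ∧ ∀ (q : ℕ) [NeZero q]
    (χ : DirichletCharacter ℂ q), χ ≠ 1 → ∀ s : ℂ, 1 < s.re → s.re ≤ 2 →
    ‖Lm (lam (chf χ)) m s‖ ≤ C * ((q:ℝ) * (|s.im| + 3)) ^ ε := by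
  have hm : (0 : ℝ) < 2 * (m : ℝ) + 2 := by positivity
  set δ : ℝ := ε / (2 * m + 2) with hδ
  have hδ0 : 0 < δ := div_pos hε hm
  obtain ⟨C₁, hC₁, hF⟩ := F_bound_of m
  choose Cb hCb hbound using Lm_chf_bound
  choose Kb hKb hlog using fun j => log_pow_le_rpow j δ hδ0
  obtain ⟨c, hc, hlow⟩ := lower_all δ hδ0
  set A : ℝ := 1 + ∑ j ∈ Finset.range (m + 2), Cb j * Kb j + 1 / c with hA
  have hsum : 0 ≤ ∑ j ∈ Finset.range (m + 2), Cb j * Kb j :=
    Finset.sum_nonneg fun j _ => (mul_pos (hCb j) (hKb j)).le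
  have hc' : 0 < 1 / c := by positivity
  have hA1 : 1 ≤ A := by rw [hA]; linarith
  have hA0 : 0 < A := by linarith
  refine ⟨C₁ * A ^ (2 * m + 2), by positivity, fun q _ χ hχ s hs1 hs2 => ?_⟩
  set y : ℝ := (q : ℝ) * (|s.im| + 3) with hy
  have hq : (1 : ℝ) ≤ q := by exact_mod_cast Nat.one_le_iff_ne_zero.2 (NeZero.ne q)
  have hy1 : 1 ≤ y := by
    have : (0 : ℝ) ≤ |s.im| := abs_nonneg _
    rw [hy]; nlinarith
  have hy0 : 0 < y := by linarith
  have hyδ : 1 ≤ y ^ δ := Real.one_le_rpow hy1 hδ0.le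
  have hD1 : 1 ≤ A * y ^ δ := by nlinarith
  have h1 : ∀ j ≤ m + 1, ‖Lm (chf χ) j s‖ ≤ A * y ^ δ := by
    intro j hj
    have e1 := hbound j q χ hχ s hs1 hs2
    have e2 : ell q s ^ (j + 1) ≤ Kb j * y ^ δ := hlog j y hy1
    have e3 : Cb j * Kb j ≤ A := by
      have := Finset.single_le_sum (f := fun j => Cb j * Kb j)
        (fun j _ => (mul_pos (hCb j) (hKb j)).le) (Finset.mem_range.2 (by omega : j < m + 2))
      rw [hA]
      linarith
    calc ‖Lm (chf χ) j s‖ ≤ Cb j * ell q s ^ (j + 1) := e1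
      _ ≤ Cb j * (Kb j * y ^ δ) := mul_le_mul_of_nonneg_left e2 (hCb j).le
      _ = (Cb j * Kb j) * y ^ δ := by ring
      _ ≤ A * y ^ δ := mul_le_mul_of_nonneg_right e3 (by linarith)
  have h2 : (A * y ^ δ)⁻¹ ≤ ‖Lm (chf χ) 0 s‖ := by
    refine le_trans ?_ (hlow q χ hχ s hs1 hs2)
    rw [mul_inv, Real.rpow_neg hy0.le]
    refine mul_le_mul_of_nonneg_right ?_ (by positivity)
    rw [inv_le_comm₀ hA0 hc, ← one_div]
    rw [hA]; linarith
  refine (hF q χ s (A * y ^ δ) hD1 hs1 h1 h2).trans (le_of_eq ?_)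
  rw [mul_pow, mul_assoc]
  congr 2
  rw [← Real.rpow_natCast, ← Real.rpow_mul hy0.le]
  congr 1
  rw [hδ]
  push_cast
  field_simp

end Pool.Agent.Lib.SW
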