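import Pool.Agent.Lib.SW.Defs

/-!
# The recursion for the derivatives of L'/L

PROOF SKETCH. leibniz_twist by induction on m: m = 0 is -L' = (-L'/L) L
(DirichletCharacter.LSeries_twist_vonMangoldt_eq, Lm_hasDerivAt, or the convolution identity
DirichletCharacter.convolution_twist_vonMangoldt with LSeries_convolution'). Step: differentiate
both sides in the open half plane Re s > 1 (Lm_hasDerivAt for chf χ and for lam (chf χ), see
abscissa_chf, abscissa_lam_chf) and use Pascal's rule. F_bound_of: solve for the term i = m,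
F_m L_0 = L_{m+1} - sum_{i<m} binom(m,i) F_i L_{m-i}, strong induction,
|F_m| <= D (D + sum_i binom C_i D^(2i+2) D) <= C_m D^(2m+2).
-/

open Complex

namespace Pool.Agent.Lib.SW

lemma leibniz_zero {q : ℕ} [NeZero q] (χ : DirichletCharacter ℂ q) {s : ℂ}
    (hs : 1 < s.re) : Lm (chf χ) 1 s = Lm (lam (chf χ)) 0 s * Lm (chf χ) 0 s := by
  have h0 := Lm_chf_ne_zero χ hs
  have h1 := DirichletCharacter.LSeries_twist_vonMangoldt_eq χ hs
  have h2 : Lm (lam (chf χ)) 0 s = -deriv (Lm (chf χ) 0) s / Lm (chf χ) 0 s := by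
    have e1 : Lm (chf χ) 0 = LSeries (fun n : ℕ => χ (n : ZMod q)) := by
      funext z
      rw [Lm_zero]; rfl
    rw [e1, ← h1, Lm_zero]
    rfl
  rw [h2, div_mul_cancel₀ _ h0, (Lm_hasDerivAt (abscissa_chf χ) 0 hs).deriv, neg_neg]

theorem leibniz_twist {q : ℕ} [NeZero q] (χ : DirichletCharacter ℂ q) (m : ℕ) {s : ℂ}
    (hs : 1 < s.re) : Lm (chf χ) (m+1) s =
      ∑ i ∈ Finset.range (m+1), (m.choose i : ℂ) * Lm (lam (chf χ)) i s * Lm (chf χ) (m-i) s := by
  induction m generalizing s with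
  | zero => simpa using leibniz_zero χ hs
  | succ m ih =>
    have hopen : IsOpen {z : ℂ | 1 < z.re} := isOpen_lt continuous_const Complex.continuous_re
    have hev : (fun z => Lm (chf χ) (m+1) z) =ᶠ[nhds s] (fun z =>
        ∑ i ∈ Finset.range (m+1), (m.choose i : ℂ) * Lm (lam (chf χ)) i z *
          Lm (chf χ) (m-i) z) := by
      filter_upwards [hopen.mem_nhds hs] with z hz using ih hz
    have hd1 := Lm_hasDerivAt (abscissa_chf χ) (m+1) hs
    have hd2 : HasDerivAt (fun z => ∑ i ∈ Finset.range (m+1),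
        (m.choose i : ℂ) * Lm (lam (chf χ)) i z * Lm (chf χ) (m-i) z)
        (∑ i ∈ Finset.range (m+1),
          (((m.choose i : ℂ) * (-(Lm (lam (chf χ)) (i+1) s))) * Lm (chf χ) (m-i) s +
          (m.choose i : ℂ) * Lm (lam (chf χ)) i s * (-(Lm (chf χ) (m-i+1) s)))) s := by
      apply HasDerivAt.fun_sum
      intro i _
      exact ((Lm_hasDerivAt (abscissa_lam_chf χ) i hs).const_mul _).mul
        (Lm_hasDerivAt (abscissa_chf χ) (m-i) hs)
    have hd3 := hd1.congr_of_eventuallyEq hev.symm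
    have heq := hd3.unique hd2
    have hP := Finset.sum_choose_succ_mul
      (fun i j => Lm (lam (chf χ)) i s * Lm (chf χ) j s) m
    have e : (∑ i ∈ Finset.range (m+1),
          (((m.choose i : ℂ) * (-(Lm (lam (chf χ)) (i+1) s))) * Lm (chf χ) (m-i) s +
          (m.choose i : ℂ) * Lm (lam (chf χ)) i s * (-(Lm (chf χ) (m-i+1) s)))) =
        - ((∑ i ∈ Finset.range (m+1), (m.choose i : ℂ) *
            (Lm (lam (chf χ)) i s * Lm (chf χ) (m+1-i) s)) +
          ∑ i ∈ Finset.range (m+1), (m.choose i : ℂ) *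
            (Lm (lam (chf χ)) (i+1) s * Lm (chf χ) (m-i) s)) := by
      rw [← Finset.sum_add_distrib, ← Finset.sum_neg_distrib]
      apply Finset.sum_congr rfl
      intro i hi
      have hi' : i ≤ m := Nat.lt_succ_iff.mp (Finset.mem_range.mp hi)
      rw [show m + 1 - i = m - i + 1 by omega]
      ring
    rw [e, ← hP] at heq
    have heq' := neg_injective heq
    rw [heq']
    apply Finset.sum_congr rfl
    intro i _
    ring

theorem F_bound_aux (m : ℕ) : ∃ C : ℝ, 0 < C ∧ ∀ i ≤ m, ∀ (q : ℕ) [NeZero q]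
    (χ : DirichletCharacter ℂ q)
    (s : ℂ) (D : ℝ), 1 ≤ D → 1 < s.re → (∀ j ≤ i+1, ‖Lm (chf χ) j s‖ ≤ D) →
    D⁻¹ ≤ ‖Lm (chf χ) 0 s‖ → ‖Lm (lam (chf χ)) i s‖ ≤ C * D ^ (2*i+2) := by
  induction m with
  | zero =>
    refine ⟨1, one_pos, ?_⟩
    intro i hi q _ χ s D hD hs hL h0
    obtain rfl : i = 0 := by omega
    have h1 := leibniz_zero χ hs
    have h2 : ‖Lm (chf χ) 1 s‖ = ‖Lm (lam (chf χ)) 0 s‖ * ‖Lm (chf χ) 0 s‖ := by
      rw [h1, norm_mul]
    have h3 := hL 1 (by norm_num)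
    rw [h2] at h3
    have hDpos : 0 < D := by linarith
    have h4 : ‖Lm (lam (chf χ)) 0 s‖ * D⁻¹ ≤ D :=
      (mul_le_mul_of_nonneg_left h0 (norm_nonneg _)).trans h3
    rw [← div_eq_mul_inv, div_le_iff₀ hDpos] at h4
    simpa [pow_two] using h4
  | succ m ih =>
    obtain ⟨C, hC, hb⟩ := ih
    refine ⟨C + 1 + 2 ^ (m+1) * C, by positivity, ?_⟩
    intro i hi q _ χ s D hD hs hL h0
    have hDpos : 0 < D := by linarith
    rcases Nat.lt_or_ge i (m+1) with hlt | hge
    · refine (hb i (by omega) q χ s D hD hs hL h0).trans ?_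
      apply mul_le_mul_of_nonneg_right _ (by positivity)
      have : 0 ≤ (2:ℝ) ^ (m+1) * C := by positivity
      linarith
    · obtain rfl : i = m + 1 := by omega
      have hlz := leibniz_twist χ (m+1) hs
      rw [Finset.sum_range_succ] at hlz
      simp only [Nat.choose_self, Nat.cast_one, one_mul, Nat.sub_self] at hlz
      have hF : ∀ j ≤ m, ‖Lm (lam (chf χ)) j s‖ ≤ C * D ^ (2*j+2) := by
        intro j hj
        exact hb j hj q χ s D hD hs (fun k hk => hL k (by omega)) h0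
      have hsum : ‖∑ j ∈ Finset.range (m+1), ((m+1).choose j : ℂ) * Lm (lam (chf χ)) j s *
          Lm (chf χ) (m+1-j) s‖ ≤ 2 ^ (m+1) * C * D ^ (2*m+3) := by
        refine (norm_sum_le _ _).trans ?_
        have hterm : ∀ j ∈ Finset.range (m+1), ‖((m+1).choose j : ℂ) * Lm (lam (chf χ)) j s *
            Lm (chf χ) (m+1-j) s‖ ≤ ((m+1).choose j : ℝ) * (C * D ^ (2*m+3)) := by
          intro j hj
          have hj' : j ≤ m := Nat.lt_succ_iff.mp (Finset.mem_range.mp hj)
          rw [norm_mul, norm_mul, Complex.norm_natCast, mul_assoc]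
          apply mul_le_mul_of_nonneg_left _ (Nat.cast_nonneg _)
          calc ‖Lm (lam (chf χ)) j s‖ * ‖Lm (chf χ) (m+1-j) s‖
              ≤ (C * D ^ (2*j+2)) * D := by
                apply mul_le_mul (hF j hj') (hL _ (by omega)) (norm_nonneg _)
                positivity
            _ = C * D ^ (2*j+3) := by ring
            _ ≤ C * D ^ (2*m+3) := by
                apply mul_le_mul_of_nonneg_left _ hC.le
                exact pow_le_pow_right₀ hD (by omega)
        refine (Finset.sum_le_sum hterm).trans ?_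
        rw [← Finset.sum_mul, ← mul_assoc, ]
        have hch : (∑ j ∈ Finset.range (m+1), ((m+1).choose j : ℝ)) ≤ 2 ^ (m+1) := by
          have h1 : (∑ j ∈ Finset.range (m+1+1), ((m+1).choose j : ℝ)) = 2 ^ (m+1) := by
            exact_mod_cast Nat.sum_range_choose (m+1)
          rw [← h1]
          apply Finset.sum_le_sum_of_subset_of_nonneg
          · exact Finset.range_mono (by omega)
          · intros; positivity
        apply mul_le_mul_of_nonneg_right _ (by positivity)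
        exact mul_le_mul_of_nonneg_right hch hC.le
      have hmain : Lm (lam (chf χ)) (m+1) s * Lm (chf χ) 0 s = Lm (chf χ) (m+1+1) s -
          ∑ j ∈ Finset.range (m+1), ((m+1).choose j : ℂ) * Lm (lam (chf χ)) j s *
          Lm (chf χ) (m+1-j) s := by
        rw [hlz]; ring
      have hn : ‖Lm (lam (chf χ)) (m+1) s‖ * ‖Lm (chf χ) 0 s‖ ≤
          D + 2 ^ (m+1) * C * D ^ (2*m+3) := by
        rw [← norm_mul, hmain]
        refine (norm_sub_le _ _).trans ?_
        exact add_le_add (hL _ le_rfl) hsum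
      have h4 : ‖Lm (lam (chf χ)) (m+1) s‖ * D⁻¹ ≤ D + 2 ^ (m+1) * C * D ^ (2*m+3) :=
        (mul_le_mul_of_nonneg_left h0 (norm_nonneg _)).trans hn
      rw [← div_eq_mul_inv, div_le_iff₀ hDpos] at h4
      refine h4.trans ?_
      have h5 : D * D ≤ D ^ (2*(m+1)+2) := by
        rw [← pow_two]
        exact pow_le_pow_right₀ hD (by omega)
      calc (D + 2 ^ (m+1) * C * D ^ (2*m+3)) * D
          = D * D + 2 ^ (m+1) * C * D ^ (2*(m+1)+2) := by ring
        _ ≤ D ^ (2*(m+1)+2) + 2 ^ (m+1) * C * D ^ (2*(m+1)+2) := by linarith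
        _ ≤ (C + 1 + 2 ^ (m+1) * C) * D ^ (2*(m+1)+2) := by
          have : 0 ≤ C * D ^ (2*(m+1)+2) := by positivity
          linarith

theorem F_bound_of (m : ℕ) : ∃ C : ℝ, 0 < C ∧ ∀ (q : ℕ) [NeZero q] (χ : DirichletCharacter ℂ q)
    (s : ℂ) (D : ℝ), 1 ≤ D → 1 < s.re → (∀ j ≤ m+1, ‖Lm (chf χ) j s‖ ≤ D) →
    D⁻¹ ≤ ‖Lm (chf χ) 0 s‖ → ‖Lm (lam (chf χ)) m s‖ ≤ C * D ^ (2*m+2) := by
  obtain ⟨C, hC, hb⟩ := F_bound_aux m
  exact ⟨C, hC, hb m le_rfl⟩

end Pool.Agent.Lib.SW
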