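import Pool.Agent.Lib.SW.Defs

/-!
# Derivatives of Dirichlet series with bounded partial sums near the line Re s = 1

Partial summation against `g x = (log x)^m x^(-s)`; the variation of `g` is controlled by the
primitive `- K P_m (1 + log x) / x` of `K (1 + log x)^m / x^2`.
-/

open Complex

namespace Pool.Agent.Lib.SW

/-- The polynomials with `P_m - P_m' = L ^ m`. -/
noncomputable def zmP : ℕ → ℝ → ℝ
  | 0, _ => 1
  | (m+1), L => L ^ (m+1) + (m+1 : ℝ) * zmP m L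

/-- The derivative of `zmP`. -/
noncomputable def zmP' : ℕ → ℝ → ℝ
  | 0, _ => 0
  | (m+1), L => (m+1 : ℝ) * L ^ m + (m+1 : ℝ) * zmP' m L

lemma zmP_hasDerivAt (m : ℕ) (L : ℝ) : HasDerivAt (zmP m) (zmP' m L) L := by
  induction m with
  | zero => exact hasDerivAt_const L (1:ℝ)
  | succ m ih =>
    have h1 : HasDerivAt (fun L : ℝ => L ^ (m+1)) (((m+1 : ℕ) : ℝ) * L ^ m) L := by
      simpa using hasDerivAt_pow (m+1) L
    have h2 := h1.add (ih.const_mul ((m:ℝ)+1))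
    have e1 : zmP (m+1) = fun L => L ^ (m+1) + ((m:ℝ)+1) * zmP m L := rfl
    have e2 : zmP' (m+1) L = ((m:ℝ)+1) * L ^ m + ((m:ℝ)+1) * zmP' m L := rfl
    rw [e1, e2]
    have h3 : (((m+1 : ℕ) : ℝ) * L ^ m + ((m:ℝ)+1) * zmP' m L) =
        ((m:ℝ)+1) * L ^ m + ((m:ℝ)+1) * zmP' m L := by push_cast; ring
    rw [← h3]
    exact h2

lemma zmP_sub (m : ℕ) (L : ℝ) : zmP m L - zmP' m L = L ^ m := by
  induction m with
  | zero => simp [zmP, zmP']
  | succ m ih =>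
    have e1 : zmP (m+1) L = L ^ (m+1) + ((m:ℝ)+1) * zmP m L := rfl
    have e2 : zmP' (m+1) L = ((m:ℝ)+1) * L ^ m + ((m:ℝ)+1) * zmP' m L := rfl
    rw [e1, e2]
    have : zmP' m L = zmP m L - L ^ m := by linarith
    rw [this]; ring

lemma zmP_nonneg (m : ℕ) {L : ℝ} (hL : 1 ≤ L) : 0 ≤ zmP m L := by
  induction m with
  | zero => simp [zmP]
  | succ m ih =>
    have e1 : zmP (m+1) L = L ^ (m+1) + ((m:ℝ)+1) * zmP m L := rfl
    rw [e1]; positivity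

lemma zmP_le (m : ℕ) {L : ℝ} (hL : 1 ≤ L) : zmP m L ≤ ((m+1).factorial : ℝ) * L ^ m := by
  induction m with
  | zero => simp [zmP]
  | succ m ih =>
    have e1 : zmP (m+1) L = L ^ (m+1) + ((m:ℝ)+1) * zmP m L := rfl
    rw [e1]
    have h1 : L ^ m ≤ L ^ (m+1) := pow_le_pow_right₀ hL (Nat.le_succ m)
    have h2 : (1:ℝ) ≤ ((m+1).factorial : ℝ) := by
      exact_mod_cast Nat.one_le_iff_ne_zero.mpr (Nat.factorial_ne_zero _)
    have h3 : ((m+1+1).factorial : ℝ) = ((m:ℝ)+2) * ((m+1).factorial : ℝ) := by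
      rw [Nat.factorial_succ (m+1)]; push_cast; ring
    rw [h3]
    have hp : 0 ≤ L ^ (m+1) := by positivity
    have h4 : ((m:ℝ)+1) * zmP m L ≤ ((m:ℝ)+1) * (((m+1).factorial : ℝ) * L ^ (m+1)) := by
      apply mul_le_mul_of_nonneg_left _ (by positivity)
      exact ih.trans (mul_le_mul_of_nonneg_left h1 (by positivity))
    nlinarith

/-- The kernel. -/
noncomputable def zmg (m : ℕ) (s : ℂ) (x : ℝ) : ℂ := ((Real.log x ^ m : ℝ) : ℂ) * (x : ℂ) ^ (-s)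

/-- The comparison function. -/
noncomputable def zmH (m : ℕ) (K : ℝ) (x : ℝ) : ℝ := -(K * zmP m (1 + Real.log x) / x)

lemma zmH_hasDerivAt (m : ℕ) (K : ℝ) {x : ℝ} (hx : 0 < x) :
    HasDerivAt (zmH m K) (K * (1 + Real.log x) ^ m / x ^ 2) x := by
  have h1 : HasDerivAt (fun x => 1 + Real.log x) (x⁻¹) x :=
    (Real.hasDerivAt_log hx.ne').const_add 1
  have h2 : HasDerivAt (fun x => zmP m (1 + Real.log x)) (zmP' m (1 + Real.log x) * x⁻¹) x :=
    HasDerivAt.comp x (zmP_hasDerivAt m (1 + Real.log x)) h1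
  have h3 := ((h2.const_mul K).div (hasDerivAt_id x) hx.ne').neg
  have e : zmH m K = fun x => -(K * zmP m (1 + Real.log x) / x) := rfl
  rw [e]
  have h4 := zmP_sub m (1 + Real.log x)
  have h5 : K * (1 + Real.log x) ^ m / x ^ 2 =
      -((K * (zmP' m (1 + Real.log x) * x⁻¹) * id x - K * zmP m (1 + Real.log x) * 1) /
        id x ^ 2) := by
    rw [← h4]
    simp only [id]
    field_simp
    ring
  rw [h5]
  exact h3

lemma zmg_hasDerivAt (m : ℕ) (s : ℂ) {x : ℝ} (hx : 0 < x) :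
    HasDerivAt (zmg m s) ((((m : ℝ) * Real.log x ^ (m-1) * x⁻¹ : ℝ) : ℂ) * (x:ℂ) ^ (-s) +
      ((Real.log x ^ m : ℝ) : ℂ) * (-s * (x:ℂ) ^ (-s - 1))) x := by
  have h1 : HasDerivAt (fun x : ℝ => ((Real.log x ^ m : ℝ) : ℂ))
      (((m : ℝ) * Real.log x ^ (m-1) * x⁻¹ : ℝ) : ℂ) x := by
    exact ((Real.hasDerivAt_log hx.ne').pow m).ofReal_comp
  have h2 : HasDerivAt (fun x : ℝ => (x:ℂ) ^ (-s)) (-s * (x:ℂ) ^ (-s-1)) x := by
    have h3 : HasDerivAt (fun z : ℂ => z ^ (-s)) (-s * (x:ℂ) ^ (-s-1) * 1) (x:ℂ) :=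
      (hasDerivAt_id (x:ℂ)).cpow_const (Or.inl (by simpa using hx))
    rw [mul_one] at h3
    exact h3.comp_ofReal
  exact h1.mul h2

lemma norm_cpow_neg {s : ℂ} (hs : 1 < s.re) {x : ℝ} (hx : 1 ≤ x) :
    ‖(x:ℂ) ^ (-s)‖ ≤ 1 / x := by
  have hx0 : 0 < x := by linarith
  rw [Complex.norm_cpow_eq_rpow_re_of_pos hx0, Complex.neg_re]
  calc x ^ (-s.re) ≤ x ^ (-1 : ℝ) := Real.rpow_le_rpow_of_exponent_le hx (by linarith)
    _ = 1 / x := by rw [Real.rpow_neg_one, one_div]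

lemma norm_cpow_neg' {s : ℂ} (hs : 1 < s.re) {x : ℝ} (hx : 1 ≤ x) :
    ‖(x:ℂ) ^ (-s - 1)‖ ≤ 1 / x ^ 2 := by
  have hx0 : 0 < x := by linarith
  rw [Complex.norm_cpow_eq_rpow_re_of_pos hx0, Complex.sub_re, Complex.neg_re, Complex.one_re]
  calc x ^ (-s.re - 1) ≤ x ^ (-2 : ℝ) := Real.rpow_le_rpow_of_exponent_le hx (by linarith)
    _ = 1 / x ^ 2 := by
        rw [Real.rpow_neg hx0.le, one_div]
        norm_num

lemma norm_zmg_le (m : ℕ) {s : ℂ} (hs : 1 < s.re) {x : ℝ} (hx : 1 ≤ x) :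
    ‖zmg m s x‖ ≤ Real.log x ^ m / x := by
  have hl : 0 ≤ Real.log x := Real.log_nonneg hx
  rw [zmg, norm_mul, Complex.norm_real, Real.norm_of_nonneg (by positivity)]
  calc Real.log x ^ m * ‖(x:ℂ) ^ (-s)‖ ≤ Real.log x ^ m * (1 / x) :=
        mul_le_mul_of_nonneg_left (norm_cpow_neg hs hx) (by positivity)
    _ = _ := by ring

lemma norm_deriv_le (m : ℕ) {s : ℂ} (hs : 1 < s.re) {x : ℝ} (hx : 1 ≤ x) :
    ‖(((m : ℝ) * Real.log x ^ (m-1) * x⁻¹ : ℝ) : ℂ) * (x:ℂ) ^ (-s) +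
      ((Real.log x ^ m : ℝ) : ℂ) * (-s * (x:ℂ) ^ (-s - 1))‖ ≤
      ((m:ℝ) + ‖s‖) * (1 + Real.log x) ^ m / x ^ 2 := by
  have hx0 : 0 < x := by linarith
  have hl : 0 ≤ Real.log x := Real.log_nonneg hx
  have h1 : (m:ℝ) * Real.log x ^ (m-1) ≤ (m:ℝ) * (1 + Real.log x) ^ m := by
    rcases Nat.eq_zero_or_pos m with rfl | hm
    · simp
    apply mul_le_mul_of_nonneg_left _ (by positivity)
    calc Real.log x ^ (m-1) ≤ (1 + Real.log x) ^ (m-1) :=
          pow_le_pow_left₀ hl (by linarith) _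
      _ ≤ (1 + Real.log x) ^ m := pow_le_pow_right₀ (by linarith) (Nat.sub_le _ _)
  have h2 : Real.log x ^ m ≤ (1 + Real.log x) ^ m := pow_le_pow_left₀ hl (by linarith) _
  have a1 : ‖(((m : ℝ) * Real.log x ^ (m-1) * x⁻¹ : ℝ) : ℂ) * (x:ℂ) ^ (-s)‖ ≤
      (m:ℝ) * (1 + Real.log x) ^ m / x ^ 2 := by
    rw [norm_mul, Complex.norm_real, Real.norm_of_nonneg (by positivity)]
    calc (m : ℝ) * Real.log x ^ (m-1) * x⁻¹ * ‖(x:ℂ) ^ (-s)‖
        ≤ (m : ℝ) * (1 + Real.log x) ^ m * x⁻¹ * (1 / x) := by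
          apply mul_le_mul _ (norm_cpow_neg hs hx) (norm_nonneg _) (by positivity)
          exact mul_le_mul_of_nonneg_right h1 (by positivity)
      _ = _ := by field_simp
  have a2 : ‖((Real.log x ^ m : ℝ) : ℂ) * (-s * (x:ℂ) ^ (-s - 1))‖ ≤
      ‖s‖ * (1 + Real.log x) ^ m / x ^ 2 := by
    rw [norm_mul, Complex.norm_real, Real.norm_of_nonneg (by positivity), norm_mul, norm_neg]
    calc Real.log x ^ m * (‖s‖ * ‖(x:ℂ) ^ (-s - 1)‖)
        ≤ (1 + Real.log x) ^ m * (‖s‖ * (1 / x ^ 2)) := by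
          apply mul_le_mul h2 _ (by positivity) (by positivity)
          exact mul_le_mul_of_nonneg_left (norm_cpow_neg' hs hx) (norm_nonneg _)
      _ = _ := by ring
  refine (norm_add_le _ _).trans ((add_le_add a1 a2).trans (le_of_eq ?_))
  ring

lemma zmg_sub_le (m : ℕ) {s : ℂ} (hs : 1 < s.re) {a b : ℝ} (ha : 1 ≤ a) (hab : a ≤ b) :
    ‖zmg m s b - zmg m s a‖ ≤ zmH m ((m:ℝ) + ‖s‖) b - zmH m ((m:ℝ) + ‖s‖) a := by
  set K : ℝ := (m:ℝ) + ‖s‖ with hK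
  have hpos : ∀ x ∈ Set.Icc a b, 0 < x := fun x hx => by linarith [hx.1]
  have key := image_norm_le_of_norm_deriv_right_le_deriv_boundary'
    (f := fun x => zmg m s x - zmg m s a)
    (f' := fun x => (((m : ℝ) * Real.log x ^ (m-1) * x⁻¹ : ℝ) : ℂ) * (x:ℂ) ^ (-s) +
      ((Real.log x ^ m : ℝ) : ℂ) * (-s * (x:ℂ) ^ (-s - 1)))
    (a := a) (b := b)
    (fun x hx => ((zmg_hasDerivAt m s (hpos x hx)).continuousAt.continuousWithinAt).sub
      continuousWithinAt_const)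
    (fun x hx => ((zmg_hasDerivAt m s (hpos x ⟨hx.1, hx.2.le⟩)).sub_const _).hasDerivWithinAt)
    (B := fun x => zmH m K x - zmH m K a)
    (B' := fun x => K * (1 + Real.log x) ^ m / x ^ 2)
    (by simp)
    (fun x hx => ((zmH_hasDerivAt m K (hpos x hx)).continuousAt.continuousWithinAt).sub
      continuousWithinAt_const)
    (fun x hx => ((zmH_hasDerivAt m K (hpos x ⟨hx.1, hx.2.le⟩)).sub_const _).hasDerivWithinAt)
    (fun x hx => norm_deriv_le m hs (ha.trans hx.1))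
  exact key ⟨hab, le_refl b⟩

lemma zmH_nonpos (m : ℕ) {K : ℝ} (hK : 0 ≤ K) {x : ℝ} (hx : 1 ≤ x) : zmH m K x ≤ 0 := by
  have h1 : 0 ≤ zmP m (1 + Real.log x) := zmP_nonneg m (by linarith [Real.log_nonneg hx])
  have hx0 : 0 < x := by linarith
  rw [zmH]
  have : 0 ≤ K * zmP m (1 + Real.log x) / x := by positivity
  linarith

lemma zm_sum_var (m : ℕ) {s : ℂ} (hs : 1 < s.re) (N : ℕ) (hN : 1 ≤ N) (k : ℕ) :
    ∑ j ∈ Finset.range k, ‖zmg m s ((N + j + 1 : ℕ) : ℝ) - zmg m s ((N + j : ℕ) : ℝ)‖ ≤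
      zmH m ((m:ℝ) + ‖s‖) ((N + k : ℕ) : ℝ) - zmH m ((m:ℝ) + ‖s‖) (N : ℝ) := by
  induction k with
  | zero => simp
  | succ k ih =>
    rw [Finset.sum_range_succ]
    have h1 := zmg_sub_le m hs (a := ((N + k : ℕ) : ℝ)) (b := ((N + k + 1 : ℕ) : ℝ))
      (by exact_mod_cast (by omega : 1 ≤ N + k)) (by exact_mod_cast (by omega))
    have e : N + (k + 1) = N + k + 1 := by ring
    rw [e]
    linarith

/-- Partial summation. -/
lemma zm_abel (f : ℕ → ℂ) (g : ℕ → ℂ) (N k : ℕ) :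
    ∑ j ∈ Finset.range k, f (N + j + 1) * g (N + j + 1) =
      (∑ n ∈ Finset.Icc 1 (N + k), f n) * g (N + k) - (∑ n ∈ Finset.Icc 1 N, f n) * g N -
      ∑ j ∈ Finset.range k, (∑ n ∈ Finset.Icc 1 (N + j), f n) * (g (N + j + 1) - g (N + j)) := by
  induction k with
  | zero => simp
  | succ k ih =>
    rw [Finset.sum_range_succ, ih, Finset.sum_range_succ]
    have e : N + (k + 1) = N + k + 1 := by ring
    have e2 : ∑ n ∈ Finset.Icc 1 (N + k + 1), f n =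
        (∑ n ∈ Finset.Icc 1 (N + k), f n) + f (N + k + 1) :=
      Finset.sum_Icc_succ_top (by omega) f
    rw [e, e2]
    ring

lemma zm_tail (m : ℕ) {s : ℂ} (hs : 1 < s.re) (f : ℕ → ℂ) {Q : ℝ} (hQ : 1 ≤ Q)
    (hf : ∀ N : ℕ, ‖∑ n ∈ Finset.Icc 1 N, f n‖ ≤ Q) (N : ℕ) (hN : 1 ≤ N) (k : ℕ) :
    ‖∑ j ∈ Finset.range k, f (N + j + 1) * zmg m s ((N + j + 1 : ℕ) : ℝ)‖ ≤
      2 * Q * ((1 + Real.log N) ^ m / N +
        ((m:ℝ) + ‖s‖) * zmP m (1 + Real.log N) / N) := by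
  have hN1 : (1:ℝ) ≤ N := by exact_mod_cast hN
  have hlN : 0 ≤ Real.log N := Real.log_nonneg hN1
  have h0 := zm_abel f (fun n => zmg m s (n:ℝ)) N k
  have hvar := zm_sum_var m hs N hN k
  set V := ∑ j ∈ Finset.range k, ‖zmg m s ((N + j + 1 : ℕ) : ℝ) - zmg m s ((N + j : ℕ) : ℝ)‖ with hV
  have hK : 0 ≤ (m:ℝ) + ‖s‖ := by positivity
  have hHk : zmH m ((m:ℝ) + ‖s‖) ((N + k : ℕ) : ℝ) ≤ 0 :=
    zmH_nonpos m hK (by exact_mod_cast (by omega : 1 ≤ N + k))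
  have hV2 : V ≤ ((m:ℝ) + ‖s‖) * zmP m (1 + Real.log N) / N := by
    have : - zmH m ((m:ℝ) + ‖s‖) (N:ℝ) = ((m:ℝ) + ‖s‖) * zmP m (1 + Real.log N) / N := by
      rw [zmH]; ring
    linarith
  have hgN : ‖zmg m s (N:ℝ)‖ ≤ (1 + Real.log N) ^ m / N := by
    refine (norm_zmg_le m hs hN1).trans ?_
    apply div_le_div_of_nonneg_right _ (by positivity)
    exact pow_le_pow_left₀ hlN (by linarith) _
  have hgk : ‖zmg m s ((N + k : ℕ) : ℝ)‖ ≤ ‖zmg m s (N:ℝ)‖ + V := by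
    have h2 : zmg m s ((N + k : ℕ) : ℝ) = zmg m s (N:ℝ) +
        ∑ j ∈ Finset.range k, (zmg m s ((N + j + 1 : ℕ) : ℝ) - zmg m s ((N + j : ℕ) : ℝ)) := by
      have := Finset.sum_range_sub (fun j : ℕ => zmg m s ((N + j : ℕ) : ℝ)) k
      have e : ∑ j ∈ Finset.range k, (zmg m s ((N + j + 1 : ℕ) : ℝ) - zmg m s ((N + j : ℕ) : ℝ)) =
          ∑ j ∈ Finset.range k,
            (zmg m s ((N + (j + 1) : ℕ) : ℝ) - zmg m s ((N + j : ℕ) : ℝ)) := by
        apply Finset.sum_congr rfl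
        intro j _
        rw [← add_assoc]
      rw [e, this]
      simp
    rw [h2]
    exact (norm_add_le _ _).trans (by gcongr; exact norm_sum_le _ _)
  rw [h0]
  have hV0 : 0 ≤ V := Finset.sum_nonneg (fun _ _ => norm_nonneg _)
  have b1 : ‖(∑ n ∈ Finset.Icc 1 (N + k), f n) * zmg m s ((N + k : ℕ) : ℝ)‖ ≤
      Q * (‖zmg m s (N:ℝ)‖ + V) := by
    rw [norm_mul]
    exact mul_le_mul (hf _) hgk (norm_nonneg _) (by linarith)
  have b2 : ‖(∑ n ∈ Finset.Icc 1 N, f n) * zmg m s (N : ℝ)‖ ≤ Q * ‖zmg m s (N:ℝ)‖ := by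
    rw [norm_mul]
    exact mul_le_mul (hf _) le_rfl (norm_nonneg _) (by linarith)
  have b3 : ‖∑ j ∈ Finset.range k, (∑ n ∈ Finset.Icc 1 (N + j), f n) *
      (zmg m s ((N + j + 1 : ℕ) : ℝ) - zmg m s ((N + j : ℕ) : ℝ))‖ ≤ Q * V := by
    refine (norm_sum_le _ _).trans ?_
    rw [hV, Finset.mul_sum]
    apply Finset.sum_le_sum
    intro j _
    rw [norm_mul]
    exact mul_le_mul_of_nonneg_right (hf _) (norm_nonneg _)
  calc ‖(∑ n ∈ Finset.Icc 1 (N + k), f n) * zmg m s ((N + k : ℕ) : ℝ) -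
        (∑ n ∈ Finset.Icc 1 N, f n) * zmg m s (N:ℝ) -
        ∑ j ∈ Finset.range k, (∑ n ∈ Finset.Icc 1 (N + j), f n) *
      (zmg m s ((N + j + 1 : ℕ) : ℝ) - zmg m s ((N + j : ℕ) : ℝ))‖
      ≤ Q * (‖zmg m s (N:ℝ)‖ + V) + Q * ‖zmg m s (N:ℝ)‖ + Q * V := by
        refine (norm_sub_le _ _).trans (add_le_add ((norm_sub_le _ _).trans (add_le_add b1 b2)) b3)
    _ = 2 * Q * (‖zmg m s (N:ℝ)‖ + V) := by ring
    _ ≤ _ := by gcongr

lemma zm_head (m : ℕ) {s : ℂ} (hs : 1 < s.re) (f : ℕ → ℂ) (hf : ∀ n, ‖f n‖ ≤ 2) (N : ℕ)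
    (hN : 1 ≤ N) :
    ‖∑ n ∈ Finset.Icc 1 N, f n * zmg m s (n : ℝ)‖ ≤ 2 * (1 + Real.log N) ^ (m+1) := by
  have hN1 : (1:ℝ) ≤ N := by exact_mod_cast hN
  have hlN : 0 ≤ Real.log N := Real.log_nonneg hN1
  have hharm : ∑ n ∈ Finset.Icc 1 N, (1:ℝ) / n ≤ 1 + Real.log N := by
    have h := harmonic_le_one_add_log N
    rw [harmonic_eq_sum_Icc] at h
    push_cast at h
    refine le_trans (le_of_eq ?_) h
    exact Finset.sum_congr rfl (fun n _ => one_div _)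
  calc ‖∑ n ∈ Finset.Icc 1 N, f n * zmg m s (n : ℝ)‖
      ≤ ∑ n ∈ Finset.Icc 1 N, ‖f n * zmg m s (n : ℝ)‖ := norm_sum_le _ _
    _ ≤ ∑ n ∈ Finset.Icc 1 N, 2 * (1 + Real.log N) ^ m * ((1:ℝ) / n) := by
        apply Finset.sum_le_sum
        intro n hn
        have hn1 : 1 ≤ n := (Finset.mem_Icc.mp hn).1
        have hnN : n ≤ N := (Finset.mem_Icc.mp hn).2
        have hn1' : (1:ℝ) ≤ n := by exact_mod_cast hn1
        have hl : 0 ≤ Real.log n := Real.log_nonneg hn1'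
        have hl2 : Real.log n ≤ 1 + Real.log N := by
          have : Real.log n ≤ Real.log N :=
            Real.log_le_log (by linarith) (by exact_mod_cast hnN)
          linarith
        rw [norm_mul]
        calc ‖f n‖ * ‖zmg m s (n:ℝ)‖ ≤ 2 * (Real.log n ^ m / n) :=
              mul_le_mul (hf n) (norm_zmg_le m hs hn1') (norm_nonneg _) (by norm_num)
          _ ≤ 2 * ((1 + Real.log N) ^ m / n) := by
              apply mul_le_mul_of_nonneg_left _ (by norm_num)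
              apply div_le_div_of_nonneg_right _ (by positivity)
              exact pow_le_pow_left₀ hl hl2 _
          _ = _ := by ring
    _ = 2 * (1 + Real.log N) ^ m * ∑ n ∈ Finset.Icc 1 N, (1:ℝ) / n := by
        rw [Finset.mul_sum]
    _ ≤ 2 * (1 + Real.log N) ^ m * (1 + Real.log N) :=
        mul_le_mul_of_nonneg_left hharm (by positivity)
    _ = _ := by ring

lemma term_eq_zmg (f : ℕ → ℂ) (m : ℕ) (s : ℂ) {n : ℕ} (hn : n ≠ 0) :
    LSeries.term (lg f m) s n = f n * zmg m s (n:ℝ) := by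
  rw [LSeries.term_of_ne_zero hn, lg, zmg, Complex.cpow_neg]
  push_cast
  rw [div_eq_mul_inv]
  ring

theorem Lm_bound_zeroMean (m : ℕ) : ∃ C : ℝ, 0 < C ∧ ∀ (f : ℕ → ℂ) (Q : ℝ), 1 ≤ Q →
    (∀ n, ‖f n‖ ≤ 2) → (∀ N : ℕ, ‖∑ n ∈ Finset.Icc 1 N, f n‖ ≤ Q) →
    ∀ s : ℂ, 1 < s.re → s.re ≤ 2 → ‖Lm f m s‖ ≤ C * (ell Q s) ^ (m+1) := by
  set F : ℝ := ((m+1).factorial : ℝ) with hF
  refine ⟨2 * 3 ^ (m+1) + 2 * (1 + ((m:ℝ)+1) * F) * 3 ^ m, by positivity, ?_⟩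
  intro f Q hQ hf hS s hs hs2
  have ht : 0 ≤ |s.im| := abs_nonneg _
  set y : ℝ := Q * (|s.im| + 3) with hy
  have hy3 : 3 ≤ y := by nlinarith
  set N : ℕ := ⌈y⌉₊ with hNdef
  have hyN : y ≤ N := Nat.le_ceil y
  have hN3 : (3:ℝ) ≤ N := hy3.trans hyN
  have hN1 : 1 ≤ N := by
    have : (1:ℝ) ≤ N := by linarith
    exact_mod_cast this
  have hN1' : (1:ℝ) ≤ N := by linarith
  have hN2y : (N:ℝ) ≤ 2 * y := by
    have := (Nat.ceil_lt_add_one (by linarith : (0:ℝ) ≤ y)).le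
    linarith
  have hell : 1 ≤ ell Q s := ell_ge hQ s
  have helly : ell Q s = Real.log y := rfl
  have hlN : 1 + Real.log N ≤ 3 * ell Q s := by
    have h1 : Real.log N ≤ Real.log (2 * y) := Real.log_le_log (by linarith) hN2y
    have h2 : Real.log (2 * y) = Real.log 2 + Real.log y :=
      Real.log_mul (by norm_num) (by linarith)
    have h3 : Real.log 2 ≤ 1 := by
      have := Real.log_two_lt_d9
      linarith
    rw [helly] at hell ⊢
    linarith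
  have hlN0 : 0 ≤ Real.log N := Real.log_nonneg hN1'
  set E : ℝ := ell Q s with hE
  have hab : LSeries.abscissaOfAbsConv f ≤ 1 := abscissa_le_one' hf
  have hsum := lg_summable hab m hs
  have hlim : Filter.Tendsto (fun k : ℕ => ∑ n ∈ Finset.range k, LSeries.term (lg f m) s n)
      Filter.atTop (nhds (Lm f m s)) := hsum.hasSum.tendsto_sum_nat
  have hlim2 : Filter.Tendsto
      (fun k : ℕ => ∑ n ∈ Finset.range (N + 1 + k), LSeries.term (lg f m) s n)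
      Filter.atTop (nhds (Lm f m s)) := by
    apply hlim.comp
    exact Filter.tendsto_atTop_mono (fun k => Nat.le_add_left k (N+1)) Filter.tendsto_id
  apply le_of_tendsto hlim2.norm
  filter_upwards with k
  rw [Finset.sum_range_add]
  have e1 : ∑ n ∈ Finset.range (N+1), LSeries.term (lg f m) s n =
      ∑ n ∈ Finset.Icc 1 N, f n * zmg m s (n:ℝ) := by
    rw [Finset.range_eq_Ico, Finset.sum_eq_sum_Ico_succ_bot (by omega)]
    rw [LSeries.term_zero, zero_add]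
    have : Finset.Ico (0+1) (N+1) = Finset.Icc 1 N := by
      ext a; simp
    rw [this]
    apply Finset.sum_congr rfl
    intro n hn
    exact term_eq_zmg f m s (by have := (Finset.mem_Icc.mp hn).1; omega)
  have e2 : ∑ j ∈ Finset.range k, LSeries.term (lg f m) s (N + 1 + j) =
      ∑ j ∈ Finset.range k, f (N + j + 1) * zmg m s ((N + j + 1 : ℕ) : ℝ) := by
    apply Finset.sum_congr rfl
    intro j _
    have : N + 1 + j = N + j + 1 := by ring
    rw [this]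
    exact term_eq_zmg f m s (by omega)
  rw [e1, e2]
  have h1 := zm_head m hs f hf N hN1
  have h2 := zm_tail m hs f hQ hS N hN1 k
  have hL1 : (1:ℝ) ≤ 1 + Real.log N := by linarith
  have hLpow : (1 + Real.log N) ^ (m+1) ≤ 3 ^ (m+1) * E ^ (m+1) := by
    rw [← mul_pow]; exact pow_le_pow_left₀ (by linarith) hlN _
  have hLpow' : (1 + Real.log N) ^ m ≤ 3 ^ m * E ^ m := by
    rw [← mul_pow]; exact pow_le_pow_left₀ (by linarith) hlN _
  have hEm : E ^ m ≤ E ^ (m+1) := pow_le_pow_right₀ hell (Nat.le_succ m)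
  have hP := zmP_le m hL1
  have hnorms : ‖s‖ ≤ |s.im| + 2 := by
    have := Complex.norm_le_abs_re_add_abs_im s
    rw [abs_of_pos (by linarith : (0:ℝ) < s.re)] at this
    linarith
  have hN0 : (0:ℝ) < N := by linarith
  have hK : Q * ((m:ℝ) + ‖s‖) ≤ ((m:ℝ)+1) * N := by
    have : Q * ((m:ℝ) + ‖s‖) ≤ ((m:ℝ)+1) * y := by
      rw [hy]
      have hm0 : (0:ℝ) ≤ m := by positivity
      have : (m:ℝ) + ‖s‖ ≤ ((m:ℝ)+1) * (|s.im| + 3) := by nlinarith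
      calc Q * ((m:ℝ) + ‖s‖) ≤ Q * (((m:ℝ)+1) * (|s.im| + 3)) :=
            mul_le_mul_of_nonneg_left this (by linarith)
        _ = _ := by ring
    refine this.trans (mul_le_mul_of_nonneg_left hyN (by positivity))
  have hQN : Q ≤ N := by nlinarith
  have t1 : Q * ((1 + Real.log N) ^ m / N) ≤ (1 + Real.log N) ^ m := by
    rw [mul_div_assoc', div_le_iff₀ hN0]
    have : 0 ≤ (1 + Real.log N) ^ m := by positivity
    nlinarith
  have t2 : Q * (((m:ℝ) + ‖s‖) * zmP m (1 + Real.log N) / N) ≤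
      ((m:ℝ)+1) * (F * (1 + Real.log N) ^ m) := by
    rw [mul_div_assoc', div_le_iff₀ hN0, ← mul_assoc]
    have hP0 := zmP_nonneg m hL1
    calc Q * ((m:ℝ) + ‖s‖) * zmP m (1 + Real.log N)
        ≤ (((m:ℝ)+1) * N) * zmP m (1 + Real.log N) := mul_le_mul_of_nonneg_right hK hP0
      _ ≤ (((m:ℝ)+1) * N) * (F * (1 + Real.log N) ^ m) :=
          mul_le_mul_of_nonneg_left hP (by positivity)
      _ = _ := by ring
  have hF0 : 0 ≤ F := by positivity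
  calc ‖∑ n ∈ Finset.Icc 1 N, f n * zmg m s (n:ℝ) +
        ∑ j ∈ Finset.range k, f (N + j + 1) * zmg m s ((N + j + 1 : ℕ) : ℝ)‖
      ≤ 2 * (1 + Real.log N) ^ (m+1) + 2 * Q * ((1 + Real.log N) ^ m / N +
        ((m:ℝ) + ‖s‖) * zmP m (1 + Real.log N) / N) :=
        (norm_add_le _ _).trans (add_le_add h1 h2)
    _ = 2 * (1 + Real.log N) ^ (m+1) + 2 * (Q * ((1 + Real.log N) ^ m / N) +
        Q * (((m:ℝ) + ‖s‖) * zmP m (1 + Real.log N) / N)) := by ring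
    _ ≤ 2 * (1 + Real.log N) ^ (m+1) + 2 * ((1 + Real.log N) ^ m +
        ((m:ℝ)+1) * (F * (1 + Real.log N) ^ m)) := by gcongr
    _ = 2 * (1 + Real.log N) ^ (m+1) + 2 * (1 + ((m:ℝ)+1) * F) * (1 + Real.log N) ^ m := by ring
    _ ≤ 2 * (3 ^ (m+1) * E ^ (m+1)) + 2 * (1 + ((m:ℝ)+1) * F) * (3 ^ m * E ^ (m+1)) := by
        apply add_le_add
        · exact mul_le_mul_of_nonneg_left hLpow (by norm_num)
        · apply mul_le_mul_of_nonneg_left _ (by positivity)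
          exact hLpow'.trans (mul_le_mul_of_nonneg_left hEm (by positivity))
    _ = _ := by ring

end Pool.Agent.Lib.SW
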